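import Pool.Agent.S7K.KDef

/-!
# S7, block K, part 1: Stone-Weierstrass, density of the trigonometric polynomials, Parseval
-/

set_option autoImplicit false

namespace Pool.Agent.S7K

open MeasureTheory Filter Topology
open scoped ENNReal

section general

variable {X : Type*} [TopologicalSpace X] [CompactSpace X]

-- BEGIN a1
/-- the complex valued function of a circle valued function -/
private noncomputable def a1_tc (f : C(X, Circle)) : C(X, ℂ) := ⟨fun x => (f x : ℂ), by fun_prop⟩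

omit [CompactSpace X] in
private theorem a1_mul (f g : C(X, Circle)) : a1_tc (f * g) = a1_tc f * a1_tc g := by
  ext x
  simp [a1_tc]

omit [CompactSpace X] in
private theorem a1_one : a1_tc (1 : C(X, Circle)) = 1 := by
  ext x
  simp [a1_tc]

omit [CompactSpace X] in
private theorem a1_star (f : C(X, Circle)) : star (a1_tc f) = a1_tc f⁻¹ := by
  ext x
  show (starRingEnd ℂ) ((f x : Circle) : ℂ) = (((f x)⁻¹ : Circle) : ℂ)
  rw [Circle.coe_inv_eq_conj]

omit [CompactSpace X] in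
private theorem a1_span_mul (M : Set C(X, Circle)) (mul : ∀ f ∈ M, ∀ g ∈ M, f * g ∈ M)
    {a b : C(X, ℂ)} (ha : a ∈ Submodule.span ℂ (a1_tc '' M))
    (hb : b ∈ Submodule.span ℂ (a1_tc '' M)) : a * b ∈ Submodule.span ℂ (a1_tc '' M) := by
  have h : Submodule.span ℂ (a1_tc '' M) * Submodule.span ℂ (a1_tc '' M) ≤
      Submodule.span ℂ (a1_tc '' M) := by
    rw [Submodule.span_mul_span, Submodule.span_le]
    rintro _ ⟨_, ⟨f, hf, rfl⟩, _, ⟨g, hg, rfl⟩, rfl⟩
    exact Submodule.subset_span ⟨f * g, mul f hf g hg, a1_mul f g⟩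
  exact h (Submodule.mul_mem_mul ha hb)

/-- PROOF. Stone-Weierstrass (`ContinuousMap.starSubalgebra_topologicalClosure_eq_top_of_separatesPoints`) for the
span of `M` (a star subalgebra: `M` is closed under products and `conj f = f⁻¹`). -/
theorem sw_dense (M : Set C(X, Circle)) (one : 1 ∈ M) (mul : ∀ f ∈ M, ∀ g ∈ M, f * g ∈ M)
    (inv : ∀ f ∈ M, f⁻¹ ∈ M) (sep : ∀ x y, (∀ f ∈ M, f x = f y) → x = y) (F : C(X, ℂ)) {ε : ℝ}
    (hε : 0 < ε) :
    ∃ (s : Finset C(X, Circle)) (c : C(X, Circle) → ℂ), (∀ f ∈ s, f ∈ M) ∧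
      ∀ x, ‖F x - ∑ f ∈ s, c f * (f x : ℂ)‖ ≤ ε := by
  classical
  have hone : (1 : C(X, ℂ)) ∈ Submodule.span ℂ (a1_tc '' M) :=
    Submodule.subset_span ⟨1, one, a1_one⟩
  let A : StarSubalgebra ℂ C(X, ℂ) :=
    { carrier := (Submodule.span ℂ (a1_tc '' M) : Set C(X, ℂ))
      mul_mem' := fun ha hb => a1_span_mul M mul ha hb
      one_mem' := hone
      add_mem' := fun ha hb => Submodule.add_mem _ ha hb
      zero_mem' := Submodule.zero_mem _
      algebraMap_mem' := fun r => by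
        have h : algebraMap ℂ C(X, ℂ) r = r • 1 := by
          rw [Algebra.algebraMap_eq_smul_one]
        show algebraMap ℂ C(X, ℂ) r ∈ Submodule.span ℂ (a1_tc '' M)
        rw [h]
        exact Submodule.smul_mem _ _ hone
      star_mem' := by
        intro a ha
        have ha' : a ∈ Submodule.span ℂ (a1_tc '' M) := ha
        show star a ∈ Submodule.span ℂ (a1_tc '' M)
        clear ha
        induction ha' using Submodule.span_induction with
        | mem z hz =>
          obtain ⟨f, hf, rfl⟩ := hz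
          rw [a1_star]
          exact Submodule.subset_span ⟨f⁻¹, inv f hf, rfl⟩
        | zero => rw [star_zero]; exact Submodule.zero_mem _
        | add a b _ _ h1 h2 => rw [star_add]; exact Submodule.add_mem _ h1 h2
        | smul r a _ h1 => rw [star_smul]; exact Submodule.smul_mem _ _ h1 }
  have hsep : A.SeparatesPoints := by
    intro x y hxy
    by_contra hne
    apply hxy
    refine sep x y fun f hf => ?_
    by_contra hfx
    apply hne
    refine ⟨fun z => a1_tc f z, ⟨a1_tc f, Submodule.subset_span ⟨f, hf, rfl⟩, rfl⟩, ?_⟩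
    intro h
    exact hfx (Circle.coe_injective h)
  have htop := ContinuousMap.starSubalgebra_topologicalClosure_eq_top_of_separatesPoints A hsep
  have hF : F ∈ A.topologicalClosure := by rw [htop]; trivial
  have hF' : F ∈ closure (A : Set C(X, ℂ)) := by
    rwa [← StarSubalgebra.topologicalClosure_coe]
  obtain ⟨h, hhA, hh⟩ := Metric.mem_closure_iff.1 hF' ε hε
  have hh2 : h ∈ Submodule.span ℂ (a1_tc '' M) := hhA
  rw [Finsupp.mem_span_image_iff_linearCombination] at hh2
  obtain ⟨l, hl, rfl⟩ := hh2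
  refine ⟨l.support, l, fun f hf => ?_, fun x => ?_⟩
  · exact (Finsupp.mem_supported ℂ l).1 hl hf
  · have h1 : (Finsupp.linearCombination ℂ a1_tc l : C(X, ℂ)) x =
        ∑ f ∈ l.support, l f * (f x : ℂ) := by
      rw [Finsupp.linearCombination_apply, Finsupp.sum, ContinuousMap.sum_apply]
      rfl
    rw [← h1, ← dist_eq_norm]
    exact (ContinuousMap.dist_apply_le_dist x).trans hh.le
-- END a1

-- BEGIN a2
private theorem a2_bd [T2Space X] [SecondCountableTopology X] [MeasurableSpace X] [BorelSpace X]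
    {μ : Measure X} [IsFiniteMeasure μ] (F G : C(X, ℂ)) {ε : ℝ} (h : ∀ x, ‖F x - G x‖ ≤ ε) :
    ‖∫ x, F x ∂μ - ∫ x, G x ∂μ‖ ≤ ε * μ.real Set.univ := by
  have hF : Integrable (fun x => F x) μ :=
    F.continuous.integrable_of_hasCompactSupport (HasCompactSupport.of_compactSpace _)
  have hG : Integrable (fun x => G x) μ :=
    G.continuous.integrable_of_hasCompactSupport (HasCompactSupport.of_compactSpace _)
  rw [← integral_sub hF hG]
  exact norm_integral_le_of_norm_le_const (Filter.Eventually.of_forall h)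

/-- PROOF. `ext_of_forall_integral_eq_of_IsFiniteMeasure` (`HasOuterApproxClosed`: the space is metrizable by
`TopologicalSpace.metrizableSpace_of_t3_secondCountable`), `sw_dense`. -/
theorem ext_sw [T2Space X] [SecondCountableTopology X] [MeasurableSpace X] [BorelSpace X]
    (M : Set C(X, Circle)) (one : 1 ∈ M)
    (mul : ∀ f ∈ M, ∀ g ∈ M, f * g ∈ M) (inv : ∀ f ∈ M, f⁻¹ ∈ M)
    (sep : ∀ x y, (∀ f ∈ M, f x = f y) → x = y) {μ ν : Measure X} [IsFiniteMeasure μ]
    [IsFiniteMeasure ν] (h : ∀ f ∈ M, ∫ x, (f x : ℂ) ∂μ = ∫ x, (f x : ℂ) ∂ν) : μ = ν := by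
  have : TopologicalSpace.MetrizableSpace X :=
    TopologicalSpace.metrizableSpace_of_t3_secondCountable X
  have key : ∀ F : C(X, ℂ), ∫ x, F x ∂μ = ∫ x, F x ∂ν := by
    intro F
    have h1 : ∀ ε : ℝ, 0 < ε → ‖∫ x, F x ∂μ - ∫ x, F x ∂ν‖ ≤
        ε * (μ.real Set.univ + ν.real Set.univ) := by
      intro ε hε
      obtain ⟨s, c, hs, hc⟩ := sw_dense M one mul inv sep F hε
      let G : C(X, ℂ) := ⟨fun x => ∑ f ∈ s, c f * (f x : ℂ), by fun_prop⟩
      have h2 : ∫ x, G x ∂μ = ∫ x, G x ∂ν := by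
        show ∫ x, ∑ f ∈ s, c f * (f x : ℂ) ∂μ = ∫ x, ∑ f ∈ s, c f * (f x : ℂ) ∂ν
        rw [integral_finsetSum, integral_finsetSum]
        · refine Finset.sum_congr rfl fun f hf => ?_
          rw [integral_const_mul, integral_const_mul, h f (hs f hf)]
        · intro f _
          exact Continuous.integrable_of_hasCompactSupport (by fun_prop)
            (HasCompactSupport.of_compactSpace _)
        · intro f _
          exact Continuous.integrable_of_hasCompactSupport (by fun_prop)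
            (HasCompactSupport.of_compactSpace _)
      have h3 := a2_bd (μ := μ) F G hc
      have h4 := a2_bd (μ := ν) F G hc
      have h5 : ∫ x, F x ∂μ - ∫ x, F x ∂ν =
          (∫ x, F x ∂μ - ∫ x, G x ∂μ) - (∫ x, F x ∂ν - ∫ x, G x ∂ν) := by
        rw [h2]; ring
      rw [h5, mul_add]
      exact (norm_sub_le _ _).trans (add_le_add h3 h4)
    have h6 : ‖∫ x, F x ∂μ - ∫ x, F x ∂ν‖ ≤ 0 := by
      refine le_of_forall_pos_le_add fun δ hδ => ?_
      rw [zero_add]
      have hC : 0 ≤ μ.real Set.univ + ν.real Set.univ := by positivity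
      have h7 := h1 (δ / (μ.real Set.univ + ν.real Set.univ + 1)) (by positivity)
      refine h7.trans ?_
      rw [div_mul_eq_mul_div, div_le_iff₀ (by positivity)]
      nlinarith
    exact sub_eq_zero.1 (norm_le_zero_iff.1 h6)
  refine ext_of_forall_integral_eq_of_IsFiniteMeasure fun f => ?_
  have h1 := key ⟨fun x => ((f x : ℝ) : ℂ), by fun_prop⟩
  have h2 : ((∫ x, f x ∂μ : ℝ) : ℂ) = ((∫ x, f x ∂ν : ℝ) : ℂ) := by
    rw [← integral_complex_ofReal, ← integral_complex_ofReal]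
    exact h1
  exact_mod_cast h2
-- END a2

-- BEGIN a3
/-- PROOF. `sw_dense`; all the measures have mass one. -/
theorem tendsto_sw [MeasurableSpace X] [BorelSpace X] (M : Set C(X, Circle)) (one : 1 ∈ M)
    (mul : ∀ f ∈ M, ∀ g ∈ M, f * g ∈ M) (inv : ∀ f ∈ M, f⁻¹ ∈ M)
    (sep : ∀ x y, (∀ f ∈ M, f x = f y) → x = y) {ι : Type*} {l : Filter ι} (μ : ι → Measure X)
    (hμ : ∀ i, IsProbabilityMeasure (μ i)) (ν : Measure X) [IsProbabilityMeasure ν]
    (h : ∀ f ∈ M, Tendsto (fun i => ∫ x, (f x : ℂ) ∂μ i) l (𝓝 (∫ x, (f x : ℂ) ∂ν)))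
    (F : C(X, ℂ)) : Tendsto (fun i => ∫ x, F x ∂μ i) l (𝓝 (∫ x, F x ∂ν)) := by
  rw [Metric.tendsto_nhds]
  intro ε hε
  obtain ⟨s, c, hs, hF⟩ := sw_dense M one mul inv sep F (show (0 : ℝ) < ε / 4 by positivity)
  have hint : ∀ (m : Measure X) [IsProbabilityMeasure m] (f : C(X, Circle)),
      Integrable (fun x => c f * (f x : ℂ)) m := by
    intro m _ f
    refine Integrable.const_mul ?_ _
    refine Integrable.of_bound (C := 1) ?_ (Filter.Eventually.of_forall fun x => ?_)
    · exact (Continuous.comp (g := fun z : Circle => (z : ℂ)) (by fun_prop) f.continuous).aestronglyMeasurable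
    · simp
  have hsum : ∀ (m : Measure X) [IsProbabilityMeasure m],
      ∫ x, ∑ f ∈ s, c f * (f x : ℂ) ∂m = ∑ f ∈ s, c f * ∫ x, (f x : ℂ) ∂m := by
    intro m _
    rw [integral_finsetSum s fun f _ => hint m f]
    exact Finset.sum_congr rfl fun f _ => integral_const_mul _ _
  have hnear : ∀ (m : Measure X) [IsProbabilityMeasure m],
      ‖∫ x, F x ∂m - ∑ f ∈ s, c f * ∫ x, (f x : ℂ) ∂m‖ ≤ ε / 4 := by
    intro m _
    have hFi : Integrable (fun x => F x) m := by
      refine Integrable.of_bound (C := ‖F‖) F.continuous.aestronglyMeasurable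
        (Filter.Eventually.of_forall fun x => F.norm_coe_le_norm x)
    rw [← hsum m, ← integral_sub hFi (integrable_finsetSum s fun f _ => hint m f)]
    refine (norm_integral_le_of_norm_le_const (Filter.Eventually.of_forall hF)).trans ?_
    simp
  have hlim : Tendsto (fun i => ∑ f ∈ s, c f * ∫ x, (f x : ℂ) ∂μ i) l
      (𝓝 (∑ f ∈ s, c f * ∫ x, (f x : ℂ) ∂ν)) :=
    tendsto_finsetSum s fun f hf => (h f (hs f hf)).const_mul _
  rw [Metric.tendsto_nhds] at hlim
  filter_upwards [hlim (ε / 4) (by positivity)] with i hi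
  have := hμ i
  rw [dist_eq_norm] at hi ⊢
  have h1 := hnear (μ i)
  have h2 := hnear ν
  have h3 : ∫ x, F x ∂μ i - ∫ x, F x ∂ν =
      (∫ x, F x ∂μ i - ∑ f ∈ s, c f * ∫ x, (f x : ℂ) ∂μ i) +
      (∑ f ∈ s, c f * ∫ x, (f x : ℂ) ∂μ i - ∑ f ∈ s, c f * ∫ x, (f x : ℂ) ∂ν) -
      (∫ x, F x ∂ν - ∑ f ∈ s, c f * ∫ x, (f x : ℂ) ∂ν) := by ring
  rw [h3]
  refine lt_of_le_of_lt (norm_sub_le _ _) ?_
  refine lt_of_le_of_lt (add_le_add_left (norm_add_le _ _) _) ?_
  linarith
-- END a3

end general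

section group

variable {K : Type*} [CommGroup K] [TopologicalSpace K]

-- BEGIN b0
theorem continuous_ch (χ : PontryaginDual K) : Continuous (ch χ) := by
  exact Continuous.comp (g := fun z : Circle => (z : ℂ)) (by fun_prop) (map_continuous χ)

theorem norm_ch (χ : PontryaginDual K) (y : K) : ‖ch χ y‖ = 1 := by
  simp [ch]

theorem ch_mul (χ : PontryaginDual K) (x y : K) : ch χ (x * y) = ch χ x * ch χ y := by
  simp [ch]

theorem mul_ch (χ ψ : PontryaginDual K) (y : K) : ch (χ * ψ) y = ch χ y * ch ψ y := by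
  exact congrArg (fun z : Circle => (z : ℂ)) (show (χ * ψ) y = χ y * ψ y from rfl)

theorem inv_ch (χ : PontryaginDual K) (y : K) : ch χ⁻¹ y = (starRingEnd ℂ) (ch χ y) := by
  rw [show ch χ⁻¹ y = (((χ y)⁻¹ : Circle) : ℂ) from rfl, Circle.coe_inv_eq_conj]
  rfl

theorem pow_ch (χ : PontryaginDual K) (n : ℕ) (y : K) : ch (χ ^ n) y = ch χ (y ^ n) := by
  have h : ∀ n : ℕ, (χ ^ n) y = χ (y ^ n) := by
    intro n
    induction n with
    | zero =>
      rw [pow_zero, pow_zero, map_one]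
      rfl
    | succ k ih =>
      rw [pow_succ, pow_succ, map_mul, ← ih]
      rfl
  exact congrArg (fun z : Circle => (z : ℂ)) (h n)

theorem one_ch (y : K) : ch (1 : PontryaginDual K) y = 1 := by
  rw [show ch (1 : PontryaginDual K) y = ((1 : Circle) : ℂ) from rfl]
  simp
-- END b0

variable [IsTopologicalGroup K] [CompactSpace K] [T2Space K]

-- BEGIN b1
private theorem b1_scalar (sep : ∀ x : K, (∀ χ : PontryaginDual K, χ x = 1) → x = 1)
    (f : C(K, ℂ)) {ε : ℝ} (hε : 0 < ε) :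
    ∃ (s : Finset (PontryaginDual K)) (c : PontryaginDual K → ℂ), ∀ y, ‖f y - ∑ χ ∈ s, ch χ y * c χ‖ ≤ ε := by
  classical
  set j : PontryaginDual K → C(K, Circle) := fun χ => ⟨fun y => χ y, χ.continuous_toFun⟩ with hj
  have jap : ∀ χ y, (j χ) y = χ y := fun χ y => rfl
  have jinj : Function.Injective j := by
    intro a b hab
    apply DFunLike.ext
    intro y
    rw [← jap a y, ← jap b y, hab]
  obtain ⟨s, c, hs, hc⟩ := sw_dense (Set.range j) ⟨1, by ext y; rfl⟩
    (by rintro _ ⟨a, rfl⟩ _ ⟨b, rfl⟩; exact ⟨a * b, by ext y; rfl⟩)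
    (by rintro _ ⟨a, rfl⟩; exact ⟨a⁻¹, by ext y; rfl⟩)
    (by
      intro x y h
      have h1 : x * y⁻¹ = 1 := by
        apply sep
        intro χ
        have h2 : χ x = χ y := h (j χ) ⟨χ, rfl⟩
        rw [map_mul, map_inv, h2, mul_inv_cancel]
      exact mul_inv_eq_one.1 h1) f hε
  set g : C(K, Circle) → PontryaginDual K := fun φ => if h : φ ∈ Set.range j then h.choose else 1 with hg
  have gj : ∀ φ ∈ Set.range j, j (g φ) = φ := by
    intro φ h
    simp only [hg, dif_pos h]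
    exact h.choose_spec
  refine ⟨s.image g, fun χ => c (j χ), fun y => ?_⟩
  rw [Finset.sum_image]
  · have : ∑ φ ∈ s, ch (g φ) y * c (j (g φ)) = ∑ φ ∈ s, c φ * (φ y : ℂ) := by
      apply Finset.sum_congr rfl
      intro φ hφ
      rw [gj φ (hs φ hφ), mul_comm]
      congr 1
      show ((g φ y : Circle) : ℂ) = _
      rw [← jap (g φ) y, gj φ (hs φ hφ)]
    rw [this]
    exact hc y
  · intro a ha b hb hab
    rw [← gj a (hs a ha), ← gj b (hs b hb), hab]

/-- PROOF. Partition of unity (or the Stone-Weierstrass theorem on the space of `V`-valued functions: the set of limits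
of such polynomials is closed under sums and contains `f • v`, `f` scalar and continuous, by `sw_dense`; a
continuous function on a compact space is a uniform limit of sums of such `f • v`). -/
theorem tp_dense (sep : ∀ x : K, (∀ χ : PontryaginDual K, χ x = 1) → x = 1) {V : Type*}
    [NormedAddCommGroup V] [NormedSpace ℂ V] (F : C(K, V)) {ε : ℝ} (hε : 0 < ε) :
    ∃ (s : Finset (PontryaginDual K)) (v : PontryaginDual K → V), ∀ y, ‖F y - tp s v y‖ ≤ ε := by
  classical
  have hU : ∀ k : K, IsOpen {y : K | ‖F y - F k‖ < ε / 2} := fun k =>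
    isOpen_lt (by fun_prop) continuous_const
  obtain ⟨t, ht⟩ := isCompact_univ.elim_finite_subcover (fun k : K => {y : K | ‖F y - F k‖ < ε / 2}) hU
    (by
      intro y _
      rw [Set.mem_iUnion]
      exact ⟨y, by simp [hε]⟩)
  obtain ⟨p, hp⟩ := PartitionOfUnity.exists_isSubordinate (isClosed_univ (X := K))
    (fun k : t => {y : K | ‖F y - F k‖ < ε / 2}) (fun k => hU k)
    (by
      intro y hy
      have := ht hy
      simp only [Set.mem_iUnion] at this ⊢
      obtain ⟨k, hk, h⟩ := this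
      exact ⟨⟨k, hk⟩, h⟩)
  have hsum : ∀ y, ∑ k : t, p k y = 1 := by
    intro y
    have := p.sum_eq_one (Set.mem_univ y)
    rwa [finsum_eq_sum_of_fintype] at this
  have h1 : ∀ y, ‖F y - ∑ k : t, (p k y : ℂ) • F k‖ ≤ ε / 2 := by
    intro y
    have e : F y - ∑ k : t, (p k y : ℂ) • F k = ∑ k : t, (p k y : ℂ) • (F y - F k) := by
      simp only [smul_sub, Finset.sum_sub_distrib, ← Finset.sum_smul]
      rw [← Complex.ofReal_sum, hsum y, Complex.ofReal_one, one_smul]
    rw [e]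
    calc ‖∑ k : t, (p k y : ℂ) • (F y - F k)‖ ≤ ∑ k : t, ‖(p k y : ℂ) • (F y - F k)‖ := norm_sum_le _ _
      _ ≤ ∑ k : t, p k y * (ε / 2) := by
        apply Finset.sum_le_sum
        intro k _
        rw [norm_smul, Complex.norm_real, Real.norm_of_nonneg (p.nonneg k y)]
        rcases eq_or_ne (p k y) 0 with h0 | h0
        · rw [h0]; simp
        · apply mul_le_mul_of_nonneg_left _ (p.nonneg k y)
          have : y ∈ {y : K | ‖F y - F k‖ < ε / 2} := hp k (subset_tsupport _ h0)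
          exact this.le
      _ = ε / 2 := by rw [← Finset.sum_mul, hsum y, one_mul]
  set B : ℝ := ∑ k : t, ‖F k‖ with hB
  have hB0 : 0 ≤ B := Finset.sum_nonneg fun k _ => norm_nonneg _
  have hd : 0 < ε / 2 / (B + 1) := by positivity
  have h2 : ∀ k : t, ∃ (s : Finset (PontryaginDual K)) (c : PontryaginDual K → ℂ),
      ∀ y, ‖(p k y : ℂ) - ∑ χ ∈ s, ch χ y * c χ‖ ≤ ε / 2 / (B + 1) := by
    intro k
    exact b1_scalar sep ⟨fun y => (p k y : ℂ), Complex.continuous_ofReal.comp (p k).continuous⟩ hd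
  choose S c hc using h2
  refine ⟨Finset.univ.biUnion S, fun χ => ∑ k : t, (if χ ∈ S k then c k χ else 0) • F k, fun y => ?_⟩
  have h3 : tp (Finset.univ.biUnion S) (fun χ => ∑ k : t, (if χ ∈ S k then c k χ else 0) • F k) y =
      ∑ k : t, (∑ χ ∈ S k, ch χ y * c k χ) • F k := by
    unfold tp
    simp only [Finset.smul_sum]
    rw [Finset.sum_comm]
    apply Finset.sum_congr rfl
    intro k _
    rw [Finset.sum_smul, ← Finset.sum_subset (Finset.subset_biUnion_of_mem S (Finset.mem_univ k))]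
    · apply Finset.sum_congr rfl
      intro χ hχ
      rw [if_pos hχ, smul_smul]
    · intro χ _ hχ
      rw [if_neg hχ, zero_smul, smul_zero]
  rw [h3]
  calc ‖F y - ∑ k : t, (∑ χ ∈ S k, ch χ y * c k χ) • F k‖
      = ‖(F y - ∑ k : t, (p k y : ℂ) • F k) +
          ∑ k : t, ((p k y : ℂ) - ∑ χ ∈ S k, ch χ y * c k χ) • F k‖ := by
        congr 1
        simp only [sub_smul, Finset.sum_sub_distrib]
        abel
    _ ≤ ε / 2 + ∑ k : t, ‖((p k y : ℂ) - ∑ χ ∈ S k, ch χ y * c k χ) • F k‖ :=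
        (norm_add_le _ _).trans (add_le_add (h1 y) (norm_sum_le _ _))
    _ ≤ ε / 2 + ∑ k : t, ε / 2 / (B + 1) * ‖F k‖ := by
        gcongr with k _
        rw [norm_smul]
        exact mul_le_mul_of_nonneg_right (hc k y) (norm_nonneg _)
    _ = ε / 2 + ε / 2 / (B + 1) * B := by rw [← Finset.mul_sum]
    _ ≤ ε / 2 + ε / 2 := by
        gcongr
        rw [div_mul_eq_mul_div, div_le_iff₀ (by positivity)]
        have : 0 ≤ ε / 2 := by positivity
        nlinarith
    _ = ε := by ring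
-- END b1

variable [SecondCountableTopology K] [MeasurableSpace K] [BorelSpace K]
  (m : Measure K) [m.IsHaarMeasure] [IsProbabilityMeasure m]

-- BEGIN b2
/-- PROOF. `χ a ≠ 1` for some `a`; replace `y` by `a y`. -/
theorem int_ch {χ : PontryaginDual K} (h : χ ≠ 1) : ∫ y, ch χ y ∂m = 0 := by
  have ha : ∃ a : K, χ a ≠ 1 := by
    by_contra hcon
    push Not at hcon
    apply h
    exact DFunLike.ext _ _ fun x => by rw [hcon x]; rfl
  obtain ⟨a, ha⟩ := ha
  have h1 : ∫ y, ch χ (a * y) ∂m = ∫ y, ch χ y ∂m := integral_mul_left_eq_self (ch χ) a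
  have h2 : ∫ y, ch χ (a * y) ∂m = ch χ a * ∫ y, ch χ y ∂m := by
    have h3 : (fun y => ch χ (a * y)) = fun y => ch χ a * ch χ y := funext fun y => ch_mul χ a y
    rw [h3]
    exact integral_const_mul _ _
  have h4 : (ch χ a - 1) * ∫ y, ch χ y ∂m = 0 := by
    rw [sub_mul, one_mul, ← h2, h1, sub_self]
  rcases mul_eq_zero.1 h4 with h5 | h5
  · exfalso
    apply ha
    have h6 : ch χ a = 1 := sub_eq_zero.1 h5
    exact Circle.ext (by simpa [ch] using h6)
  · exact h5

omit [IsTopologicalGroup K] [CompactSpace K] [T2Space K] [SecondCountableTopology K]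
  [BorelSpace K] [m.IsHaarMeasure] in
theorem int_ch_one : ∫ y, ch (1 : PontryaginDual K) y ∂m = 1 := by
  have h : (fun y : K => ch (1 : PontryaginDual K) y) = fun _ => (1 : ℂ) := funext fun y => one_ch y
  rw [h]
  simp

theorem int_conj_ch (χ ψ : PontryaginDual K) [Decidable (χ = ψ)] :
    ∫ y, (starRingEnd ℂ) (ch χ y) * ch ψ y ∂m = if χ = ψ then 1 else 0 := by
  have h : (fun y : K => (starRingEnd ℂ) (ch χ y) * ch ψ y) = fun y => ch (χ⁻¹ * ψ) y :=
    funext fun y => by rw [mul_ch, inv_ch]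
  rw [h]
  split_ifs with hc
  · rw [hc, inv_mul_cancel]
    exact int_ch_one m
  · exact int_ch m fun h1 => hc (inv_mul_eq_one.1 h1)
-- END b2

-- BEGIN b3
/-- PROOF. `MemLp.exists_boundedContinuous_eLpNorm_sub_le` and `tp_dense`. -/
theorem tp_dense_L2 (sep : ∀ x : K, (∀ χ : PontryaginDual K, χ x = 1) → x = 1) {V : Type*}
    [NormedAddCommGroup V] [NormedSpace ℂ V] {F : K → V} (hF : MemLp F 2 m) {ε : ℝ≥0∞}
    (hε : ε ≠ 0) :
    ∃ (s : Finset (PontryaginDual K)) (v : PontryaginDual K → V),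
      eLpNorm (fun y => F y - tp s v y) 2 m ≤ ε := by
  have h2 : (2 : ℝ≥0∞) ≠ ∞ := by simp
  have hε2 : ε / 2 ≠ 0 := by
    simpa [ENNReal.div_eq_zero_iff] using hε
  let _ : NormedSpace ℝ V := NormedSpace.complexToReal
  obtain ⟨g, hg, hgm⟩ := hF.exists_boundedContinuous_eLpNorm_sub_le h2 hε2
  obtain ⟨δ, hδ0, hδ⟩ : ∃ δ : ℝ, 0 < δ ∧ ENNReal.ofReal δ ≤ ε / 2 := by
    by_cases hi : ε / 2 = ∞
    · exact ⟨1, one_pos, by simp [hi]⟩
    · exact ⟨(ε / 2).toReal, ENNReal.toReal_pos hε2 hi, by rw [ENNReal.ofReal_toReal hi]⟩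
  obtain ⟨s, v, hsv⟩ := tp_dense sep g.toContinuousMap hδ0
  refine ⟨s, v, ?_⟩
  have hch : ∀ χ : PontryaginDual K, Continuous (ch χ) := fun χ => continuous_ch χ
  have htp : Continuous (tp s v) := by
    unfold tp
    exact continuous_finsetSum s fun χ _ => (hch χ).smul continuous_const
  have hm2 : AEStronglyMeasurable (fun y => g y - tp s v y) m :=
    (g.continuous.sub htp).aestronglyMeasurable
  have hm1 : AEStronglyMeasurable (fun y => F y - g y) m :=
    hF.1.sub g.continuous.aestronglyMeasurable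
  have hb : eLpNorm (fun y => g y - tp s v y) 2 m ≤ ε / 2 := by
    refine le_trans ?_ hδ
    have := eLpNorm_le_of_ae_bound (μ := m) (p := 2) (f := fun y => g y - tp s v y) (C := δ)
      (Filter.Eventually.of_forall hsv)
    simpa using this
  have hsum : (fun y => F y - tp s v y) = (fun y => F y - g y) + fun y => g y - tp s v y := by
    funext y
    simp
  rw [hsum]
  calc eLpNorm ((fun y => F y - g y) + fun y => g y - tp s v y) 2 m
      ≤ eLpNorm (fun y => F y - g y) 2 m + eLpNorm (fun y => g y - tp s v y) 2 m :=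
        eLpNorm_add_le hm1 hm2 (by norm_num)
    _ ≤ ε / 2 + ε / 2 := add_le_add hg hb
    _ = ε := ENNReal.add_halves ε
-- END b3

-- BEGIN b4
omit [IsTopologicalGroup K] [T2Space K] [SecondCountableTopology K] [MeasurableSpace K]
  [BorelSpace K] in
private theorem b4_dist {χ ψ : PontryaginDual K} (h : χ ≠ ψ) :
    ∃ y : K, 1 ≤ ‖ch χ y - ch ψ y‖ := by
  by_contra hcon
  push Not at hcon
  have key : ∀ y : K, ‖ch χ (y * y) - ch ψ (y * y)‖ ^ 2
      = ‖ch χ y - ch ψ y‖ ^ 2 * (4 - ‖ch χ y - ch ψ y‖ ^ 2) := by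
    intro y
    have e1 : ch χ (y * y) - ch ψ (y * y)
        = (ch χ y - ch ψ y) * (ch χ y + ch ψ y) := by
      rw [ch_mul, ch_mul]; ring
    have e2 : ‖ch χ y + ch ψ y‖ ^ 2 = 4 - ‖ch χ y - ch ψ y‖ ^ 2 := by
      have := parallelogram_law_with_norm ℝ (ch χ y) (ch ψ y)
      rw [norm_ch, norm_ch] at this
      nlinarith [this]
    rw [e1, norm_mul, mul_pow, e2]
  have hc : Continuous fun y : K => ‖ch χ y - ch ψ y‖ :=
    ((continuous_ch χ).sub (continuous_ch ψ)).norm
  obtain ⟨y0, -, hy0⟩ := isCompact_univ.exists_isMaxOn (Set.univ_nonempty (α := K))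
    hc.continuousOn
  have hmax : ∀ y, ‖ch χ y - ch ψ y‖ ≤ ‖ch χ y0 - ch ψ y0‖ := fun y => hy0 (Set.mem_univ y)
  set a := ‖ch χ y0 - ch ψ y0‖ with ha
  have ha0 : 0 ≤ a := norm_nonneg _
  have ha1 : a < 1 := hcon y0
  have h1 := key y0
  have h2 := hmax (y0 * y0)
  have h3 : ‖ch χ (y0 * y0) - ch ψ (y0 * y0)‖ ^ 2 ≤ a ^ 2 :=
    pow_le_pow_left₀ (norm_nonneg _) h2 2
  rw [h1] at h3
  have ha00 : a = 0 := by
    by_contra hne
    have hpos : 0 < a ^ 2 := by positivity
    nlinarith [mul_pos hpos (show (0 : ℝ) < 3 - a ^ 2 by nlinarith)]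
  apply h
  ext y
  have h4 := hmax y
  rw [ha00] at h4
  have h5 : ch χ y - ch ψ y = 0 := norm_le_zero_iff.1 h4
  exact Subtype.coe_injective.eq_iff.1 (sub_eq_zero.1 h5) ▸ rfl

omit [MeasurableSpace K] [BorelSpace K] in
/-- PROOF. Two different characters have distance at least `1` in `C(K, ℂ)` (a character `≠ 1` takes a value with
real part `≤ 0`, or: `int_conj_ch` for the Haar measure), and `C(K, ℂ)` is separable. -/
theorem countable_dual : Countable (PontryaginDual K) := by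
  let f : PontryaginDual K → C(K, ℂ) := fun χ => ⟨ch χ, continuous_ch χ⟩
  refine Pairwise.countable_of_isOpen_disjoint (s := fun χ => Metric.ball (f χ) (1 / 2)) ?_
    (fun χ => Metric.isOpen_ball) (fun χ => ⟨f χ, Metric.mem_ball_self (by norm_num)⟩)
  intro χ ψ h
  obtain ⟨y, hy⟩ := b4_dist h
  refine Metric.ball_disjoint_ball ?_
  have h1 : ‖ch χ y - ch ψ y‖ ≤ dist (f χ) (f ψ) := by
    rw [← dist_eq_norm]
    exact ContinuousMap.dist_apply_le_dist (f := f χ) (g := f ψ) y
  linarith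
-- END b4

-- BEGIN b5
omit [IsTopologicalGroup K] [CompactSpace K] [T2Space K] [SecondCountableTopology K]
  [MeasurableSpace K] [BorelSpace K] in
private theorem b5_one : (1 : C(K, Circle)) ∈ Set.range
    (fun χ : PontryaginDual K => (ContinuousMonoidHom.toContinuousMap χ : C(K, Circle))) :=
  ⟨1, by ext y; rfl⟩

omit [IsTopologicalGroup K] [CompactSpace K] [T2Space K] [SecondCountableTopology K]
  [MeasurableSpace K] [BorelSpace K] in
private theorem b5_mul : ∀ f ∈ Set.range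
      (fun χ : PontryaginDual K => (ContinuousMonoidHom.toContinuousMap χ : C(K, Circle))),
    ∀ g ∈ Set.range
      (fun χ : PontryaginDual K => (ContinuousMonoidHom.toContinuousMap χ : C(K, Circle))),
    f * g ∈ Set.range
      (fun χ : PontryaginDual K => (ContinuousMonoidHom.toContinuousMap χ : C(K, Circle))) := by
  rintro f ⟨χ, rfl⟩ g ⟨ψ, rfl⟩
  exact ⟨χ * ψ, by ext y; rfl⟩

omit [IsTopologicalGroup K] [CompactSpace K] [T2Space K] [SecondCountableTopology K]
  [MeasurableSpace K] [BorelSpace K] in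
private theorem b5_inv : ∀ f ∈ Set.range
      (fun χ : PontryaginDual K => (ContinuousMonoidHom.toContinuousMap χ : C(K, Circle))),
    f⁻¹ ∈ Set.range
      (fun χ : PontryaginDual K => (ContinuousMonoidHom.toContinuousMap χ : C(K, Circle))) := by
  rintro f ⟨χ, rfl⟩
  exact ⟨χ⁻¹, by ext y; rfl⟩

omit [IsTopologicalGroup K] [CompactSpace K] [T2Space K] [SecondCountableTopology K]
  [MeasurableSpace K] [BorelSpace K] in
private theorem b5_sep (sep : ∀ x : K, (∀ χ : PontryaginDual K, χ x = 1) → x = 1) :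
    ∀ x y : K, (∀ f ∈ Set.range
      (fun χ : PontryaginDual K => (ContinuousMonoidHom.toContinuousMap χ : C(K, Circle))),
      f x = f y) → x = y := by
  intro x y h
  have h1 : x * y⁻¹ = 1 := by
    refine sep _ fun χ => ?_
    have h2 : χ x = χ y := h _ ⟨χ, rfl⟩
    rw [map_mul, map_inv, h2, mul_inv_cancel]
  exact mul_inv_eq_one.mp h1

/-- The uniqueness theorem for Fourier coefficients: `ext_sw`. -/
theorem ext_ch (sep : ∀ x : K, (∀ χ : PontryaginDual K, χ x = 1) → x = 1) {μ ν : Measure K}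
    [IsFiniteMeasure μ] [IsFiniteMeasure ν]
    (h : ∀ χ : PontryaginDual K, ∫ y, ch χ y ∂μ = ∫ y, ch χ y ∂ν) : μ = ν := by
  refine ext_sw _ b5_one b5_mul b5_inv (b5_sep sep) ?_
  rintro f ⟨χ, rfl⟩
  exact h χ

/-- `tendsto_sw` -/
theorem tendsto_ch (sep : ∀ x : K, (∀ χ : PontryaginDual K, χ x = 1) → x = 1) {ι : Type*}
    {l : Filter ι} (μ : ι → Measure K) (hμ : ∀ i, IsProbabilityMeasure (μ i)) (ν : Measure K)
    [IsProbabilityMeasure ν]
    (h : ∀ χ : PontryaginDual K, Tendsto (fun i => ∫ y, ch χ y ∂μ i) l (𝓝 (∫ y, ch χ y ∂ν)))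
    (F : C(K, ℂ)) : Tendsto (fun i => ∫ y, F y ∂μ i) l (𝓝 (∫ y, F y ∂ν)) := by
  refine tendsto_sw _ b5_one b5_mul b5_inv (b5_sep sep) μ hμ ν ?_ F
  rintro f ⟨χ, rfl⟩
  exact h χ
-- END b5

-- BEGIN b6
omit [CommGroup K] [TopologicalSpace K] [IsTopologicalGroup K] [CompactSpace K] [T2Space K]
  [SecondCountableTopology K] [BorelSpace K] [m.IsHaarMeasure] in
private theorem b6_sq {H : Type*} [NormedAddCommGroup H] [InnerProductSpace ℂ H]
    {G : K → H} (hG : MemLp G 2 m) : Integrable (fun y => ‖G y‖ ^ 2) m :=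
  (memLp_two_iff_integrable_sq_norm hG.1).1 hG

omit [CommGroup K] [TopologicalSpace K] [IsTopologicalGroup K] [CompactSpace K] [T2Space K]
  [SecondCountableTopology K] [BorelSpace K] [m.IsHaarMeasure] in
private theorem b6_one {H : Type*} [NormedAddCommGroup H] [InnerProductSpace ℂ H]
    [CompleteSpace H] {g : K → H} (hg : MemLp g 2 m) (v : H) :
    ∫ y, ‖g y - v‖ ^ 2 ∂m
      = ∫ y, ‖g y‖ ^ 2 ∂m - ‖∫ y, g y ∂m‖ ^ 2 + ‖(∫ y, g y ∂m) - v‖ ^ 2 := by
  have hi : Integrable g m := hg.integrable (by norm_num)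
  have h1 : ∀ y, ‖g y - v‖ ^ 2 = ‖g y‖ ^ 2 - 2 * RCLike.re (inner ℂ v (g y)) + ‖v‖ ^ 2 := by
    intro y
    rw [@norm_sub_sq ℂ, inner_re_symm]
  have h2 : Integrable (fun y => inner ℂ v (g y)) m := hi.const_inner v
  have h3 : ∫ y, RCLike.re (inner ℂ v (g y)) ∂m = RCLike.re (inner ℂ v (∫ y, g y ∂m)) := by
    rw [integral_re h2, integral_inner hi]
  have h4 : Integrable (fun y => RCLike.re (inner ℂ v (g y))) m := h2.re
  simp_rw [h1]
  have e1 : ∫ y, (‖g y‖ ^ 2 - 2 * RCLike.re (inner ℂ v (g y)) + ‖v‖ ^ 2) ∂m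
      = ∫ y, (‖g y‖ ^ 2 - 2 * RCLike.re (inner ℂ v (g y))) ∂m + ∫ _y, ‖v‖ ^ 2 ∂m :=
    integral_add (f := fun y => ‖g y‖ ^ 2 - 2 * RCLike.re (inner ℂ v (g y)))
      (g := fun _ => ‖v‖ ^ 2) ((b6_sq m hg).sub (h4.const_mul 2)) (integrable_const _)
  have e2 : ∫ y, (‖g y‖ ^ 2 - 2 * RCLike.re (inner ℂ v (g y))) ∂m
      = ∫ y, ‖g y‖ ^ 2 ∂m - ∫ y, 2 * RCLike.re (inner ℂ v (g y)) ∂m :=
    integral_sub (f := fun y => ‖g y‖ ^ 2) (g := fun y => 2 * RCLike.re (inner ℂ v (g y)))
      (b6_sq m hg) (h4.const_mul 2)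
  rw [e1, e2, integral_const_mul, h3]
  rw [@norm_sub_sq ℂ _ _ _ _ (∫ y, g y ∂m) v, inner_re_symm (∫ y, g y ∂m) v]
  simp
  ring

omit [IsTopologicalGroup K] [T2Space K] [m.IsHaarMeasure] in
private theorem b6_tp {H : Type*} [NormedAddCommGroup H] [InnerProductSpace ℂ H]
    (s : Finset (PontryaginDual K)) (v : PontryaginDual K → H) : MemLp (tp s v) 2 m := by
  have hc : Continuous (tp s v : K → H) := by
    unfold tp
    exact continuous_finsetSum _ fun χ _ => (continuous_ch χ).smul continuous_const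
  refine MemLp.of_bound hc.aestronglyMeasurable (∑ χ ∈ s, ‖v χ‖) (Eventually.of_forall fun y => ?_)
  unfold tp
  refine (norm_sum_le _ _).trans (le_of_eq (Finset.sum_congr rfl fun χ _ => ?_))
  rw [norm_smul, norm_ch, one_mul]

omit [IsTopologicalGroup K] [CompactSpace K] [T2Space K] [m.IsHaarMeasure]
  [IsProbabilityMeasure m] in
private theorem b6_conj {H : Type*} [NormedAddCommGroup H] [InnerProductSpace ℂ H]
    {G : K → H} (hG : MemLp G 2 m) (χ : PontryaginDual K) :
    MemLp (fun y => (starRingEnd ℂ) (ch χ y) • G y) 2 m := by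
  refine hG.of_le ?_ (Eventually.of_forall fun y => ?_)
  · exact ((Complex.continuous_conj.comp (continuous_ch χ)).aestronglyMeasurable).smul hG.1
  · rw [norm_smul, RCLike.norm_conj, norm_ch, one_mul]

private theorem b6_step {H : Type*} [NormedAddCommGroup H] [InnerProductSpace ℂ H]
    [CompleteSpace H] {G : K → H} (hG : MemLp G 2 m) (χ : PontryaginDual K) (v : H) :
    ∫ y, ‖G y - ch χ y • v‖ ^ 2 ∂m
      = ∫ y, ‖G y‖ ^ 2 ∂m - ‖∫ y, (starRingEnd ℂ) (ch χ y) • G y ∂m‖ ^ 2
        + ‖(∫ y, (starRingEnd ℂ) (ch χ y) • G y ∂m) - v‖ ^ 2 := by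
  have h := b6_one m (b6_conj m hG χ) v
  have hu : ∀ y, (starRingEnd ℂ) (ch χ y) * ch χ y = 1 := by
    intro y
    rw [mul_comm, RCLike.mul_conj, norm_ch]
    simp
  have e1 : ∀ y, ‖(starRingEnd ℂ) (ch χ y) • G y - v‖ = ‖G y - ch χ y • v‖ := by
    intro y
    have : (starRingEnd ℂ) (ch χ y) • G y - v
        = (starRingEnd ℂ) (ch χ y) • (G y - ch χ y • v) := by
      rw [smul_sub, smul_smul, hu, one_smul]
    rw [this, norm_smul, RCLike.norm_conj, norm_ch, one_mul]
  have e2 : ∀ y, ‖(starRingEnd ℂ) (ch χ y) • G y‖ = ‖G y‖ := by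
    intro y
    rw [norm_smul, RCLike.norm_conj, norm_ch, one_mul]
  simp_rw [e1, e2] at h
  exact h

private theorem b6_coef {H : Type*} [NormedAddCommGroup H] [InnerProductSpace ℂ H]
    [CompleteSpace H] {F : K → H} (hF : MemLp F 2 m) (s : Finset (PontryaginDual K))
    (v : PontryaginDual K → H) {χ : PontryaginDual K} (hχ : χ ∉ s) :
    ∫ y, (starRingEnd ℂ) (ch χ y) • (F y - tp s v y) ∂m
      = ∫ y, (starRingEnd ℂ) (ch χ y) • F y ∂m := by
  classical
  have i1 : Integrable (fun y => (starRingEnd ℂ) (ch χ y) • F y) m :=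
    (b6_conj m hF χ).integrable (by norm_num)
  have i2 : Integrable (fun y => (starRingEnd ℂ) (ch χ y) • tp s v y) m :=
    (b6_conj m (b6_tp m s v) χ).integrable (by norm_num)
  simp_rw [smul_sub]
  rw [integral_sub i1 i2]
  have h0 : ∫ y, (starRingEnd ℂ) (ch χ y) • tp s v y ∂m = 0 := by
    have e : ∀ y, (starRingEnd ℂ) (ch χ y) • tp s v y
        = ∑ ψ ∈ s, ((starRingEnd ℂ) (ch χ y) * ch ψ y) • v ψ := by
      intro y
      unfold tp
      rw [Finset.smul_sum]
      exact Finset.sum_congr rfl fun ψ _ => by rw [smul_smul]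
    simp_rw [e]
    rw [integral_finsetSum]
    · refine Finset.sum_eq_zero fun ψ hψ => ?_
      rw [integral_smul_const, int_conj_ch m χ ψ, if_neg (fun hh : χ = ψ => hχ (hh ▸ hψ)), zero_smul]
    · intro ψ _
      have hc : Continuous fun y : K => ((starRingEnd ℂ) (ch χ y) * ch ψ y) • v ψ :=
        ((Complex.continuous_conj.comp (continuous_ch χ)).mul (continuous_ch ψ)).smul
          continuous_const
      refine Integrable.of_bound hc.aestronglyMeasurable ‖v ψ‖ (Eventually.of_forall fun y => ?_)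
      rw [norm_smul, norm_mul, RCLike.norm_conj, norm_ch, norm_ch, one_mul, one_mul]
  rw [h0, sub_zero]

private theorem b6_all {H : Type*} [NormedAddCommGroup H] [InnerProductSpace ℂ H]
    [CompleteSpace H] {F : K → H} (hF : MemLp F 2 m) (s : Finset (PontryaginDual K))
    (v : PontryaginDual K → H) :
    ∫ y, ‖F y - tp s v y‖ ^ 2 ∂m
      = ∫ y, ‖F y‖ ^ 2 ∂m - ∑ χ ∈ s, ‖∫ y, (starRingEnd ℂ) (ch χ y) • F y ∂m‖ ^ 2
        + ∑ χ ∈ s, ‖(∫ y, (starRingEnd ℂ) (ch χ y) • F y ∂m) - v χ‖ ^ 2 := by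
  classical
  induction s using Finset.induction_on with
  | empty => simp [tp]
  | insert χ s hχ ih =>
    have hG : MemLp (fun y => F y - tp s v y) 2 m := hF.sub (b6_tp m s v)
    have e : ∀ y, F y - tp (insert χ s) v y = (F y - tp s v y) - ch χ y • v χ := by
      intro y
      unfold tp
      rw [Finset.sum_insert hχ]
      abel
    simp_rw [e]
    rw [b6_step m hG χ (v χ), ih, b6_coef m hF s v hχ, Finset.sum_insert hχ,
      Finset.sum_insert hχ]
    ring

/-- PARSEVAL for functions with values in a Hilbert space. PROOF. For trigonometric polynomials: orthogonality. In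
general: `∑_{χ ∈ s} ‖c χ‖² ≤ ∫ ‖F‖²` (Bessel), and density (`tp_dense_L2`). -/
theorem parseval (sep : ∀ x : K, (∀ χ : PontryaginDual K, χ x = 1) → x = 1) {H : Type*}
    [NormedAddCommGroup H] [InnerProductSpace ℂ H] [CompleteSpace H] {F : K → H}
    (hF : MemLp F 2 m) :
    HasSum (fun χ : PontryaginDual K => ‖∫ y, (starRingEnd ℂ) (ch χ y) • F y ∂m‖ ^ 2)
      (∫ y, ‖F y‖ ^ 2 ∂m) := by
  refine hasSum_of_isLUB_of_nonneg _ (fun χ => by positivity) ⟨?_, ?_⟩
  · rintro _ ⟨s, rfl⟩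
    have h := b6_all m hF s (fun χ => ∫ y, (starRingEnd ℂ) (ch χ y) • F y ∂m)
    have h0 : 0 ≤ ∫ y, ‖F y - tp s (fun χ => ∫ y, (starRingEnd ℂ) (ch χ y) • F y ∂m) y‖ ^ 2 ∂m :=
      integral_nonneg fun y => by positivity
    simp only [sub_self, norm_zero] at h
    simp only [ne_eq, OfNat.ofNat_ne_zero, not_false_eq_true, zero_pow, Finset.sum_const_zero,
      add_zero] at h
    simp only
    linarith
  · intro b hb
    refine le_of_forall_pos_le_add fun ε hε => ?_
    obtain ⟨s, v, hs⟩ := tp_dense_L2 m sep hF (ε := ENNReal.ofReal (Real.sqrt ε))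
      (by simpa using hε)
    have hG : MemLp (fun y => F y - tp s v y) 2 m := hF.sub (b6_tp m s v)
    have h1 : ∫ y, ‖F y - tp s v y‖ ^ 2 ∂m ≤ ε := by
      rw [hG.eLpNorm_eq_integral_rpow_norm (by norm_num) (by norm_num)] at hs
      have h2 := (ENNReal.ofReal_le_ofReal_iff (Real.sqrt_nonneg ε)).1 hs
      have e3 : ∫ y, ‖F y - tp s v y‖ ^ (2 : ℝ≥0∞).toReal ∂m = ∫ y, ‖F y - tp s v y‖ ^ 2 ∂m := by
        refine integral_congr_ae (Eventually.of_forall fun y => ?_)
        simp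
      rw [e3] at h2
      have e4 : (∫ y, ‖F y - tp s v y‖ ^ 2 ∂m) ^ ((2 : ℝ≥0∞).toReal⁻¹)
          = Real.sqrt (∫ y, ‖F y - tp s v y‖ ^ 2 ∂m) := by
        rw [Real.sqrt_eq_rpow]
        norm_num
      rw [e4] at h2
      exact (Real.sqrt_le_sqrt_iff hε.le).1 h2
    have h2 := b6_all m hF s v
    have h3 : 0 ≤ ∑ χ ∈ s, ‖(∫ y, (starRingEnd ℂ) (ch χ y) • F y ∂m) - v χ‖ ^ 2 :=
      Finset.sum_nonneg fun χ _ => by positivity
    have h4 := hb ⟨s, rfl⟩
    simp only at h4
    linarith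
-- END b6

-- BEGIN b7
omit [IsTopologicalGroup K] [CompactSpace K] [T2Space K] [m.IsHaarMeasure] in
private theorem b7_memLp {H : Type*} [NormedAddCommGroup H] [InnerProductSpace ℂ H]
    (χ : PontryaginDual K) (w : H) : MemLp (fun y : K => ch χ y • w) 2 m := by
  refine MemLp.of_bound (C := ‖w‖) ?_ ?_
  · exact ((continuous_ch χ).smul continuous_const).aestronglyMeasurable
  · exact Eventually.of_forall fun y => by rw [norm_smul, norm_ch, one_mul]

private theorem b7_inner {H : Type*} [NormedAddCommGroup H] [InnerProductSpace ℂ H]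
    [CompleteSpace H] (χ : PontryaginDual K) (w : H) (G : Lp H 2 m) :
    inner ℂ ((b7_memLp m χ w).toLp (fun y : K => ch χ y • w)) G =
      inner ℂ w (∫ y, (starRingEnd ℂ) (ch χ y) • G y ∂m) := by
  have hi : Integrable (fun y => (starRingEnd ℂ) (ch χ y) • G y) m := by
    have hG : Integrable G m := (Lp.memLp G).integrable (by norm_num)
    refine hG.bdd_smul 1 ?_ ?_
    · exact (Complex.continuous_conj.comp (continuous_ch χ)).aestronglyMeasurable
    · exact Eventually.of_forall fun y => by simp [norm_ch]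
  rw [← integral_inner hi, MeasureTheory.L2.inner_def]
  refine integral_congr_ae ?_
  filter_upwards [(b7_memLp m χ w).coeFn_toLp] with y hy
  rw [hy, inner_smul_left, inner_smul_right]

private theorem b7_coef {H : Type*} [NormedAddCommGroup H] [InnerProductSpace ℂ H]
    [CompleteSpace H] (χ ψ : PontryaginDual K) (w : H) [Decidable (χ = ψ)] :
    ∫ y, (starRingEnd ℂ) (ch χ y) • ((b7_memLp m ψ w).toLp (fun y : K => ch ψ y • w) : K → H) y ∂m =
      (if χ = ψ then (1 : ℂ) else 0) • w := by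
  rw [← int_conj_ch m χ ψ, ← integral_smul_const]
  refine integral_congr_ae ?_
  filter_upwards [(b7_memLp m ψ w).coeFn_toLp] with y hy
  rw [hy, smul_smul]

/-- RIESZ-FISCHER. PROOF. The sums `∑_{χ ∈ s} ch χ • v χ` are Cauchy in `Lp H 2 m`. -/
theorem riesz_fischer {H : Type*} [NormedAddCommGroup H] [InnerProductSpace ℂ H] [CompleteSpace H]
    (v : PontryaginDual K → H) (hv : Summable fun χ => ‖v χ‖ ^ 2) :
    ∃ F : K → H, StronglyMeasurable F ∧ MemLp F 2 m ∧
      ∀ χ : PontryaginDual K, ∫ y, (starRingEnd ℂ) (ch χ y) • F y ∂m = v χ := by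
  classical
  let V0 : PontryaginDual K → (H →ₗ[ℂ] Lp H 2 m) := fun χ =>
    { toFun := fun w => (b7_memLp m χ w).toLp (fun y : K => ch χ y • w)
      map_add' := fun a b => by
        rw [← MemLp.toLp_add]
        refine MemLp.toLp_congr _ _ (Eventually.of_forall fun y => ?_)
        simp [smul_add]
      map_smul' := fun c a => by
        rw [RingHom.id_apply, ← MemLp.toLp_const_smul]
        refine MemLp.toLp_congr _ _ (Eventually.of_forall fun y => ?_)
        exact smul_comm _ _ _ }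
  have hin : ∀ χ ψ a b, inner ℂ (V0 χ a) (V0 ψ b) = (if χ = ψ then (1 : ℂ) else 0) * inner ℂ a b := by
    intro χ ψ a b
    show inner ℂ ((b7_memLp m χ a).toLp (fun y : K => ch χ y • a))
      ((b7_memLp m ψ b).toLp (fun y : K => ch ψ y • b)) = _
    rw [b7_inner, b7_coef, inner_smul_right]
  let V : PontryaginDual K → (H →ₗᵢ[ℂ] Lp H 2 m) := fun χ =>
    (V0 χ).isometryOfInner (fun a b => by rw [hin, if_pos rfl, one_mul])
  have hV : OrthogonalFamily ℂ (fun _ : PontryaginDual K => H) V := by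
    intro χ ψ h a b
    show inner ℂ (V0 χ a) (V0 ψ b) = 0
    rw [hin, if_neg h, zero_mul]
  have hs : Summable fun χ => V χ (v χ) := (hV.summable_iff_norm_sq_summable v).2 hv
  set F : Lp H 2 m := ∑' χ, V χ (v χ) with hF
  refine ⟨F, Lp.stronglyMeasurable F, Lp.memLp F, fun χ => ?_⟩
  refine ext_inner_left ℂ fun w => ?_
  rw [← b7_inner]
  have h1 : HasSum (fun ψ => inner ℂ (V0 χ w) (V ψ (v ψ))) (inner ℂ (V0 χ w) F) :=
    (innerSL ℂ (V0 χ w)).hasSum hs.hasSum
  have h2 : HasSum (fun ψ => inner ℂ (V0 χ w) (V ψ (v ψ))) (inner ℂ (V0 χ w) (V χ (v χ))) := by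
    refine hasSum_single χ fun ψ hψ => ?_
    show inner ℂ (V0 χ w) (V0 ψ (v ψ)) = 0
    rw [hin, if_neg (Ne.symm hψ), zero_mul]
  have h3 := h1.unique h2
  show inner ℂ (V0 χ w) F = _
  rw [h3]
  show inner ℂ (V0 χ w) (V0 χ (v χ)) = _
  rw [hin, if_pos rfl, one_mul]
-- END b7

-- BEGIN b8
open scoped Pointwise in
private theorem b8_nhds {G : Type*} [CommGroup G] [TopologicalSpace G] [IsTopologicalGroup G]
    {C U : Set G} (hC : IsCompact C) (hU : IsOpen U) (hCU : C ⊆ U) :
    ∃ W ∈ 𝓝 (1 : G), ∀ w ∈ W, ∀ y ∈ C, w * y ∈ U := by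
  obtain ⟨W, hW, hWC⟩ := compact_open_separated_mul_left hC hU hCU
  exact ⟨W, hW, fun w hw y hy => hWC (Set.mul_mem_mul hw hy)⟩

/-- PROOF. Density of the continuous functions in `L¹` (or `tp_dense_L2` for the indicator function), uniform
continuity. -/
theorem tendsto_symmDiff {F : Set K} (hF : MeasurableSet F) :
    Tendsto (fun w : K => m (symmDiff {y | w * y ∈ F} F)) (𝓝 1) (𝓝 0) := by
  rw [ENNReal.tendsto_nhds_zero]
  intro ε hε
  have h4 : ε / 4 ≠ 0 := by
    simp [hε.ne']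
  obtain ⟨U, hFU, hU, -, hUm⟩ := hF.exists_isOpen_sdiff_lt (measure_ne_top m F) h4
  obtain ⟨C, hCF, hC, hCm⟩ := hF.exists_isClosed_sdiff_lt (measure_ne_top m F) h4
  obtain ⟨W, hW, hWC⟩ := b8_nhds hC.isCompact hU (hCF.trans hFU)
  have hW' : ∀ᶠ w in 𝓝 (1 : K), w⁻¹ ∈ W := by
    have h := continuous_inv.tendsto (1 : K)
    rw [inv_one] at h
    exact h hW
  filter_upwards [hW, hW'] with w h1 h2
  have key : symmDiff {y | w * y ∈ F} F ⊆
      ((fun y => w * y) ⁻¹' (U \ F) ∪ (F \ C)) ∪ ((U \ F) ∪ (fun y => w * y) ⁻¹' (F \ C)) := by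
    intro y hy
    rcases hy with ⟨ha, hb⟩ | ⟨ha, hb⟩
    · right
      by_cases hc : w * y ∈ C
      · left
        refine ⟨?_, hb⟩
        have h3 := hWC _ h2 _ hc
        rwa [inv_mul_cancel_left] at h3
      · right
        exact ⟨ha, hc⟩
    · left
      by_cases hc : y ∈ C
      · left
        exact ⟨hWC _ h1 _ hc, hb⟩
      · right
        exact ⟨ha, hc⟩
  have e1 : m ((fun y => w * y) ⁻¹' (U \ F)) = m (U \ F) := measure_preimage_mul m w _
  have e2 : m ((fun y => w * y) ⁻¹' (F \ C)) = m (F \ C) := measure_preimage_mul m w _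
  calc m (symmDiff {y | w * y ∈ F} F)
      ≤ (m ((fun y => w * y) ⁻¹' (U \ F)) + m (F \ C)) +
        (m (U \ F) + m ((fun y => w * y) ⁻¹' (F \ C))) :=
        (measure_mono key).trans ((measure_union_le _ _).trans
          (add_le_add (measure_union_le _ _) (measure_union_le _ _)))
    _ ≤ (ε / 4 + ε / 4) + (ε / 4 + ε / 4) := by
        rw [e1, e2]
        exact add_le_add (add_le_add hUm.le hCm.le) (add_le_add hUm.le hCm.le)
    _ = ε := by
        rw [← ENNReal.add_halves ε]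
        have : ∀ x : ℝ≥0∞, x / 4 + x / 4 + (x / 4 + x / 4) = x := fun x => by
          rw [← two_mul, ← two_mul, ← mul_assoc]
          norm_num
          rw [ENNReal.mul_div_cancel (by norm_num) (by norm_num)]
        rw [this]
-- END b8

end group

end Pool.Agent.S7K
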