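import Pool.Agent.S7K.K1

/-!
# S7, block K, part 2: the rotation by `u` is uniquely ergodic
-/

set_option autoImplicit false

namespace Pool.Agent.S7K

open MeasureTheory Filter Topology
open scoped ENNReal

variable {K : Type*} [CommGroup K] [TopologicalSpace K] [IsTopologicalGroup K] [CompactSpace K]
  [T2Space K] [SecondCountableTopology K] [MeasurableSpace K] [BorelSpace K]
  (m : Measure K) [m.IsHaarMeasure] [IsProbabilityMeasure m] {u : K}

-- BEGIN c1
omit [IsTopologicalGroup K] [CompactSpace K] [T2Space K] [SecondCountableTopology K]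
  [MeasurableSpace K] [BorelSpace K] in
private theorem c1_pow (χ : PontryaginDual K) (n : ℕ) (y : K) :
    ch χ (u ^ n * y) = (ch χ u) ^ n * ch χ y := by
  rw [ch_mul]
  congr 1
  unfold ch
  rw [map_pow, Circle.coe_pow]

private theorem c1_geom (z : ℂ) (hz : ‖z‖ = 1) (hz1 : z ≠ 1) (N : ℕ) :
    ‖∑ n ∈ Finset.range N, z ^ n‖ ≤ 2 / ‖z - 1‖ := by
  have h0 : 0 < ‖z - 1‖ := norm_pos_iff.mpr (sub_ne_zero.mpr hz1)
  rw [le_div_iff₀ h0, ← norm_mul, geom_sum_mul]
  refine le_trans (norm_sub_le _ _) ?_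
  rw [norm_pow, hz, one_pow, norm_one]
  norm_num

private theorem c1_coef (m : Measure K) [m.IsHaarMeasure] [IsProbabilityMeasure m]
    (den : ∀ χ : PontryaginDual K, χ u = 1 → χ = 1) (χ : PontryaginDual K)
    {N : ℕ} (hN : 1 ≤ N) (y : K) :
    ‖((N : ℂ))⁻¹ * ∑ n ∈ Finset.range N, ch χ (u ^ n * y) - ∫ x, ch χ x ∂m‖ ≤
      (N : ℝ)⁻¹ * (2 / ‖ch χ u - 1‖) := by
  have hN0 : (N : ℂ) ≠ 0 := by
    have : N ≠ 0 := by omega
    exact_mod_cast this
  by_cases h1 : χ = 1
  · subst h1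
    rw [int_ch_one]
    have h2 : ∑ n ∈ Finset.range N, ch (1 : PontryaginDual K) (u ^ n * y) = (N : ℂ) := by
      rw [Finset.sum_congr rfl fun n _ => one_ch (u ^ n * y)]
      simp
    rw [h2, inv_mul_cancel₀ hN0, sub_self, norm_zero, one_ch, sub_self, norm_zero, div_zero,
      mul_zero]
  · have hz1 : ch χ u ≠ 1 := by
      intro h
      refine h1 (den χ ?_)
      unfold ch at h
      exact Circle.coe_eq_one.mp h
    rw [int_ch m h1, sub_zero]
    have h2 : ∑ n ∈ Finset.range N, ch χ (u ^ n * y) =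
        (∑ n ∈ Finset.range N, (ch χ u) ^ n) * ch χ y := by
      rw [Finset.sum_mul]
      exact Finset.sum_congr rfl fun n _ => c1_pow χ n y
    rw [h2, norm_mul, norm_mul, norm_ch, mul_one, norm_inv, Complex.norm_natCast]
    exact mul_le_mul_of_nonneg_left (c1_geom _ (norm_ch χ u) hz1 N) (by positivity)

private theorem c1_avg {V : Type*} [NormedAddCommGroup V] [NormedSpace ℂ V] (G : ℕ → V) {δ : ℝ}
    (hδ : 0 ≤ δ) (hG : ∀ n, ‖G n‖ ≤ δ) (N : ℕ) :
    ‖((N : ℂ))⁻¹ • ∑ n ∈ Finset.range N, G n‖ ≤ δ := by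
  rcases Nat.eq_zero_or_pos N with h | h
  · subst h
    simpa using hδ
  · have hN : (0 : ℝ) < N := by exact_mod_cast h
    rw [norm_smul, norm_inv, Complex.norm_natCast]
    calc (N : ℝ)⁻¹ * ‖∑ n ∈ Finset.range N, G n‖ ≤ (N : ℝ)⁻¹ * ((N : ℝ) * δ) := by
          refine mul_le_mul_of_nonneg_left ?_ (by positivity)
          refine le_trans (norm_sum_le_of_le _ fun n _ => hG n) ?_
          rw [Finset.sum_const, Finset.card_range, nsmul_eq_mul]
      _ = δ := by field_simp

/-- PROOF. `tp_dense`; for `χ ≠ 1` the sum over `n < N` is geometric, bounded by `2 / |χ u - 1|`. -/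
theorem unif_erg (sep : ∀ x : K, (∀ χ : PontryaginDual K, χ x = 1) → x = 1)
    (den : ∀ χ : PontryaginDual K, χ u = 1 → χ = 1) {V : Type*} [NormedAddCommGroup V]
    [NormedSpace ℂ V] [CompleteSpace V] (F : C(K, V)) {ε : ℝ} (hε : 0 < ε) :
    ∃ N0 : ℕ, ∀ N, N0 ≤ N → ∀ y,
      ‖((N : ℂ))⁻¹ • ∑ n ∈ Finset.range N, F (u ^ n * y) - ∫ x, F x ∂m‖ ≤ ε := by
  obtain ⟨s, v, hsv⟩ := tp_dense sep F (ε := ε / 4) (by positivity)
  set D : ℝ := ∑ χ ∈ s, (2 / ‖ch χ u - 1‖) * ‖v χ‖ with hD
  have hD0 : 0 ≤ D := Finset.sum_nonneg fun χ _ => by positivity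
  obtain ⟨N0, hN0⟩ := exists_nat_gt (D / (ε / 4))
  refine ⟨N0 + 1, fun N hN y => ?_⟩
  have hN1 : 1 ≤ N := by omega
  have hNpos : (0 : ℝ) < N := by exact_mod_cast hN1
  -- integrability
  have hcF : Integrable (fun x => F x) m :=
    F.continuous.integrable_of_hasCompactSupport (HasCompactSupport.of_compactSpace _)
  have hct : Continuous (tp s v) := by
    unfold tp
    exact continuous_finsetSum _ fun χ _ => (continuous_ch χ).smul continuous_const
  have hit : Integrable (tp s v) m :=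
    hct.integrable_of_hasCompactSupport (HasCompactSupport.of_compactSpace _)
  have h1 : ‖∫ x, tp s v x ∂m - ∫ x, F x ∂m‖ ≤ ε / 4 := by
    rw [← integral_sub hit hcF]
    refine le_trans (norm_integral_le_of_norm_le_const (C := ε / 4)
      (Filter.Eventually.of_forall fun x => ?_)) ?_
    · rw [norm_sub_rev]; exact hsv x
    · rw [probReal_univ, mul_one]
  have h2 : ‖((N : ℂ))⁻¹ • ∑ n ∈ Finset.range N, (F (u ^ n * y) - tp s v (u ^ n * y))‖ ≤ ε / 4 :=
    c1_avg _ (by positivity) (fun n => hsv _) N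
  have h3 : ‖((N : ℂ))⁻¹ • ∑ n ∈ Finset.range N, tp s v (u ^ n * y) - ∫ x, tp s v x ∂m‖ ≤
      ε / 4 := by
    have h4 : ((N : ℂ))⁻¹ • ∑ n ∈ Finset.range N, tp s v (u ^ n * y) - ∫ x, tp s v x ∂m =
        ∑ χ ∈ s, (((N : ℂ))⁻¹ * ∑ n ∈ Finset.range N, ch χ (u ^ n * y) -
          ∫ x, ch χ x ∂m) • v χ := by
      have h5 : ∫ x, tp s v x ∂m = ∑ χ ∈ s, (∫ x, ch χ x ∂m) • v χ := by
        unfold tp
        rw [integral_finsetSum _ fun χ _ => ?_]
        · exact Finset.sum_congr rfl fun χ _ => integral_smul_const _ _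
        · exact ((continuous_ch χ).smul continuous_const).integrable_of_hasCompactSupport
            (HasCompactSupport.of_compactSpace _)
      rw [h5]
      unfold tp
      rw [Finset.sum_comm, Finset.smul_sum, ← Finset.sum_sub_distrib]
      refine Finset.sum_congr rfl fun χ _ => ?_
      rw [sub_smul, ← Finset.sum_smul, smul_smul]
    rw [h4]
    refine le_trans (norm_sum_le_of_le _ (n := fun χ => (N : ℝ)⁻¹ * (2 / ‖ch χ u - 1‖) * ‖v χ‖)
      fun χ _ => ?_) ?_
    · rw [norm_smul]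
      exact mul_le_mul_of_nonneg_right (c1_coef m den χ hN1 y) (norm_nonneg _)
    · have h6 : ∑ χ ∈ s, (N : ℝ)⁻¹ * (2 / ‖ch χ u - 1‖) * ‖v χ‖ = (N : ℝ)⁻¹ * D := by
        rw [hD, Finset.mul_sum]
        exact Finset.sum_congr rfl fun χ _ => by ring
      rw [h6]
      have h7 : (N0 : ℝ) ≤ N := by
        have : N0 ≤ N := by omega
        exact_mod_cast this
      have h8 : D / (ε / 4) < N := lt_of_lt_of_le hN0 h7
      rw [div_lt_iff₀ (by positivity)] at h8
      rw [inv_mul_le_iff₀ hNpos]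
      exact h8.le
  have h9 : ((N : ℂ))⁻¹ • ∑ n ∈ Finset.range N, F (u ^ n * y) - ∫ x, F x ∂m =
      ((N : ℂ))⁻¹ • ∑ n ∈ Finset.range N, (F (u ^ n * y) - tp s v (u ^ n * y)) +
      (((N : ℂ))⁻¹ • ∑ n ∈ Finset.range N, tp s v (u ^ n * y) - ∫ x, tp s v x ∂m) +
      (∫ x, tp s v x ∂m - ∫ x, F x ∂m) := by
    rw [Finset.sum_sub_distrib, smul_sub]
    abel
  rw [h9]
  refine le_trans (norm_add₃_le) ?_
  linarith
-- END c1

-- BEGIN c2
/-- PROOF. `ext_ch`: `∫ χ dν = χ(u) ∫ χ dν`. -/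
theorem unique_inv (sep : ∀ x : K, (∀ χ : PontryaginDual K, χ x = 1) → x = 1)
    (den : ∀ χ : PontryaginDual K, χ u = 1 → χ = 1) (ν : Measure K) [IsFiniteMeasure ν]
    (hν : ν.map (fun y => u * y) = ν) : ν = ν Set.univ • m := by
  have hfin : IsFiniteMeasure (ν Set.univ • m) := by
    refine ⟨?_⟩
    rw [Measure.smul_apply, smul_eq_mul, measure_univ (μ := m), mul_one]
    exact measure_lt_top ν _
  refine ext_ch sep fun χ => ?_
  by_cases hχ : χ = 1
  · subst hχ
    rw [integral_smul_measure, int_ch_one m]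
    simp only [one_ch]
    rw [integral_const, Measure.real]
  · rw [integral_smul_measure, int_ch m hχ, smul_zero]
    have h1 : ∫ y, ch χ y ∂ν = ∫ y, ch χ (u * y) ∂ν := by
      have h2 : ∫ y, ch χ y ∂(ν.map (fun y => u * y)) = ∫ y, ch χ (u * y) ∂ν :=
        integral_map (continuous_const.mul continuous_id).aemeasurable
          (continuous_ch χ).aestronglyMeasurable
      rw [hν] at h2
      exact h2
    have h3 : ∫ y, ch χ (u * y) ∂ν = ch χ u * ∫ y, ch χ y ∂ν := by
      simp only [ch_mul]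
      exact integral_const_mul _ _
    have h4 : ch χ u ≠ 1 := by
      intro hu
      refine hχ (den χ ?_)
      apply Circle.ext
      rw [Circle.coe_one]
      exact hu
    rw [h3] at h1
    have h5 : (1 - ch χ u) * ∫ y, ch χ y ∂ν = 0 := by
      rw [sub_mul, one_mul, ← h1, sub_self]
    rcases mul_eq_zero.1 h5 with h6 | h6
    · exact absurd (sub_eq_zero.1 h6).symm h4
    · exact h6
-- END c2

-- BEGIN c3
omit [MeasurableSpace K] [BorelSpace K] in
/-- PROOF. `unif_erg` with a continuous bump function and the Haar measure (or: the closure of the powers of `u` is a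
subgroup, and a character separates it from a point outside). -/
theorem dense_pow (sep : ∀ x : K, (∀ χ : PontryaginDual K, χ x = 1) → x = 1)
    (den : ∀ χ : PontryaginDual K, χ u = 1 → χ = 1) (y : K) :
    Dense (Set.range fun n : ℕ => u ^ n * y) := by
  intro z
  by_contra hz
  borelize K
  let m : Measure K := Measure.haarMeasure ⊤
  have hm : IsProbabilityMeasure m := ⟨by
    have h1 := Measure.haarMeasure_self (K₀ := (⊤ : TopologicalSpace.PositiveCompacts K))
    rwa [TopologicalSpace.PositiveCompacts.coe_top] at h1⟩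
  obtain ⟨f, hf0, hf1, hf⟩ := exists_continuous_zero_one_of_isClosed
    (isClosed_closure (s := Set.range fun n : ℕ => u ^ n * y)) (isClosed_singleton (x := z))
    (Set.disjoint_singleton_right.2 hz)
  have hfz : f z = 1 := hf1 (Set.mem_singleton z)
  have hpos : 0 < ∫ x, f x ∂m := by
    refine Continuous.integral_pos_of_hasCompactSupport_nonneg_nonzero f.continuous
      (HasCompactSupport.of_compactSpace _) (fun x => (hf x).1) (x := z) ?_
    rw [hfz]; exact one_ne_zero
  let F : C(K, ℂ) := ⟨fun x => ((f x : ℝ) : ℂ), Complex.continuous_ofReal.comp f.continuous⟩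
  obtain ⟨N0, hN⟩ := unif_erg m sep den F (half_pos hpos)
  have h1 := hN N0 le_rfl y
  have h2 : ∀ n : ℕ, F (u ^ n * y) = 0 := by
    intro n
    have h3 : f (u ^ n * y) = 0 := hf0 (subset_closure ⟨n, rfl⟩)
    show ((f (u ^ n * y) : ℝ) : ℂ) = 0
    rw [h3]; rfl
  have h4 : ∫ x, F x ∂m = ((∫ x, f x ∂m : ℝ) : ℂ) := integral_complex_ofReal
  rw [Finset.sum_eq_zero (fun n _ => h2 n), smul_zero, zero_sub, norm_neg, h4,
    Complex.norm_real, Real.norm_of_nonneg hpos.le] at h1
  linarith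
-- END c3

-- BEGIN c4
omit [CompactSpace K] [T2Space K] [SecondCountableTopology K] [IsProbabilityMeasure m] in
private theorem c4_avg {V : Type*} [NormedAddCommGroup V] [NormedSpace ℂ V] {G : K → V}
    (hG : MemLp G 2 m) (N : ℕ) :
    eLpNorm (fun y => ((N : ℂ))⁻¹ • ∑ n ∈ Finset.range N, G (u ^ n * y)) 2 m ≤
      eLpNorm G 2 m := by
  rcases Nat.eq_zero_or_pos N with h | h
  · subst h
    simp
  · have hN : (N : ℝ) ≠ 0 := by
      have : N ≠ 0 := by omega
      exact_mod_cast this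
    have h1 : (fun y => ((N : ℂ))⁻¹ • ∑ n ∈ Finset.range N, G (u ^ n * y)) =
        ((N : ℂ))⁻¹ • ∑ n ∈ Finset.range N, fun y => G (u ^ n * y) := by
      funext y
      rw [Pi.smul_apply, Finset.sum_apply]
    rw [h1, eLpNorm_const_smul]
    have hmp : ∀ n : ℕ, MeasurePreserving (fun y : K => u ^ n * y) m m := fun n =>
      measurePreserving_mul_left m (u ^ n)
    have h2 : eLpNorm (∑ n ∈ Finset.range N, fun y => G (u ^ n * y)) 2 m ≤
        ∑ n ∈ Finset.range N, eLpNorm (fun y => G (u ^ n * y)) 2 m :=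
      eLpNorm_sum_le (fun n _ => hG.aestronglyMeasurable.comp_measurePreserving (hmp n))
        (by norm_num)
    have h3 : ∀ n ∈ Finset.range N, eLpNorm (fun y => G (u ^ n * y)) 2 m = eLpNorm G 2 m :=
      fun n _ => eLpNorm_comp_measurePreserving hG.aestronglyMeasurable (hmp n)
    rw [Finset.sum_congr rfl h3, Finset.sum_const, Finset.card_range, nsmul_eq_mul] at h2
    refine le_trans (mul_le_mul_right h2 _) ?_
    rw [← mul_assoc]
    have h4 : ‖((N : ℂ))⁻¹‖ₑ * (N : ℝ≥0∞) = 1 := by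
      rw [← ofReal_norm, norm_inv, Complex.norm_natCast,
        ENNReal.ofReal_inv_of_pos (by positivity), ENNReal.ofReal_natCast]
      exact ENNReal.inv_mul_cancel (by simpa using h.ne') (ENNReal.natCast_ne_top N)
    rw [h4, one_mul]

omit [IsTopologicalGroup K] [CompactSpace K] [T2Space K] [SecondCountableTopology K]
  [MeasurableSpace K] [BorelSpace K] in
private theorem c4_ct {V : Type*} [NormedAddCommGroup V] [NormedSpace ℂ V]
    (s : Finset (PontryaginDual K)) (v : PontryaginDual K → V) : Continuous (tp s v) := by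
  unfold tp
  exact continuous_finsetSum _ fun χ _ => (continuous_ch χ).smul continuous_const

/-- Mean ergodic theorem. PROOF. `tp_dense_L2`, invariance of `m`. -/
theorem mean_erg (sep : ∀ x : K, (∀ χ : PontryaginDual K, χ x = 1) → x = 1)
    (den : ∀ χ : PontryaginDual K, χ u = 1 → χ = 1) {V : Type*} [NormedAddCommGroup V]
    [NormedSpace ℂ V] [CompleteSpace V] {F : K → V} (hF : MemLp F 2 m) :
    Tendsto (fun N : ℕ => eLpNorm (fun y => ((N : ℂ))⁻¹ • ∑ n ∈ Finset.range N, F (u ^ n * y) -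
      ∫ x, F x ∂m) 2 m) atTop (𝓝 0) := by
  rw [ENNReal.tendsto_atTop_zero]
  intro ε hε
  -- a real number `δ > 0` with `3 δ ≤ ε`
  obtain ⟨δ, hδ0, hδ⟩ : ∃ δ : ℝ, 0 < δ ∧ 3 * ENNReal.ofReal δ ≤ ε := by
    obtain ⟨r, hr0, hr⟩ := ENNReal.lt_iff_exists_nnreal_btwn.mp hε
    have hr0' : 0 < r := by exact_mod_cast hr0
    refine ⟨(r : ℝ) / 3, by positivity, le_trans (le_of_eq ?_) hr.le⟩
    rw [show (3 : ℝ≥0∞) = ENNReal.ofReal 3 by simp, ← ENNReal.ofReal_mul (by norm_num),
      show 3 * ((r : ℝ) / 3) = (r : ℝ) by ring, ENNReal.ofReal_coe_nnreal]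
  obtain ⟨s, v, hsv⟩ := tp_dense_L2 m sep hF (ε := ENNReal.ofReal δ)
    (by rw [ne_eq, ENNReal.ofReal_eq_zero, not_le]; exact hδ0)
  obtain ⟨N0, hN0⟩ := unif_erg m sep den (⟨tp s v, c4_ct s v⟩ : C(K, V)) hδ0
  refine ⟨N0, fun N hN => ?_⟩
  have hct := c4_ct s v
  have hLt : MemLp (tp s v) 2 m := hct.memLp_of_hasCompactSupport
    (HasCompactSupport.of_compactSpace _)
  have hG : MemLp (fun y => F y - tp s v y) 2 m := hF.sub hLt
  have h1 := c4_avg (u := u) m hG N
  have h2 : eLpNorm (fun y => ((N : ℂ))⁻¹ • ∑ n ∈ Finset.range N, tp s v (u ^ n * y) -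
      ∫ x, tp s v x ∂m) 2 m ≤ ENNReal.ofReal δ := by
    refine le_trans (eLpNorm_le_of_ae_bound (C := δ)
      (Filter.Eventually.of_forall fun y => hN0 N hN y)) ?_
    rw [measure_univ]
    simp
  have h3 : eLpNorm (fun _ : K => ∫ x, tp s v x ∂m - ∫ x, F x ∂m) 2 m ≤ ENNReal.ofReal δ := by
    have hi1 : Integrable (tp s v) m := hLt.integrable (by norm_num)
    have hi2 : Integrable F m := hF.integrable (by norm_num)
    rw [← integral_sub hi1 hi2, eLpNorm_const _ (by norm_num)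
      (IsProbabilityMeasure.ne_zero m), measure_univ]
    rw [ENNReal.one_rpow, mul_one]
    refine le_trans (enorm_integral_le_lintegral_enorm _) ?_
    have h5 : ∫⁻ x, ‖tp s v x - F x‖ₑ ∂m = eLpNorm (fun y => F y - tp s v y) 1 m := by
      rw [eLpNorm_one_eq_lintegral_enorm]
      exact lintegral_congr fun x => enorm_sub_rev _ _
    rw [h5]
    exact le_trans (eLpNorm_le_eLpNorm_of_exponent_le (by norm_num) hG.aestronglyMeasurable) hsv
  have h4 : (fun y => ((N : ℂ))⁻¹ • ∑ n ∈ Finset.range N, F (u ^ n * y) - ∫ x, F x ∂m) =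
      ((fun y => ((N : ℂ))⁻¹ • ∑ n ∈ Finset.range N,
        (F (u ^ n * y) - tp s v (u ^ n * y))) +
      fun y => ((N : ℂ))⁻¹ • ∑ n ∈ Finset.range N, tp s v (u ^ n * y) - ∫ x, tp s v x ∂m) +
      fun _ => ∫ x, tp s v x ∂m - ∫ x, F x ∂m := by
    funext y
    simp only [Pi.add_apply]
    rw [Finset.sum_sub_distrib, smul_sub]
    abel
  have hmp : ∀ n : ℕ, MeasurePreserving (fun y : K => u ^ n * y) m m := fun n =>
    measurePreserving_mul_left m (u ^ n)
  have hm1 : AEStronglyMeasurable (fun y => ((N : ℂ))⁻¹ • ∑ n ∈ Finset.range N,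
        (F (u ^ n * y) - tp s v (u ^ n * y))) m := by
    refine AEStronglyMeasurable.const_smul ?_ _
    exact Finset.aestronglyMeasurable_fun_sum _ fun n _ =>
      hG.aestronglyMeasurable.comp_measurePreserving (hmp n)
  have hm2 : AEStronglyMeasurable (fun y => ((N : ℂ))⁻¹ • ∑ n ∈ Finset.range N,
      tp s v (u ^ n * y) - ∫ x, tp s v x ∂m) m := by
    have : Continuous (fun y => ((N : ℂ))⁻¹ • ∑ n ∈ Finset.range N,
      tp s v (u ^ n * y) - ∫ x, tp s v x ∂m) := by
      refine Continuous.sub (Continuous.const_smul ?_ _) continuous_const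
      exact continuous_finsetSum _ fun n _ => hct.comp (continuous_const.mul continuous_id)
    exact this.aestronglyMeasurable
  rw [h4]
  refine le_trans (eLpNorm_add_le (hm1.add hm2) aestronglyMeasurable_const (by norm_num)) ?_
  refine le_trans (add_le_add (eLpNorm_add_le hm1 hm2 (by norm_num)) le_rfl) ?_
  refine le_trans (add_le_add (add_le_add (le_trans h1 hsv) h2) h3) ?_
  refine le_trans (le_of_eq ?_) hδ
  ring

/-- the same for real functions -/
theorem mean_erg_real (sep : ∀ x : K, (∀ χ : PontryaginDual K, χ x = 1) → x = 1)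
    (den : ∀ χ : PontryaginDual K, χ u = 1 → χ = 1) {F : K → ℝ} (hF : MemLp F 2 m) :
    Tendsto (fun N : ℕ => eLpNorm (fun y => ((N : ℝ))⁻¹ * ∑ n ∈ Finset.range N, F (u ^ n * y) -
      ∫ x, F x ∂m) 2 m) atTop (𝓝 0) := by
  have h1 := mean_erg m sep den (F := fun y => ((F y : ℝ) : ℂ)) hF.ofReal
  refine h1.congr fun N => ?_
  refine eLpNorm_congr_norm_ae (Filter.Eventually.of_forall fun y => ?_)
  have h2 : ((N : ℂ))⁻¹ • ∑ n ∈ Finset.range N, ((F (u ^ n * y) : ℝ) : ℂ) -
      ∫ x, ((F x : ℝ) : ℂ) ∂m =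
      (((N : ℝ))⁻¹ * ∑ n ∈ Finset.range N, F (u ^ n * y) - ∫ x, F x ∂m : ℝ) := by
    have h3 : ∫ x, ((F x : ℝ) : ℂ) ∂m = ((∫ x, F x ∂m : ℝ) : ℂ) := integral_ofReal
    rw [h3, smul_eq_mul]
    push_cast
    rfl
  rw [h2, Complex.norm_real]
-- END c4

-- BEGIN c5
/-- PROOF. `mean_erg` (or Fourier coefficients) for the indicator function of an invariant set. With
`Ergodic.ae_eq_const_of_ae_eq_comp_ae` one gets: `f (u y) = f y` a.e. implies `f` is a.e. constant. -/
theorem ergodic_u (sep : ∀ x : K, (∀ χ : PontryaginDual K, χ x = 1) → x = 1)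
    (den : ∀ χ : PontryaginDual K, χ u = 1 → χ = 1) : Ergodic (fun y => u * y) m := by
  have mp : MeasurePreserving (fun y => u * y) m m := measurePreserving_mul_left m u
  refine ⟨mp, ⟨fun s hs hi => ?_⟩⟩
  have hν : (m.restrict s).map (fun y => u * y) = m.restrict s := by
    have h := mp.restrict_preimage hs
    rw [hi] at h
    exact h.map_eq
  have h1 := unique_inv m sep den (m.restrict s) hν
  have h2 : m.restrict s sᶜ = (m.restrict s Set.univ • m) sᶜ := by rw [← h1]
  rw [Measure.restrict_apply hs.compl, Set.compl_inter_self, measure_empty, Measure.smul_apply,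
    Measure.restrict_apply_univ, smul_eq_mul] at h2
  rw [eventuallyConst_set]
  rcases mul_eq_zero.mp h2.symm with h | h
  · right
    rw [ae_iff]
    simpa using h
  · left
    rw [ae_iff]
    exact h
-- END c5

-- BEGIN c6
omit [IsTopologicalGroup K] [CompactSpace K] [T2Space K] [SecondCountableTopology K]
  [MeasurableSpace K] [BorelSpace K] [TopologicalSpace K] in
private theorem c6_inv {F : Set K} :
    (fun y => u * y) ⁻¹' {y : K | ∃ᶠ n : ℕ in atTop, u ^ n * y ∈ F} =
      {y : K | ∃ᶠ n : ℕ in atTop, u ^ n * y ∈ F} := by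
  ext y
  simp only [Set.mem_preimage, Set.mem_ofPred_eq, Filter.frequently_atTop]
  constructor
  · intro h a
    obtain ⟨b, hb, h1⟩ := h a
    refine ⟨b + 1, by omega, ?_⟩
    rw [pow_succ, mul_assoc]
    exact h1
  · intro h a
    obtain ⟨b, hb, h1⟩ := h (a + 1)
    obtain ⟨c, rfl⟩ : ∃ c, b = c + 1 := ⟨b - 1, by omega⟩
    refine ⟨c, by omega, ?_⟩
    rw [pow_succ, mul_assoc] at h1
    exact h1

/-- Almost every point returns infinitely often. PROOF. `Ergodic`, or Poincare recurrence / `mean_erg`: for a.e. `y`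
the set of `n` with `u ^ n y ∈ F` is infinite (`Conservative.ae_frequently_mem_of_mem_nullMeasurableSet` gives it for
`y ∈ F`; the set of the good `y` is invariant). -/
theorem frequently_mem (sep : ∀ x : K, (∀ χ : PontryaginDual K, χ x = 1) → x = 1)
    (den : ∀ χ : PontryaginDual K, χ u = 1 → χ = 1) {F : Set K} (hF : MeasurableSet F)
    (h0 : m F ≠ 0) : ∀ᵐ y ∂m, ∃ᶠ n : ℕ in atTop, u ^ n * y ∈ F := by
  have herg : Ergodic (fun y => u * y) m := ergodic_u m sep den
  have hmeas : MeasurableSet {y : K | ∃ᶠ n : ℕ in atTop, u ^ n * y ∈ F} := by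
    have h1 : {y : K | ∃ᶠ n : ℕ in atTop, u ^ n * y ∈ F} =
        ⋂ a : ℕ, ⋃ b : ℕ, ⋃ _ : a ≤ b, (fun y => u ^ b * y) ⁻¹' F := by
      ext y
      simp [Filter.frequently_atTop]
    rw [h1]
    exact MeasurableSet.iInter fun a => MeasurableSet.iUnion fun b =>
      MeasurableSet.iUnion fun _ => (measurable_const_mul (u ^ b)) hF
  have hrec : ∀ᵐ y ∂m, y ∈ F → ∃ᶠ n : ℕ in atTop, u ^ n * y ∈ F := by
    have h1 := herg.toMeasurePreserving.conservative.ae_mem_imp_frequently_image_mem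
      hF.nullMeasurableSet
    filter_upwards [h1] with y hy hyF
    have h2 := hy hyF
    simpa only [mul_left_iterate] using h2
  rcases herg.toPreErgodic.measure_self_or_compl_eq_zero hmeas c6_inv with h | h
  · exfalso
    apply h0
    have h2 : F ≤ᵐ[m] {y : K | ∃ᶠ n : ℕ in atTop, u ^ n * y ∈ F} := hrec
    exact le_antisymm ((measure_mono_ae h2).trans_eq h) zero_le
  · exact h
-- END c6

end Pool.Agent.S7K
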