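import Pool.Agent.S7K.K8
import Pool.Agent.S7K.K2

/-!
# S7, block K, part 6: supplements
-/

set_option autoImplicit false

namespace Pool.Agent.S7K

open MeasureTheory Filter Topology
open scoped ENNReal

variable {K : Type*} [CommGroup K] [TopologicalSpace K] {u : K}
  [IsTopologicalGroup K] [CompactSpace K] [T2Space K] [SecondCountableTopology K]
  [MeasurableSpace K] [BorelSpace K] (m : Measure K) [m.IsHaarMeasure] [IsProbabilityMeasure m]

-- BEGIN b9
/-- density in `L¹`, vector valued. PROOF. As `tp_dense_L2`: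
`MemLp.exists_boundedContinuous_eLpNorm_sub_le` (`p = 1`) and `tp_dense`. -/
theorem tp_dense_L1 (sep : ∀ x : K, (∀ χ : PontryaginDual K, χ x = 1) → x = 1) {V : Type*}
    [NormedAddCommGroup V] [NormedSpace ℂ V] {F : K → V} (hF : Integrable F m) {ε : ℝ}
    (hε : 0 < ε) :
    ∃ (s : Finset (PontryaginDual K)) (v : PontryaginDual K → V),
      ∫ y, ‖F y - tp s v y‖ ∂m ≤ ε := by
  have := TopologicalSpace.metrizableSpace_of_t3_secondCountable K
  let _ : NormedSpace ℝ V := NormedSpace.restrictScalars ℝ ℂ V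
  obtain ⟨g, hg, hgi⟩ := hF.exists_boundedContinuous_integral_sub_le (half_pos hε)
  obtain ⟨s, v, hv⟩ := tp_dense sep g.toContinuousMap (half_pos hε)
  refine ⟨s, v, ?_⟩
  have h0 : Integrable (fun y => ‖F y - g y‖) m := (hF.sub hgi).norm
  have h1 : Integrable (fun y => ‖F y - g y‖ + ε / 2) m := h0.add (integrable_const _)
  have h2 : ∫ y, ‖F y - tp s v y‖ ∂m ≤ ∫ y, (‖F y - g y‖ + ε / 2) ∂m := by
    refine integral_mono_of_nonneg (Filter.Eventually.of_forall fun y => norm_nonneg _) h1
      (Filter.Eventually.of_forall fun y => ?_)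
    calc ‖F y - tp s v y‖ = ‖(F y - g y) + (g y - tp s v y)‖ := by rw [sub_add_sub_cancel]
      _ ≤ ‖F y - g y‖ + ‖g y - tp s v y‖ := norm_add_le _ _
      _ ≤ ‖F y - g y‖ + ε / 2 := by
        have := hv y
        exact add_le_add_right this _
  refine h2.trans ?_
  rw [integral_add h0 (integrable_const _), integral_const]
  simp only [probReal_univ, one_smul]
  linarith
-- END b9

-- BEGIN d10
omit [IsTopologicalGroup K] [CompactSpace K] [T2Space K] [SecondCountableTopology K]
  [MeasurableSpace K] [BorelSpace K] in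
private theorem d10_pow (χ : PontryaginDual K) (k : ℕ) (y : K) : (χ ^ k) y = (χ y) ^ k := by
  induction k with
  | zero => rw [pow_zero, pow_zero]; rfl
  | succ k ih =>
    rw [pow_succ, pow_succ, ← ih]
    rfl

omit [IsTopologicalGroup K] [CompactSpace K] [T2Space K] [SecondCountableTopology K]
  [MeasurableSpace K] [BorelSpace K] in
/-- compatibility of the residues. PROOF. `θ_N ^ (N / n) = θ_n` (both have the value `e(1/n)` at `u`). -/
theorem res_cast (h : KD K u) (n N : ℕ) [NeZero n] [NeZero N] (hd : n ∣ N) (y : K) :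
    ZMod.castHom hd (ZMod n) (res u N y) = res u n y := by
  have key : ∀ j : ℤ, ZMod.toCircle ((j : ℤ) : ZMod n) =
      ZMod.toCircle ((j : ℤ) : ZMod N) ^ (N / n) := by
    intro j
    apply Circle.ext
    rw [Circle.coe_pow, ZMod.toCircle_intCast, ZMod.toCircle_intCast, ← Complex.exp_nat_mul]
    congr 1
    have hn : (n : ℂ) ≠ 0 := Nat.cast_ne_zero.mpr (NeZero.ne n)
    have hN : (N : ℂ) ≠ 0 := Nat.cast_ne_zero.mpr (NeZero.ne N)
    rw [Nat.cast_div hd hn]
    field_simp
  have hth : theta u N ^ (N / n) = theta u n := by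
    have h1 : (theta u N ^ (N / n) * (theta u n)⁻¹) u = 1 := by
      have h2 : (theta u N ^ (N / n) * (theta u n)⁻¹) u =
          (theta u N ^ (N / n)) u * (theta u n u)⁻¹ := rfl
      rw [h2, d10_pow, theta_u h, theta_u h]
      have h3 := key 1
      rw [Int.cast_one, Int.cast_one] at h3
      rw [h3, mul_inv_cancel]
    exact mul_inv_eq_one.mp (h.dense _ h1)
  apply ZMod.injective_toCircle
  obtain ⟨j, hj⟩ := ZMod.intCast_surjective (res u N y)
  rw [toCircle_res h n y, ← hj, map_intCast, key j, hj, toCircle_res h N y, ← hth, d10_pow]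
-- END d10

-- BEGIN g6
/-- `1` is in the support of `μ_W`. PROOF. `V` a neighbourhood of `1` with `V / V ⊆ O`, `φ ≥ 0` continuous, zero outside
of `V`, `∫ φ dm > 0`. `I = ∫∫ φ(v z) φ(z) dm(z) dμ_W(v) ≥ (∫ φ dm)² > 0`: for trigonometric polynomials
`I = ∑_{χ torsion} |c χ|² ≥ |c 1|²`, in general by density (or directly:
`I = ∫ |A φ|² dm`, `A φ (z) = ∫ φ (v z) dμ_W(v)` (`muW_conv`, `muW_map_inv`, invariance of `m`), `≥ (∫ A φ dm)²`,
`∫ A φ dm = ∫ φ dm`). The integrand vanishes for `v ∉ O`, so `μ_W O > 0`. -/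
theorem muW_open_pos (h : KD K u) {O : Set K} (hO : IsOpen O) (h1 : (1 : K) ∈ O) :
    0 < muW K O := by
  have hP := isProbabilityMeasure_muW h
  obtain ⟨V, hV, hVO⟩ := exists_nhds_split_inv (hO.mem_nhds h1)
  have hV0 : ∃ k : K, muW K {y | k⁻¹ * y ∈ interior V} ≠ 0 := by
    by_contra hcon
    push Not at hcon
    have hz : muW K (Set.univ : Set K) = 0 := by
      refine isCompact_univ.measure_zero_of_nhdsWithin fun k _ => ?_
      refine ⟨{y | k⁻¹ * y ∈ interior V}, ?_, hcon k⟩
      rw [nhdsWithin_univ]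
      refine (isOpen_interior.preimage (continuous_const_mul k⁻¹)).mem_nhds ?_
      show k⁻¹ * k ∈ interior V
      rw [inv_mul_cancel]
      exact mem_interior_iff_mem_nhds.2 hV
    rw [measure_univ] at hz
    exact one_ne_zero hz
  obtain ⟨k, hk⟩ := hV0
  have hmul : Measurable fun p : K × K => p.1 * p.2 := measurable_mul
  have hinv : Measurable (Prod.map (id : K → K) (fun w : K => w⁻¹)) :=
    measurable_id.prodMap measurable_inv
  have hlaw : muW K O = ((muW K).prod (muW K)) {p : K × K | p.1 * p.2⁻¹ ∈ O} := by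
    have e1 : ((muW K).prod (muW K)).map (Prod.map (id : K → K) (fun w : K => w⁻¹)) =
        (muW K).prod (muW K) := by
      rw [← Measure.map_prod_map _ _ measurable_id measurable_inv, Measure.map_id, muW_map_inv h]
    calc muW K O = (((muW K).prod (muW K)).map (fun p : K × K => p.1 * p.2)) O := by
          rw [muW_conv h]
      _ = ((((muW K).prod (muW K)).map (Prod.map (id : K → K) (fun w : K => w⁻¹))).map
            (fun p : K × K => p.1 * p.2)) O := by rw [e1]
      _ = ((muW K).prod (muW K)) {p : K × K | p.1 * p.2⁻¹ ∈ O} := by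
          rw [Measure.map_apply hmul hO.measurableSet,
            Measure.map_apply hinv (hmul hO.measurableSet)]
          rfl
  rw [hlaw]
  have hsub : {y | k⁻¹ * y ∈ interior V} ×ˢ {y | k⁻¹ * y ∈ interior V} ⊆
      {p : K × K | p.1 * p.2⁻¹ ∈ O} := by
    rintro ⟨a, b⟩ ⟨ha, hb⟩
    have h2 := hVO _ (interior_subset ha) _ (interior_subset hb)
    have h3 : k⁻¹ * a / (k⁻¹ * b) = a * b⁻¹ := by
      rw [mul_div_mul_left_eq_div, div_eq_mul_inv]
    rw [h3] at h2
    exact h2
  refine lt_of_lt_of_le ?_ (measure_mono hsub)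
  rw [Measure.prod_prod]
  exact ENNReal.mul_pos hk hk
-- END g6

-- BEGIN g7
omit [IsTopologicalGroup K] [CompactSpace K] [T2Space K] [SecondCountableTopology K]
  [MeasurableSpace K] [BorelSpace K] in
private theorem g7_cont {V : Type*} [NormedAddCommGroup V] [NormedSpace ℂ V]
    (s : Finset (PontryaginDual K)) (v : PontryaginDual K → V) : Continuous (tp s v) := by
  unfold tp
  exact continuous_finsetSum _ fun χ _ => (continuous_ch χ).smul continuous_const

omit [T2Space K] in
private theorem g7_int {V : Type*} [NormedAddCommGroup V] [NormedSpace ℂ V] (μ : Measure K)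
    [IsFiniteMeasure μ] {f : K → V} (hf : Continuous f) : Integrable f μ :=
  hf.integrable_of_hasCompactSupport (HasCompactSupport.of_compactSpace f)

/-- `tor_approx` in `L¹`; same proof. -/
theorem tor_approx_L1 (h : KD K u) {V : Type*} [NormedAddCommGroup V] [NormedSpace ℂ V]
    [CompleteSpace V] {F : K → V} (hF : Integrable F m)
    (hinv : ∀ᵐ p : K × K ∂(m.prod (muW K)), F (p.1 * p.2) = F p.1) {ε : ℝ} (hε : 0 < ε) :
    ∃ (s : Finset (PontryaginDual K)) (v : PontryaginDual K → V), (∀ χ ∈ s, IsOfFinOrder χ) ∧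
      ∫ y, ‖F y - tp s v y‖ ∂m ≤ ε := by
  classical
  have hP1 := isProbabilityMeasure_muW h
  obtain ⟨s, v, hsv⟩ := tp_dense_L1 m h.sep hF hε
  refine ⟨s.filter fun χ => IsOfFinOrder χ, v, fun χ hχ => (Finset.mem_filter.mp hχ).2, ?_⟩
  set P : K → V := tp s v with hP
  set P' : K → V := tp (s.filter fun χ => IsOfFinOrder χ) v with hP'
  have hPc : Continuous P := g7_cont s v
  have hPc' : Continuous P' := g7_cont _ v
  have hchi : ∀ χ : PontryaginDual K, Integrable (ch χ) (muW K) := fun χ =>
    g7_int (muW K) (continuous_ch χ)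
  -- the torsion part
  have h1 : ∀ z : K, ∫ w, P (z * w) ∂(muW K) = P' z := by
    intro z
    have e1 : ∀ w : K, P (z * w) = ∑ χ ∈ s, (ch χ w) • (ch χ z • v χ) := by
      intro w
      rw [hP]
      unfold tp
      refine Finset.sum_congr rfl fun χ _ => ?_
      rw [ch_mul, mul_comm (ch χ z), mul_smul]
    have e2 : ∫ w, P (z * w) ∂(muW K) = ∑ χ ∈ s, (∫ w, ch χ w ∂(muW K)) • (ch χ z • v χ) := by
      rw [integral_congr_ae (Filter.Eventually.of_forall e1), integral_finsetSum]
      · refine Finset.sum_congr rfl fun χ _ => ?_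
        exact integral_smul_const _ _
      · intro χ _
        exact (hchi χ).smul_const _
    rw [e2, hP']
    unfold tp
    rw [Finset.sum_filter]
    refine Finset.sum_congr rfl fun χ _ => ?_
    by_cases hχ : IsOfFinOrder χ
    · rw [if_pos hχ, int_muW_tor h hχ, one_smul]
    · rw [if_neg hχ, int_muW h hχ, zero_smul]
  -- the average over the fibres
  set g : K → ℝ := fun y => ‖F y - P y‖ with hg
  have hgi : Integrable g m := (hF.sub (g7_int m hPc)).norm
  have hmp := mul_preserving m (muW K)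
  have hgi2 : Integrable (fun p : K × K => g (p.1 * p.2)) (m.prod (muW K)) := by
    have := (hmp.integrable_comp hgi.aestronglyMeasurable).mpr hgi
    exact this
  have h2 : ∫ y, ‖F y - P' y‖ ∂m ≤ ∫ y, (∫ w, g (y * w) ∂(muW K)) ∂m := by
    refine integral_mono_ae (hF.sub (g7_int m hPc')).norm hgi2.integral_prod_left ?_
    filter_upwards [Measure.ae_ae_of_ae_prod hinv] with z hz
    have e3 : F z - P' z = ∫ w, (F z - P (z * w)) ∂(muW K) := by
      have e6 : Integrable (fun w : K => P (z * w)) (muW K) :=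
        g7_int (muW K) (hPc.comp (continuous_const.mul continuous_id))
      rw [integral_sub (integrable_const _) e6, h1 z, integral_const]
      simp
    have e4 : ∀ᵐ w ∂(muW K), ‖F z - P (z * w)‖ = g (z * w) := by
      filter_upwards [hz] with w hw
      have hw2 : F (z * w) = F z := hw
      rw [hg]
      simp only
      rw [hw2]
    calc ‖F z - P' z‖ = ‖∫ w, (F z - P (z * w)) ∂(muW K)‖ := by rw [← e3]
      _ ≤ ∫ w, ‖F z - P (z * w)‖ ∂(muW K) := norm_integral_le_integral_norm _
      _ = ∫ w, g (z * w) ∂(muW K) := integral_congr_ae e4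
  have h3 : ∫ y, (∫ w, g (y * w) ∂(muW K)) ∂m = ∫ y, g y ∂m := by
    rw [← integral_prod _ hgi2]
    have e5 := integral_map (μ := m.prod (muW K)) (φ := fun p : K × K => p.1 * p.2) (f := g)
      hmp.measurable.aemeasurable (by rw [hmp.map_eq]; exact hgi.aestronglyMeasurable)
    rw [hmp.map_eq] at e5
    exact e5.symm
  exact (h2.trans h3.le).trans hsv
-- END g7

end Pool.Agent.S7K
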