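import Pool.Agent.S7K.K1

/-!
# S7, block K, part 3: the power maps, residues, roots
-/

set_option autoImplicit false

namespace Pool.Agent.S7K

open MeasureTheory Filter Topology
open scoped ENNReal

variable {K : Type*} [CommGroup K] [TopologicalSpace K] {u : K}

-- BEGIN d1
private theorem d1_pow (ψ : PontryaginDual K) (n : ℕ) (y : K) : (ψ ^ n) y = ψ y ^ n := by
  induction n with
  | zero => rw [pow_zero, pow_zero]; rfl
  | succ n ih => rw [pow_succ, pow_succ, ← ih]; rfl

/-- PROOF. `y ^ n = 1 ⇒ χ y = ψ (y ^ n) = 1` for `ψ ^ n = χ`. -/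
theorem pow_injective (h : KD K u) {n : ℕ} (hn : 1 ≤ n) : Function.Injective fun y : K => y ^ n := by
  intro x y hxy
  have hxy' : x ^ n = y ^ n := hxy
  have h1 : x * y⁻¹ = 1 := by
    refine h.sep _ fun χ => ?_
    obtain ⟨ψ, rfl⟩ := h.div n hn χ
    have h2 : (x * y⁻¹) ^ n = 1 := by
      rw [mul_pow, inv_pow, hxy', mul_inv_cancel]
    rw [d1_pow, ← map_pow, h2, map_one]
  exact mul_inv_eq_one.1 h1

private theorem d1_rt {n : ℕ} {y : K} (hy : ∃ x : K, x ^ n = y) : rt n y ^ n = y := by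
  unfold rt
  rw [dif_pos hy]
  exact Classical.choose_spec hy

theorem rt_pow (h : KD K u) {n : ℕ} (hn : 1 ≤ n) (x : K) : rt n (x ^ n) = x :=
  pow_injective h hn (d1_rt ⟨x, rfl⟩)

theorem pow_rt {n : ℕ} {y : K} (hy : y ∈ Kp K n) : rt n y ^ n = y := d1_rt hy

theorem rt_mul (h : KD K u) {n : ℕ} (hn : 1 ≤ n) {x y : K} (hx : x ∈ Kp K n) (hy : y ∈ Kp K n) :
    rt n (x * y) = rt n x * rt n y := by
  obtain ⟨a, rfl⟩ := hx
  obtain ⟨b, rfl⟩ := hy
  show rt n (a ^ n * b ^ n) = rt n (a ^ n) * rt n (b ^ n)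
  rw [rt_pow h hn, rt_pow h hn, ← mul_pow, rt_pow h hn]

/-- torsion free -/
theorem ch_root (h : KD K u) {n : ℕ} (hn : 1 ≤ n) {χ : PontryaginDual K} {y : K}
    (hy : y ∈ Kp K n) : χ (rt n y) ^ n = χ y := by
  rw [← map_pow, pow_rt hy]
-- END d1

-- BEGIN d2
private theorem d2_tc (n : ℕ) [NeZero n] (k : ℕ) :
    (ZMod.toCircle (1 : ZMod n) : Circle) ^ k = ZMod.toCircle (k : ZMod n) := by
  rw [← AddChar.map_nsmul_eq_pow, nsmul_eq_mul, mul_one]

private theorem d2_tcn (n : ℕ) [NeZero n] : (ZMod.toCircle (1 : ZMod n) : Circle) ^ n = 1 := by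
  rw [d2_tc, ZMod.natCast_self, AddChar.map_zero_eq_one]

private theorem d2_ex (h : KD K u) (n : ℕ) [NeZero n] :
    ∃ χ : PontryaginDual K, χ ^ n = 1 ∧ χ u = ZMod.toCircle (1 : ZMod n) := by
  obtain ⟨χ, hχ⟩ := h.roots n (NeZero.one_le) (ZMod.toCircle (1 : ZMod n)) (d2_tcn n)
  refine ⟨χ, h.dense _ ?_, hχ⟩
  rw [d1_pow, hχ, d2_tcn]

private theorem d2_eq (h : KD K u) {χ ψ : PontryaginDual K} (hu : χ u = ψ u) : χ = ψ := by
  have h1 : χ * ψ⁻¹ = 1 := by
    refine h.dense _ ?_
    show χ u * (ψ u)⁻¹ = 1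
    rw [hu, mul_inv_cancel]
  exact mul_inv_eq_one.1 h1

private theorem d2_root (n : ℕ) [NeZero n] {z : Circle} (hz : z ^ n = 1) :
    ∃ k : ℕ, k < n ∧ z = ZMod.toCircle (1 : ZMod n) ^ k := by
  have hp : IsPrimitiveRoot (ZMod.toCircle (1 : ZMod n) : Circle) n := by
    refine ⟨d2_tcn n, fun l hl => ?_⟩
    rw [d2_tc, ← AddChar.map_zero_eq_one (ZMod.toCircle : AddChar (ZMod n) Circle)] at hl
    exact (ZMod.natCast_eq_zero_iff l n).1 (ZMod.injective_toCircle hl)
  have hp' := hp.map_of_injective (f := Circle.coeHom) Circle.coe_injective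
  have hz' : (Circle.coeHom z) ^ n = 1 := by
    rw [← map_pow, hz, map_one]
  obtain ⟨k, hk, hkz⟩ := hp'.eq_pow_of_pow_eq_one hz'
  refine ⟨k, hk, ?_⟩
  apply Circle.coe_injective
  have h1 : Circle.coeHom z = Circle.coeHom (ZMod.toCircle (1 : ZMod n) ^ k) := by
    rw [map_pow, hkz]
  exact h1

/-- PROOF. `roots` and `dense`: `χ u ^ n = 1 ⇒ χ ^ n = 1`. -/
theorem theta_pow (h : KD K u) (n : ℕ) [NeZero n] : theta u n ^ n = 1 := by
  unfold theta
  rw [dif_pos (d2_ex h n)]
  exact (Classical.choose_spec (d2_ex h n)).1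

theorem theta_u (h : KD K u) (n : ℕ) [NeZero n] : theta u n u = ZMod.toCircle (1 : ZMod n) := by
  unfold theta
  rw [dif_pos (d2_ex h n)]
  exact (Classical.choose_spec (d2_ex h n)).2

/-- PROOF. `χ u` is an `n`-th root of unity, so `χ u = θ_n u ^ k`. -/
theorem eq_theta_pow (h : KD K u) (n : ℕ) [NeZero n] {χ : PontryaginDual K} (hχ : χ ^ n = 1) :
    ∃ k : ℕ, k < n ∧ χ = theta u n ^ k := by
  have h1 : χ u ^ n = 1 := by
    rw [← d1_pow, hχ]
    rfl
  obtain ⟨k, hk, hkz⟩ := d2_root n h1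
  refine ⟨k, hk, d2_eq h ?_⟩
  rw [d1_pow, theta_u h, hkz]

theorem theta_pow_inj (h : KD K u) (n : ℕ) [NeZero n] {k l : ℕ} (hk : k < n) (hl : l < n)
    (hkl : theta u n ^ k = theta u n ^ l) : k = l := by
  have h1 : (theta u n ^ k) u = (theta u n ^ l) u := by rw [hkl]
  rw [d1_pow, d1_pow, theta_u h, d2_tc, d2_tc] at h1
  have h2 := ZMod.injective_toCircle h1
  rw [ZMod.natCast_eq_natCast_iff', Nat.mod_eq_of_lt hk, Nat.mod_eq_of_lt hl] at h2
  exact h2
-- END d2

-- BEGIN d3
private theorem d3_pow (χ : PontryaginDual K) (n : ℕ) (y : K) : (χ ^ n) y = (χ y) ^ n := by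
  induction n with
  | zero =>
    rw [pow_zero, pow_zero]
    rfl
  | succ n ih =>
    rw [pow_succ, pow_succ, ← ih]
    rfl

private theorem d3_ex (h : KD K u) (n : ℕ) [NeZero n] (y : K) :
    ∃ j : ZMod n, ZMod.toCircle j = theta u n y := by
  have h1 : (theta u n y) ^ n = 1 := by
    rw [← d3_pow, theta_pow h n]
    rfl
  have h2 : ((theta u n y : Circle) : ℂ) ^ n = 1 := by
    rw [← Circle.coe_pow, h1, Circle.coe_one]
  obtain ⟨i, _, hi2⟩ := (Complex.isPrimitiveRoot_exp n (NeZero.ne n)).eq_pow_of_pow_eq_one h2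
  refine ⟨(i : ZMod n), ?_⟩
  apply Circle.ext
  rw [ZMod.toCircle_natCast, ← hi2, ← Complex.exp_nat_mul]
  congr 1
  ring

/-- PROOF. `θ_n y` is an `n`-th root of unity. -/
theorem toCircle_res (h : KD K u) (n : ℕ) [NeZero n] (y : K) :
    ZMod.toCircle (res u n y) = theta u n y := by
  unfold res
  rw [dif_pos (d3_ex h n y)]
  exact Classical.choose_spec (d3_ex h n y)

theorem res_mul (h : KD K u) (n : ℕ) [NeZero n] (x y : K) :
    res u n (x * y) = res u n x + res u n y := by
  apply ZMod.injective_toCircle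
  rw [AddChar.map_add_eq_mul, toCircle_res h, toCircle_res h, toCircle_res h, map_mul]

theorem res_one (h : KD K u) (n : ℕ) [NeZero n] : res u n (1 : K) = 0 := by
  apply ZMod.injective_toCircle
  rw [AddChar.map_zero_eq_one, toCircle_res h, map_one]

theorem res_u (h : KD K u) (n : ℕ) [NeZero n] : res u n u = 1 := by
  apply ZMod.injective_toCircle
  rw [toCircle_res h, theta_u h n]

theorem res_u_mul (h : KD K u) (n : ℕ) [NeZero n] (y : K) :
    res u n (u * y) = res u n y + 1 := by
  rw [res_mul h, res_u h, add_comm]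

theorem res_u_pow_mul (h : KD K u) (n : ℕ) [NeZero n] (k : ℕ) (y : K) :
    res u n (u ^ k * y) = res u n y + k := by
  induction k with
  | zero => simp
  | succ k ih =>
    rw [pow_succ', mul_assoc, res_u_mul h, ih]
    push_cast
    ring

theorem res_pow (h : KD K u) (n : ℕ) [NeZero n] (k : ℕ) (y : K) :
    res u n (y ^ k) = k * res u n y := by
  induction k with
  | zero => simp [res_one h]
  | succ k ih =>
    rw [pow_succ', res_mul h, ih]
    push_cast
    ring
-- END d3

-- BEGIN d4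
private theorem d4_eq (h : KD K u) (n : ℕ) [NeZero n] (j : ZMod n) :
    {y : K | res u n y = j} = {y : K | theta u n y = ZMod.toCircle j} := by
  ext y
  rw [Set.mem_ofPred_eq, Set.mem_ofPred_eq, ← toCircle_res h n y]
  exact ⟨fun e => by rw [e], fun e => ZMod.injective_toCircle e⟩

private theorem d4_closed (h : KD K u) (n : ℕ) [NeZero n] (j : ZMod n) :
    IsClosed {y : K | res u n y = j} := by
  rw [d4_eq h n j]
  exact isClosed_eq (theta u n).continuous_toFun continuous_const

private theorem d4_sum (n : ℕ) [NeZero n] (a : ZMod n) :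
    ∑ k ∈ Finset.range n, ((ZMod.toCircle ((k : ZMod n) * a) : Circle) : ℂ) =
      if a = 0 then (n : ℂ) else 0 := by
  have hk : ∀ k : ℕ, ((ZMod.toCircle ((k : ZMod n) * a) : Circle) : ℂ) =
      ((ZMod.toCircle a : Circle) : ℂ) ^ k := by
    intro k
    rw [← nsmul_eq_mul, AddChar.map_nsmul_eq_pow, Circle.coe_pow]
  simp only [hk]
  split_ifs with ha
  · rw [ha]
    simp
  · have h1 : ((ZMod.toCircle a : Circle) : ℂ) ≠ 1 := by
      intro h2
      apply ha
      apply ZMod.injective_toCircle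
      rw [AddChar.map_zero_eq_one]
      apply Circle.ext
      rw [h2, Circle.coe_one]
    have h2 : ((ZMod.toCircle a : Circle) : ℂ) ^ n = 1 := by
      rw [← hk n, ZMod.natCast_self, zero_mul, AddChar.map_zero_eq_one, Circle.coe_one]
    rw [geom_sum_eq h1, h2, sub_self, zero_div]

/-- PROOF. `{y | θ_n y = z}` is closed, for the finitely many roots of unity `z`. -/
theorem isClopen_res (h : KD K u) (n : ℕ) [NeZero n] (j : ZMod n) :
    IsClopen {y : K | res u n y = j} := by
  refine ⟨d4_closed h n j, ?_⟩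
  have h1 : {y : K | res u n y = j} = (⋃ i ∈ {i : ZMod n | i ≠ j}, {y : K | res u n y = i})ᶜ := by
    ext y
    simp only [Set.mem_ofPred_eq, Set.mem_compl_iff, Set.mem_iUnion, exists_prop, not_exists, not_and]
    exact ⟨fun e i hi e' => hi (e'.symm.trans e), fun e => by
      by_contra hne
      exact e (res u n y) hne rfl⟩
  rw [h1, isOpen_compl_iff]
  exact (Set.toFinite _).isClosed_biUnion fun i _ => d4_closed h n i

theorem measurable_res (h : KD K u) (n : ℕ) [NeZero n] [MeasurableSpace K] [BorelSpace K]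
    [MeasurableSpace (ZMod n)] : Measurable (res u n : K → ZMod n) := by
  intro A _
  have h1 : (res u n : K → ZMod n) ⁻¹' A = ⋃ i ∈ A, {y : K | res u n y = i} := by
    ext y
    simp
  rw [h1]
  exact (Set.toFinite A).measurableSet_biUnion fun i _ => (d4_closed h n i).measurableSet

/-- the indicator function of a residue class as a sum of characters: `(1/n) ∑_{k<n} e(-jk/n) θ_n^k` -/
theorem ind_res (h : KD K u) (n : ℕ) [NeZero n] (j : ZMod n) (y : K) [Decidable (res u n y = j)] :
    (if res u n y = j then (1 : ℂ) else 0) =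
      ((n : ℂ))⁻¹ * ∑ k ∈ Finset.range n, ((ZMod.toCircle (-((k : ZMod n) * j)) : Circle) : ℂ) *
        ch (theta u n ^ k) y := by
  have h1 : ∀ k : ℕ, ((ZMod.toCircle (-((k : ZMod n) * j)) : Circle) : ℂ) * ch (theta u n ^ k) y =
      ((ZMod.toCircle ((k : ZMod n) * (res u n y - j)) : Circle) : ℂ) := by
    intro k
    rw [pow_ch, ch, map_pow, ← toCircle_res h n y, ← AddChar.map_nsmul_eq_pow, ← Circle.coe_mul,
      ← AddChar.map_add_eq_mul, nsmul_eq_mul]
    congr 2
    ring
  simp only [h1]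
  rw [d4_sum]
  have hn : (n : ℂ) ≠ 0 := by exact_mod_cast NeZero.ne n
  by_cases hj : res u n y = j
  · rw [if_pos hj, if_pos (sub_eq_zero.2 hj), inv_mul_cancel₀ hn]
  · rw [if_neg hj, if_neg (fun h2 => hj (sub_eq_zero.1 h2)), mul_zero]
-- END d4

variable [IsTopologicalGroup K] [CompactSpace K] [T2Space K] [SecondCountableTopology K]
  [MeasurableSpace K] [BorelSpace K] (m : Measure K) [m.IsHaarMeasure] [IsProbabilityMeasure m]

-- BEGIN d5
private theorem d5_sum (h : KD K u) (n : ℕ) [NeZero n] (χ : PontryaginDual K)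
    [Decidable (χ ^ n = 1)] :
    ∑ k ∈ Finset.range n, ∫ y, ch (theta u n ^ k * χ) y ∂m = if χ ^ n = 1 then 1 else 0 := by
  classical
  by_cases hχ : χ ^ n = 1
  · rw [if_pos hχ]
    obtain ⟨k, hk, hkχ⟩ := eq_theta_pow h n (χ := χ⁻¹) (by rw [inv_pow, hχ, inv_one])
    rw [Finset.sum_eq_single_of_mem k (Finset.mem_range.mpr hk)]
    · rw [← hkχ, inv_mul_cancel]
      exact int_ch_one m
    · intro l hl hlk
      refine int_ch m fun h1 => hlk ?_
      refine theta_pow_inj h n (Finset.mem_range.mp hl) hk ?_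
      rw [← hkχ]
      exact eq_inv_of_mul_eq_one_left h1
  · rw [if_neg hχ]
    refine Finset.sum_eq_zero fun k _ => int_ch m fun h1 => hχ ?_
    have h2 : (theta u n ^ k * χ) ^ n = 1 := by rw [h1, one_pow]
    rw [mul_pow, ← pow_mul, mul_comm k n, pow_mul, theta_pow h n, one_pow, one_mul] at h2
    exact h2

private theorem d5_meas (h : KD K u) (n : ℕ) [NeZero n] :
    MeasurableSet {y : K | res u n y = 0} := (isClopen_res h n 0).isClosed.measurableSet

private theorem d5_map (h : KD K u) (n : ℕ) [NeZero n] :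
    m.map (fun y => y ^ n) = (n : ℝ≥0∞) • m.restrict {y : K | res u n y = 0} := by
  classical
  have hn : (n : ℝ≥0∞) ≠ ∞ := ENNReal.natCast_ne_top n
  have hfin : IsFiniteMeasure ((n : ℝ≥0∞) • m.restrict {y : K | res u n y = 0}) :=
    ⟨by
      rw [Measure.smul_apply, smul_eq_mul]
      exact ENNReal.mul_lt_top (lt_top_iff_ne_top.mpr hn) (measure_lt_top _ _)⟩
  have hfin' : IsFiniteMeasure (m.map fun y => y ^ n) := inferInstance
  refine ext_ch h.sep fun χ => ?_
  have hcont : Continuous fun y : K => y ^ n := continuous_pow n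
  rw [integral_map hcont.aemeasurable (continuous_ch χ).aestronglyMeasurable,
    integral_smul_measure, ← integral_indicator (d5_meas h n)]
  have h1 : ∀ y : K, ch χ (y ^ n) = ch (χ ^ n) y := fun y => (pow_ch χ n y).symm
  simp only [h1]
  have h2 : ∀ y : K, Set.indicator {y : K | res u n y = 0} (fun y => ch χ y) y =
      ((n : ℂ))⁻¹ * ∑ k ∈ Finset.range n, ch (theta u n ^ k * χ) y := by
    intro y
    have h3 := ind_res h n 0 y
    simp only [mul_zero, neg_zero, AddChar.map_zero_eq_one, Circle.coe_one, one_mul] at h3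
    have h4 : Set.indicator {y : K | res u n y = 0} (fun y => ch χ y) y =
        (if res u n y = 0 then (1 : ℂ) else 0) * ch χ y := by
      by_cases h5 : res u n y = 0
      · rw [Set.indicator_of_mem (show y ∈ {y : K | res u n y = 0} from h5), if_pos h5, one_mul]
      · rw [Set.indicator_of_notMem (show y ∉ {y : K | res u n y = 0} from h5), if_neg h5,
          zero_mul]
    rw [h4, h3, mul_assoc, Finset.sum_mul]
    exact congrArg _ (Finset.sum_congr rfl fun k _ => (mul_ch _ _ _).symm)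
  simp only [h2]
  rw [integral_const_mul, integral_finsetSum _ fun k _ =>
    ((continuous_ch (theta u n ^ k * χ)).integrable_of_hasCompactSupport
      (HasCompactSupport.of_compactSpace _)), d5_sum m h n χ]
  have hn0 : (n : ℂ) ≠ 0 := Nat.cast_ne_zero.mpr (NeZero.ne n)
  have hr : ((n : ℝ≥0∞)).toReal = (n : ℝ) := ENNReal.toReal_natCast n
  rw [hr]
  by_cases hχ : χ ^ n = 1
  · rw [if_pos hχ, hχ, int_ch_one m, Complex.real_smul, Complex.ofReal_natCast, mul_one,
      mul_inv_cancel₀ hn0]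
  · rw [if_neg hχ, int_ch m hχ, mul_zero, smul_zero]

/-- (PF) and the description of the `n`-th powers. PROOF. `y ↦ y ^ n` pushes `m` to a measure with the Fourier
coefficients `∫ χ (y ^ n) dm = 1[χ ^ n = 1]`; the measure `n 1[θ_n = 1] m` has the same (`ind_res`, `int_ch`,
`eq_theta_pow`), so they are equal (`ext_ch`). The closed set `Kp K n` carries the first one, so it contains
`{θ_n = 1}` (an open set whose intersection with the complement of `Kp K n` is open and null). -/
theorem mem_Kp_iff (h : KD K u) (n : ℕ) [NeZero n] (y : K) : y ∈ Kp K n ↔ res u n y = 0 := by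
  constructor
  · rintro ⟨x, rfl⟩
    have h1 := toCircle_res h n (x ^ n)
    have h2 : ch (theta u n) (x ^ n) = 1 := by rw [← pow_ch, theta_pow h n, one_ch]
    have h3 : theta u n (x ^ n) = 1 := Circle.ext h2
    rw [h3] at h1
    exact ZMod.injective_toCircle (h1.trans (AddChar.map_zero_eq_one _).symm)
  · intro hy
    by_contra hyn
    set μ : Measure K := Measure.haarMeasure ⊤ with hμ
    have hprob : IsProbabilityMeasure μ := ⟨by
      have := Measure.haarMeasure_self (K₀ := (⊤ : TopologicalSpace.PositiveCompacts K))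
      simpa using this⟩
    have hclosed : IsClosed (Kp K n) := (isCompact_range (continuous_pow n)).isClosed
    have hopen : IsOpen ({y : K | res u n y = 0} ∩ (Kp K n)ᶜ) :=
      (isClopen_res h n 0).isOpen.inter hclosed.isOpen_compl
    have hpos : 0 < μ ({y : K | res u n y = 0} ∩ (Kp K n)ᶜ) := hopen.measure_pos μ ⟨y, hy, hyn⟩
    have h1 : (μ.map fun y => y ^ n) ({y : K | res u n y = 0} ∩ (Kp K n)ᶜ) =
        ((n : ℝ≥0∞) • μ.restrict {y : K | res u n y = 0})
          ({y : K | res u n y = 0} ∩ (Kp K n)ᶜ) := by rw [d5_map μ h n]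
    rw [Measure.map_apply (continuous_pow n).measurable hopen.measurableSet,
      Measure.smul_apply, Measure.restrict_apply hopen.measurableSet] at h1
    have h2 : (fun y : K => y ^ n) ⁻¹' ({y : K | res u n y = 0} ∩ (Kp K n)ᶜ) = ∅ := by
      ext x
      simp only [Set.mem_preimage, Set.mem_inter_iff, Set.mem_compl_iff, Set.mem_empty_iff_false,
        iff_false, not_and, not_not]
      exact fun _ => ⟨x, rfl⟩
    have h3 : ({y : K | res u n y = 0} ∩ (Kp K n)ᶜ) ∩ {y : K | res u n y = 0} =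
        {y : K | res u n y = 0} ∩ (Kp K n)ᶜ := by
      rw [Set.inter_right_comm, Set.inter_self]
    rw [h2, measure_empty, h3, smul_eq_mul] at h1
    have h4 := ENNReal.mul_pos (Nat.cast_ne_zero.mpr (NeZero.ne n) : (n : ℝ≥0∞) ≠ 0) hpos.ne'
    exact absurd h1 h4.ne

theorem map_pow (h : KD K u) (n : ℕ) [NeZero n] :
    m.map (fun y => y ^ n) = (n : ℝ≥0∞) • m.restrict (Kp K n) := by
  have h1 : Kp K n = {y : K | res u n y = 0} := Set.ext fun y => mem_Kp_iff h n y
  rw [h1]
  exact d5_map m h n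
-- END d5

-- BEGIN d6
private theorem d6_set (h : KD K u) (n : ℕ) [NeZero n] :
    Kp K n = {y : K | res u n y = 0} := by
  ext y
  exact mem_Kp_iff h n y

theorem isClopen_Kp (h : KD K u) (n : ℕ) [NeZero n] : IsClopen (Kp K n) := by
  rw [d6_set h n]
  exact isClopen_res h n 0

private theorem d6_trans (h : KD K u) (n : ℕ) [NeZero n] (j : ZMod n) :
    m {y | res u n y = j} = m {y | res u n y = 0} := by
  have e : (fun y : K => u ^ j.val * y) ⁻¹' {y | res u n y = j} = {y | res u n y = 0} := by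
    ext y
    simp only [Set.mem_preimage, Set.mem_setOf_eq]
    rw [res_u_pow_mul h n, ZMod.natCast_zmod_val]
    constructor
    · intro hy
      simpa using hy
    · intro hy
      rw [hy, zero_add]
  rw [← e, measure_preimage_mul]

theorem measure_res (h : KD K u) (n : ℕ) [NeZero n] (j : ZMod n) :
    m {y | res u n y = j} = (n : ℝ≥0∞)⁻¹ := by
  classical
  rw [d6_trans m h n j]
  have hU : (Set.univ : Set K) = ⋃ i ∈ (Finset.univ : Finset (ZMod n)), {y | res u n y = i} := by
    ext y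
    simp
  have h1 : m (Set.univ : Set K) = ∑ i : ZMod n, m {y | res u n y = i} := by
    rw [hU]
    refine measure_biUnion_finset ?_ ?_
    · intro a _ b _ hab
      refine Set.disjoint_left.2 ?_
      intro y hy hy'
      exact hab (hy.symm.trans hy')
    · intro i _
      exact (isClopen_res h n i).isOpen.measurableSet
  have h2 : (1 : ℝ≥0∞) = (n : ℝ≥0∞) * m {y | res u n y = 0} := by
    rw [measure_univ] at h1
    rw [h1, Finset.sum_congr rfl fun i _ => d6_trans m h n i, Finset.sum_const, Finset.card_univ,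
      ZMod.card, nsmul_eq_mul]
  have hn0 : (n : ℝ≥0∞) ≠ 0 := by
    exact_mod_cast NeZero.ne n
  have hnt : (n : ℝ≥0∞) ≠ ∞ := ENNReal.natCast_ne_top n
  exact (ENNReal.eq_inv_of_mul_eq_one_left (by rw [mul_comm]; exact h2.symm))

theorem measure_Kp (h : KD K u) (n : ℕ) [NeZero n] : m (Kp K n) = (n : ℝ≥0∞)⁻¹ := by
  rw [d6_set h n]
  exact measure_res m h n 0

theorem u_pow_mem (h : KD K u) (n : ℕ) [NeZero n] (k : ℕ) : u ^ k ∈ Kp K n ↔ n ∣ k := by
  have e : res u n (u ^ k) = (k : ZMod n) := by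
    have := res_u_pow_mul h n k 1
    rwa [mul_one, res_one h n, zero_add] at this
  rw [mem_Kp_iff h n, e, ZMod.natCast_eq_zero_iff]

theorem u_pow_mul_mem (h : KD K u) (n : ℕ) [NeZero n] {y : K} (hy : y ∈ Kp K n) (k : ℕ) :
    u ^ k * y ∈ Kp K n ↔ n ∣ k := by
  rw [mem_Kp_iff h n, res_u_pow_mul h n, (mem_Kp_iff h n y).1 hy, zero_add,
    ZMod.natCast_eq_zero_iff]
-- END d6

-- BEGIN d7
omit [TopologicalSpace K] [IsTopologicalGroup K] [CompactSpace K] [T2Space K]
  [SecondCountableTopology K] [BorelSpace K] [m.IsHaarMeasure] [IsProbabilityMeasure m] in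
private theorem d7_ac (n : ℕ) : ((n : ℝ≥0∞) • m.restrict (Kp K n)) ≪ m :=
  (Measure.smul_absolutelyContinuous).trans Measure.restrict_le_self.absolutelyContinuous

theorem quasi_pow (h : KD K u) (n : ℕ) [NeZero n] :
    Measure.QuasiMeasurePreserving (fun y : K => y ^ n) m m := by
  refine ⟨(continuous_pow n).measurable, ?_⟩
  rw [map_pow m h n]
  exact d7_ac m n

theorem int_pow (h : KD K u) (n : ℕ) [NeZero n] {V : Type*} [NormedAddCommGroup V]
    [NormedSpace ℝ V] {g : K → V} (hg : AEStronglyMeasurable g m) :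
    ∫ y, g (y ^ n) ∂m = (n : ℝ) • ∫ y in Kp K n, g y ∂m := by
  have hm : AEMeasurable (fun y : K => y ^ n) m := (continuous_pow n).measurable.aemeasurable
  have hg2 : AEStronglyMeasurable g (m.map (fun y : K => y ^ n)) := by
    rw [map_pow m h n]
    exact hg.mono_ac (d7_ac m n)
  rw [← integral_map hm hg2, map_pow m h n, integral_smul_measure, ENNReal.toReal_natCast]

theorem lint_pow (h : KD K u) (n : ℕ) [NeZero n] {g : K → ℝ≥0∞} (hg : AEMeasurable g m) :
    ∫⁻ y, g (y ^ n) ∂m = (n : ℝ≥0∞) * ∫⁻ y in Kp K n, g y ∂m := by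
  have hm : AEMeasurable (fun y : K => y ^ n) m := (continuous_pow n).measurable.aemeasurable
  have hg2 : AEMeasurable g (m.map (fun y : K => y ^ n)) := by
    rw [map_pow m h n]
    exact hg.mono_ac (d7_ac m n)
  rw [← lintegral_map' hg2 hm, map_pow m h n, lintegral_smul_measure, smul_eq_mul]
-- END d7

-- BEGIN d8
/-- PROOF. `y ↦ y ^ n` is a homeomorphism of the compact space `K` onto `Kp K n` (`pow_injective`). -/
theorem continuousOn_rt (h : KD K u) {n : ℕ} (hn : 1 ≤ n) : ContinuousOn (rt n) (Kp K n) := by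
  have hemb : Topology.IsClosedEmbedding (fun y : K => y ^ n) :=
    (continuous_pow n).isClosedEmbedding (pow_injective h hn)
  rw [continuousOn_iff_continuous_domRestrict]
  have h1 : (Kp K n).domRestrict (rt n) =
      fun z => (hemb.isEmbedding.toHomeomorph.symm ⟨z.1, z.2⟩ : K) := by
    funext z
    obtain ⟨z, hz⟩ := z
    obtain ⟨x, rfl⟩ := hz
    have h2 : (⟨(fun y : K => y ^ n) x, ⟨x, rfl⟩⟩ : Set.range fun y : K => y ^ n) =
        hemb.isEmbedding.toHomeomorph x := rfl
    have h3 : hemb.isEmbedding.toHomeomorph.symm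
        (⟨(fun y : K => y ^ n) x, ⟨x, rfl⟩⟩ : Set.range fun y : K => y ^ n) = x := by
      rw [h2, Homeomorph.symm_apply_apply]
    exact (rt_pow h hn x).trans h3.symm
  rw [h1]
  exact hemb.isEmbedding.toHomeomorph.symm.continuous.comp
    (Continuous.subtype_mk continuous_subtype_val _)

theorem measurable_rt (h : KD K u) {n : ℕ} (hn : 1 ≤ n) : Measurable (rt n : K → K) := by
  have hcl : IsClosed (Kp K n) := (isCompact_range (continuous_pow n)).isClosed
  refine measurable_of_restrict_of_restrict_compl hcl.measurableSet ?_ ?_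
  · exact (continuousOn_iff_continuous_domRestrict.1 (continuousOn_rt h hn)).measurable
  · have h1 : (Kp K n)ᶜ.domRestrict (rt n : K → K) = fun _ => 1 := by
      funext z
      have hz : ¬ ∃ x : K, x ^ n = z.1 := z.2
      rw [Set.domRestrict_apply, rt, dif_neg hz]
    rw [h1]
    exact measurable_const

theorem map_rt (h : KD K u) (n : ℕ) [NeZero n] :
    (n : ℝ≥0∞) • (m.restrict (Kp K n)).map (rt n) = m := by
  have hn : 1 ≤ n := Nat.one_le_iff_ne_zero.2 (NeZero.ne n)
  rw [← Measure.map_smul, ← map_pow m h n,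
    Measure.map_map (measurable_rt h hn) (continuous_pow n).measurable]
  have h1 : ((rt n : K → K) ∘ fun y : K => y ^ n) = id := by
    funext x
    exact rt_pow h hn x
  rw [h1, Measure.map_id]
-- END d8

-- BEGIN d9
/-- every `y` is uniquely `u ^ j * x ^ n`, `0 ≤ j < n` -/
theorem decomp (h : KD K u) (n : ℕ) [NeZero n] (y : K) :
    (u⁻¹) ^ (res u n y).val * y ∈ Kp K n ∧
      u ^ (res u n y).val * rt n ((u⁻¹) ^ (res u n y).val * y) ^ n = y := by
  have hinv : res u n u⁻¹ = -1 := by
    have h1 := res_mul h n u u⁻¹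
    rw [mul_inv_cancel, res_one h, res_u h] at h1
    linear_combination -h1
  have hmem : (u⁻¹) ^ (res u n y).val * y ∈ Kp K n := by
    rw [mem_Kp_iff h n, res_mul h, res_pow h, hinv, ZMod.natCast_zmod_val]
    ring
  refine ⟨hmem, ?_⟩
  rw [pow_rt hmem, ← mul_assoc, ← mul_pow, mul_inv_cancel, one_pow, one_mul]

theorem decomp_unique (h : KD K u) (n : ℕ) [NeZero n] {j : ℕ} (hj : j < n) (x : K) :
    (res u n (u ^ j * x ^ n)).val = j ∧ rt n ((u⁻¹) ^ j * (u ^ j * x ^ n)) = x := by
  constructor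
  · rw [res_u_pow_mul h, res_pow h, CharP.cast_eq_zero, zero_mul, zero_add,
      ZMod.val_natCast_of_lt hj]
  · rw [← mul_assoc, ← mul_pow, inv_mul_cancel, one_pow, one_mul,
      rt_pow h (Nat.one_le_iff_ne_zero.mpr (NeZero.ne n))]

/-- Fubini for this decomposition: the pieces `u ^ j Kp` are disjoint, of measure `1 / n`. In particular a property
holds for almost all `y` if for all `j < n` it holds for almost all `x` at `u ^ j * x ^ n`. -/
theorem ae_of_decomp (h : KD K u) (n : ℕ) [NeZero n] {P : K → Prop}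
    (hP : ∀ j < n, ∀ᵐ x ∂m, P (u ^ j * x ^ n)) : ∀ᵐ y ∂m, P y := by
  have hn : 1 ≤ n := Nat.one_le_iff_ne_zero.mpr (NeZero.ne n)
  have hn0 : (n : ℝ≥0∞) ≠ 0 := by
    rw [Ne, Nat.cast_eq_zero]
    exact NeZero.ne n
  have h1 : ∀ j < n, ∀ᵐ y ∂m, (u⁻¹) ^ j * y ∈ Kp K n → P y := by
    intro j hj
    have h2 : ∀ᵐ x ∂((n : ℝ≥0∞) • (m.restrict (Kp K n)).map (rt n)), P (u ^ j * x ^ n) := by
      rw [map_rt m h n]
      exact hP j hj
    have h3 : ∀ᵐ x ∂((m.restrict (Kp K n)).map (rt n)), P (u ^ j * x ^ n) :=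
      (Measure.absolutelyContinuous_smul hn0).ae_le h2
    have h4 : ∀ᵐ z ∂(m.restrict (Kp K n)), P (u ^ j * rt n z ^ n) :=
      ae_of_ae_map (measurable_rt h hn).aemeasurable h3
    rw [ae_restrict_iff' (isClopen_Kp h n).2.measurableSet] at h4
    have h5 : ∀ᵐ z ∂m, z ∈ Kp K n → P (u ^ j * z) := by
      filter_upwards [h4] with z hz hzK
      have := hz hzK
      rwa [pow_rt hzK] at this
    have h6 := (measurePreserving_mul_left m ((u⁻¹) ^ j)).quasiMeasurePreserving.ae h5
    filter_upwards [h6] with y hy hyK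
    have := hy hyK
    rwa [← mul_assoc, ← mul_pow, mul_inv_cancel, one_pow, one_mul] at this
  have h7 : ∀ᵐ y ∂m, ∀ j < n, (u⁻¹) ^ j * y ∈ Kp K n → P y := by
    rw [ae_all_iff]
    intro j
    by_cases hj : j < n
    · filter_upwards [h1 j hj] with y hy _
      exact hy
    · exact Filter.Eventually.of_forall fun y h' => absurd h' hj
  filter_upwards [h7] with y hy
  exact hy _ (ZMod.val_lt _) (decomp h n y).1
-- END d9

end Pool.Agent.S7K
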