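import Pool.Agent.S7K.K3

/-!
# S7, block K, part 4: independence of the residues, the dual Turan-Kubilius inequality, thin sets
-/

set_option autoImplicit false

namespace Pool.Agent.S7K

open MeasureTheory Filter Topology
open scoped ENNReal

variable {K : Type*} [CommGroup K] [TopologicalSpace K] {u : K}
  [IsTopologicalGroup K] [CompactSpace K] [T2Space K] [SecondCountableTopology K]
  [MeasurableSpace K] [BorelSpace K] (m : Measure K) [m.IsHaarMeasure] [IsProbabilityMeasure m]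

-- BEGIN e1
omit [IsTopologicalGroup K] [CompactSpace K] [T2Space K] [SecondCountableTopology K] in
private theorem e1_set (h : KD K u) (S : Finset Nat.Primes) (j : (q : Nat.Primes) → ZMod q) :
    haveI : ∀ q : Nat.Primes, NeZero (q : ℕ) := fun q => ⟨q.2.ne_zero⟩
    MeasurableSet {y : K | ∀ q ∈ S, res u (q : ℕ) y = j q} := by
  have : ∀ q : Nat.Primes, NeZero (q : ℕ) := fun q => ⟨q.2.ne_zero⟩
  have h1 : {y : K | ∀ q ∈ S, res u (q : ℕ) y = j q} =
      ⋂ q ∈ S, {y : K | res u (q : ℕ) y = j q} := by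
    ext y
    simp
  rw [h1]
  exact Finset.measurableSet_biInter S fun q _ => (isClopen_res h (q : ℕ) (j q)).isClosed.measurableSet

omit [CompactSpace K] [T2Space K] [SecondCountableTopology K] [IsProbabilityMeasure m] in
private theorem e1_shift (h : KD K u) (S : Finset Nat.Primes) (j : (q : Nat.Primes) → ZMod q) :
    haveI : ∀ q : Nat.Primes, NeZero (q : ℕ) := fun q => ⟨q.2.ne_zero⟩
    m {y : K | ∀ q ∈ S, res u (q : ℕ) y = j q} = m {y : K | ∀ q ∈ S, res u (q : ℕ) y = 0} := by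
  have : ∀ q : Nat.Primes, NeZero (q : ℕ) := fun q => ⟨q.2.ne_zero⟩
  obtain ⟨k, hk⟩ := Nat.chineseRemainderOfFinset (fun q : Nat.Primes => (j q).val)
    (fun q : Nat.Primes => (q : ℕ)) S (fun q _ => q.2.ne_zero) (fun q _ r _ hqr =>
      (Nat.coprime_primes q.2 r.2).2 fun he => hqr (Subtype.ext he))
  have hk' : ∀ q ∈ S, ((k : ℕ) : ZMod q) = j q := fun q hq => by
    have h1 := (ZMod.natCast_eq_natCast_iff _ _ _).2 (hk q hq)
    rw [h1, ZMod.natCast_zmod_val]
  have h2 : {y : K | ∀ q ∈ S, res u (q : ℕ) y = 0} =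
      (fun y => u ^ k * y) ⁻¹' {y : K | ∀ q ∈ S, res u (q : ℕ) y = j q} := by
    ext y
    simp only [Set.mem_ofPred_eq, Set.mem_preimage]
    refine forall₂_congr fun q hq => ?_
    rw [res_u_pow_mul h, hk' q hq]
    constructor
    · intro h0
      rw [h0, zero_add]
    · intro h0
      exact add_eq_right.1 h0
  rw [h2, measure_preimage_mul]

omit [CompactSpace K] [T2Space K] [SecondCountableTopology K] in
private theorem e1_meas (h : KD K u) (S : Finset Nat.Primes) (j : (q : Nat.Primes) → ZMod q) :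
    haveI : ∀ q : Nat.Primes, NeZero (q : ℕ) := fun q => ⟨q.2.ne_zero⟩
    m {y : K | ∀ q ∈ S, res u (q : ℕ) y = j q} = (∏ q ∈ S, ((q : ℕ) : ℝ≥0∞))⁻¹ := by
  have : ∀ q : Nat.Primes, NeZero (q : ℕ) := fun q => ⟨q.2.ne_zero⟩
  classical
  set r : K → ((q : S) → ZMod ((q : Nat.Primes) : ℕ)) := fun y q => res u ((q : Nat.Primes) : ℕ) y
    with hr
  set ex : ((q : S) → ZMod ((q : Nat.Primes) : ℕ)) → ((q : Nat.Primes) → ZMod (q : ℕ)) :=
    fun b q => if hq : q ∈ S then b ⟨q, hq⟩ else 0 with hex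
  have hpre : ∀ b : (q : S) → ZMod ((q : Nat.Primes) : ℕ), r ⁻¹' {b} =
      {y : K | ∀ q ∈ S, res u (q : ℕ) y = ex b q} := by
    intro b
    ext y
    simp only [Set.mem_preimage, Set.mem_singleton_iff, Set.mem_ofPred_eq]
    constructor
    · intro h0 q hq
      rw [hex]
      simp only
      rw [dif_pos hq, ← h0]
    · intro h0
      funext q
      have := h0 q q.2
      rw [hex] at this
      simp only at this
      rw [dif_pos q.2] at this
      exact this
  have hsum := sum_measure_preimage_singleton (μ := m)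
    (Finset.univ : Finset ((q : S) → ZMod ((q : Nat.Primes) : ℕ))) (f := r) (fun b _ => by
      rw [hpre b]; exact e1_set h S _)
  have hall : ∀ b ∈ (Finset.univ : Finset ((q : S) → ZMod ((q : Nat.Primes) : ℕ))), m (r ⁻¹' {b}) =
      m {y : K | ∀ q ∈ S, res u (q : ℕ) y = 0} := by
    intro b _
    rw [hpre b]
    exact e1_shift m h S _
  rw [Finset.sum_congr rfl hall, Finset.sum_const, Finset.card_univ, Finset.coe_univ,
    Set.preimage_univ, measure_univ, nsmul_eq_mul] at hsum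
  have hcard : ((Fintype.card ((q : S) → ZMod ((q : Nat.Primes) : ℕ)) : ℕ) : ℝ≥0∞) =
      ∏ q ∈ S, ((q : ℕ) : ℝ≥0∞) := by
    rw [Fintype.card_pi]
    push_cast
    rw [← Finset.prod_coe_sort S (fun q : Nat.Primes => ((q : ℕ) : ℝ≥0∞))]
    refine Finset.prod_congr rfl fun q _ => ?_
    rw [ZMod.card]
  rw [hcard] at hsum
  rw [e1_shift m h S j]
  exact ENNReal.eq_inv_of_mul_eq_one_left (by rw [mul_comm]; exact hsum)

/-- The indicator function `G` of `{y | ∀ q ∈ S, res_q y = j q}` is a linear combination of characters `χ` with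
`χ ^ (∏ q) = 1`, with coefficient `∏ 1/q` at `χ = 1`. So `∫ λ G dm = (∏ 1/q) ∫ λ dm` for all characters `λ` such that
`λ ^ (∏ q) = 1 ⇒ λ = 1`. PROOF. Induction on `S`, `ind_res`; `θ_q ^ k θ_{q'} ^ {k'} … = 1` only for `k = k' = … = 0`
(distinct primes). -/
theorem int_ch_res (h : KD K u) (S : Finset Nat.Primes) (j : (q : Nat.Primes) → ZMod q)
    (l : PontryaginDual K) (hl : l ^ (∏ q ∈ S, (q : ℕ)) = 1 → l = 1) :
    haveI : ∀ q : Nat.Primes, NeZero (q : ℕ) := fun q => ⟨q.2.ne_zero⟩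
    ∫ y in {y | ∀ q ∈ S, res u (q : ℕ) y = j q}, ch l y ∂m =
      (∏ q ∈ S, ((q : ℕ) : ℂ))⁻¹ * ∫ y, ch l y ∂m := by
  have : ∀ q : Nat.Primes, NeZero (q : ℕ) := fun q => ⟨q.2.ne_zero⟩
  have hset := e1_set h S j
  set A : Set K := {y : K | ∀ q ∈ S, res u (q : ℕ) y = j q} with hA
  by_cases hl1 : l = 1
  · subst hl1
    rw [int_ch_one m, mul_one]
    have h1 : ∫ y in A, ch (1 : PontryaginDual K) y ∂m = ∫ y in A, (1 : ℂ) ∂m :=
      integral_congr_ae (Eventually.of_forall fun y => one_ch y)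
    rw [h1, setIntegral_const, measureReal_def, hA, e1_meas m h S j, ENNReal.toReal_inv,
      ENNReal.toReal_prod]
    simp
  · have hN : l ^ (∏ q ∈ S, (q : ℕ)) ≠ 1 := fun h0 => hl1 (hl h0)
    set N : ℕ := ∏ q ∈ S, (q : ℕ) with hNdef
    obtain ⟨a, ha⟩ : ∃ a : K, ch (l ^ N) a ≠ 1 := by
      by_contra hcon
      push Not at hcon
      apply hN
      ext y
      have := hcon y
      unfold ch at this
      rw [this]
      rfl
    have hinv : (fun y => a ^ N * y) ⁻¹' A = A := by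
      ext y
      simp only [hA, Set.mem_preimage, Set.mem_ofPred_eq]
      refine forall₂_congr fun q hq => ?_
      have hd : (N : ZMod (q : ℕ)) = 0 :=
        (ZMod.natCast_eq_zero_iff _ _).2 (hNdef ▸ Finset.dvd_prod_of_mem _ hq)
      rw [res_mul h, res_pow h, hd, zero_mul, zero_add]
    have h1 : ∫ y in A, ch l y ∂m = ch (l ^ N) a * ∫ y in A, ch l y ∂m := by
      calc ∫ y in A, ch l y ∂m = ∫ y, A.indicator (ch l) y ∂m := (integral_indicator hset).symm
        _ = ∫ y, A.indicator (ch l) (a ^ N * y) ∂m :=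
            (integral_mul_left_eq_self (μ := m) (fun y => A.indicator (ch l) y) (a ^ N)).symm
        _ = ∫ y, ch (l ^ N) a * A.indicator (ch l) y ∂m := by
            congr 1
            ext y
            have h2 : a ^ N * y ∈ A ↔ y ∈ A := by
              conv_rhs => rw [← hinv]
              rfl
            by_cases hy : y ∈ A
            · rw [Set.indicator_of_mem (h2.2 hy), Set.indicator_of_mem hy, ch_mul, ← pow_ch]
            · rw [Set.indicator_of_notMem (fun h0 => hy (h2.1 h0)), Set.indicator_of_notMem hy,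
                mul_zero]
        _ = ch (l ^ N) a * ∫ y in A, ch l y ∂m := by
            rw [integral_const_mul, integral_indicator hset]
    have h2 : ∫ y in A, ch l y ∂m = 0 := by
      have h3 : (ch (l ^ N) a - 1) * ∫ y in A, ch l y ∂m = 0 := by
        rw [sub_mul, one_mul, ← h1, sub_self]
      rcases mul_eq_zero.1 h3 with h4 | h4
      · exact absurd (sub_eq_zero.1 h4) ha
      · exact h4
    rw [h2, int_ch m hl1, mul_zero]
-- END e1

-- BEGIN e2
omit [IsTopologicalGroup K] [CompactSpace K] [T2Space K] [SecondCountableTopology K]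
  [MeasurableSpace K] [BorelSpace K] in
private theorem e2_sg_le (Λ : Subgroup (PontryaginDual K)) :
    sg (Λ : Set (PontryaginDual K)) ≤
      MeasurableSpace.comap (fun (y : K) (l : Λ) => (l : PontryaginDual K) y)
        (MeasurableSpace.pi (m := fun _ => borel Circle)) := by
  refine iSup₂_le fun χ hχ => ?_
  rintro s ⟨t, ht, rfl⟩
  refine ⟨(fun f : Λ → Circle => f ⟨χ, hχ⟩) ⁻¹' t, ?_, rfl⟩
  exact @measurable_pi_apply Λ (fun _ => Circle) (fun _ => borel Circle) (⟨χ, hχ⟩ : Λ) t ht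

/-- (IND): the residues modulo the primes of `S` are independent, uniformly distributed and independent from the
sigma-algebra of `Λ`, if `Λ` is a subgroup without `∏_{q ∈ S} q`-torsion. PROOF. Push forward by
`ev : K → (Λ → Circle)` (a compact metrizable space, `Λ` is countable by `countable_dual`): the two measures
`ev_* (m restricted to {res_q = j q})` and `(∏ 1/q) ev_* m` agree on the functions `λ ∈ Λ` (`int_ch_res`), which
separate points, so they are equal by `ext_sw`; `sg Λ` is the pull back of the Borel sigma-algebra. -/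
theorem ind_res_sg (h : KD K u) (S : Finset Nat.Primes) (j : (q : Nat.Primes) → ZMod q)
    (Λ : Subgroup (PontryaginDual K)) (hΛ : ∀ l ∈ Λ, l ^ (∏ q ∈ S, (q : ℕ)) = 1 → l = 1)
    (A : Set K) (hA : MeasurableSet[sg (Λ : Set (PontryaginDual K))] A) :
    haveI : ∀ q : Nat.Primes, NeZero (q : ℕ) := fun q => ⟨q.2.ne_zero⟩
    m (A ∩ {y | ∀ q ∈ S, res u (q : ℕ) y = j q}) = (∏ q ∈ S, ((q : ℕ) : ℝ≥0∞))⁻¹ * m A := by
  have : ∀ q : Nat.Primes, NeZero (q : ℕ) := fun q => ⟨q.2.ne_zero⟩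
  have : Countable (PontryaginDual K) := countable_dual
  have : Countable Λ := Subtype.countable
  let : MeasurableSpace Circle := borel Circle
  have : BorelSpace Circle := ⟨rfl⟩
  obtain ⟨B, hB, rfl⟩ := e2_sg_le Λ _ hA
  set ev : K → (Λ → Circle) := fun y l => (l : PontryaginDual K) y with hev
  have hevc : Continuous ev := continuous_pi fun l => (l : PontryaginDual K).continuous_toFun
  have hevm : Measurable ev := hevc.measurable
  set R : Set K := {y | ∀ q ∈ S, res u (q : ℕ) y = j q} with hR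
  have hRm : MeasurableSet R := by
    have : R = ⋂ q ∈ S, {y | res u (q : ℕ) y = j q} := by
      ext y
      simp [hR]
    rw [this]
    exact Finset.measurableSet_biInter _ fun q _ => (isClopen_res h (q : ℕ) (j q)).1.measurableSet
  have hprod : (∏ q ∈ S, ((q : ℕ) : ℝ≥0∞)) ≠ 0 := by
    rw [Finset.prod_ne_zero_iff]
    intro q _
    exact_mod_cast q.2.ne_zero
  have hctop : (∏ q ∈ S, ((q : ℕ) : ℝ≥0∞))⁻¹ ≠ ⊤ := ENNReal.inv_ne_top.2 hprod
  set c : ℝ≥0∞ := (∏ q ∈ S, ((q : ℕ) : ℝ≥0∞))⁻¹ with hc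
  have hcr : ((c.toReal : ℝ) : ℂ) = (∏ q ∈ S, ((q : ℕ) : ℂ))⁻¹ := by
    rw [hc, ENNReal.toReal_inv, ENNReal.toReal_prod]
    push_cast
    simp
  have : IsFiniteMeasure ((m.restrict R).map ev) := inferInstance
  have : IsFiniteMeasure (c • m.map ev) := Measure.smul_finite _ hctop
  have key : (m.restrict R).map ev = c • m.map ev := by
    refine ext_sw {f : C(Λ → Circle, Circle) | ∃ l : Λ, ∀ y : K, f (ev y) = (l : PontryaginDual K) y}
      ?_ ?_ ?_ ?_ ?_
    · exact ⟨1, fun y => rfl⟩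
    · rintro f ⟨l, hf⟩ g ⟨l', hg⟩
      refine ⟨l * l', fun y => ?_⟩
      rw [ContinuousMap.mul_apply, hf, hg]
      rfl
    · rintro f ⟨l, hf⟩
      refine ⟨l⁻¹, fun y => ?_⟩
      rw [ContinuousMap.inv_apply, hf]
      rfl
    · intro x y hxy
      funext l
      exact hxy ⟨fun g => g l, continuous_apply l⟩ ⟨l, fun y => rfl⟩
    · rintro f ⟨l, hf⟩
      have hfc : Continuous fun x : Λ → Circle => ((f x : Circle) : ℂ) :=
        continuous_subtype_val.comp f.continuous
      rw [integral_map hevm.aemeasurable hfc.aestronglyMeasurable, integral_smul_measure,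
        integral_map hevm.aemeasurable hfc.aestronglyMeasurable]
      have h1 : ∀ y, ((f (ev y) : Circle) : ℂ) = ch (l : PontryaginDual K) y := fun y => by
        rw [hf]; rfl
      simp only [h1]
      rw [int_ch_res m h S j (l : PontryaginDual K) (hΛ _ l.2), Complex.real_smul, hcr]
  have h2 := congrArg (fun μ : Measure (Λ → Circle) => μ B) key
  simp only [Measure.smul_apply, smul_eq_mul] at h2
  rw [Measure.map_apply hevm hB, Measure.map_apply hevm hB, Measure.restrict_apply (hevm hB)] at h2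
  exact h2
-- END e2

-- BEGIN e3
/-- the sigma-algebra of `Λ` is invariant under the rotation and contained in the Borel sigma-algebra -/
theorem sg_le (Λ : Set (PontryaginDual K)) : sg Λ ≤ ‹MeasurableSpace K› := by
  refine iSup₂_le fun χ _ => ?_
  rw [MeasurableSpace.comap_le_iff_le_map, BorelSpace.measurable_eq (α := K)]
  exact (map_continuous χ).borel_measurable

theorem sg_rot (Λ : Set (PontryaginDual K)) (w : K) (A : Set K) (hA : MeasurableSet[sg Λ] A) :
    MeasurableSet[sg Λ] ((fun y => w * y) ⁻¹' A) := by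
  have h : MeasurableSpace.comap (fun y => w * y) (sg Λ) ≤ sg Λ := by
    unfold sg
    simp only [MeasurableSpace.comap_iSup, MeasurableSpace.comap_comp]
    refine iSup₂_le fun χ hχ => le_trans ?_ (le_iSup₂ χ hχ)
    have h1 : ((fun y => χ y) ∘ fun y => w * y) = (fun z : Circle => χ w * z) ∘ fun y => χ y := by
      funext y
      simp
    rw [h1, ← MeasurableSpace.comap_comp]
    refine MeasurableSpace.comap_mono ?_
    rw [MeasurableSpace.comap_le_iff_le_map]
    exact (continuous_const_mul (χ w)).borel_measurable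
  exact h _ ⟨A, hA, rfl⟩
-- END e3

-- BEGIN e4
omit [IsTopologicalGroup K] [CompactSpace K] [T2Space K] [SecondCountableTopology K]
  [MeasurableSpace K] [BorelSpace K] in
private theorem e4_rs {q : ℕ} [NeZero q] (y : K) : rs u q y = (res u q y).val := by
  unfold rs
  rw [dif_neg (NeZero.ne q)]

omit [IsTopologicalGroup K] [CompactSpace K] [T2Space K] [SecondCountableTopology K]
  [MeasurableSpace K] [BorelSpace K] in
theorem rs_lt {q : ℕ} (hq : 0 < q) (y : K) : rs u q y < q := by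
  haveI : NeZero q := ⟨hq.ne'⟩
  rw [e4_rs]
  exact ZMod.val_lt _

omit [IsTopologicalGroup K] [CompactSpace K] [T2Space K] [SecondCountableTopology K]
  [MeasurableSpace K] [BorelSpace K] in
theorem rs_u_pow_mul (h : KD K u) {q : ℕ} (hq : 0 < q) (k : ℕ) (y : K) :
    rs u q (u ^ k * y) = (rs u q y + k) % q := by
  haveI : NeZero q := ⟨hq.ne'⟩
  rw [e4_rs, e4_rs, res_u_pow_mul h q, ZMod.val_add, ZMod.val_natCast, Nat.add_mod_mod]

theorem rs_eq_zero_iff (h : KD K u) {q : ℕ} (hq : 0 < q) (y : K) :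
    rs u q y = 0 ↔ y ∈ Kp K q := by
  haveI : NeZero q := ⟨hq.ne'⟩
  rw [e4_rs, mem_Kp_iff h q, ZMod.val_eq_zero]

theorem measurable_rs (h : KD K u) (q : ℕ) : Measurable (rs u q : K → ℕ) := by
  rcases Nat.eq_zero_or_pos q with rfl | hq
  · have : (rs u 0 : K → ℕ) = fun _ => 0 := by
      funext y
      unfold rs
      rw [dif_pos rfl]
    rw [this]
    exact measurable_const
  · haveI : NeZero q := ⟨hq.ne'⟩
    letI : MeasurableSpace (ZMod q) := ⊤
    have e : (rs u q : K → ℕ) = fun y => (res u q y).val := by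
      funext y
      exact e4_rs y
    rw [e]
    exact (measurable_from_top (f := fun j : ZMod q => j.val)).comp (measurable_res h q)

/-- (IND) for residues in `ℕ`: `ind_res_sg` -/
theorem ind_rs_sg (h : KD K u) (S : Finset ℕ) (hS : ∀ q ∈ S, q.Prime) (j : ℕ → ℕ)
    (hj : ∀ q ∈ S, j q < q) (Λ : Subgroup (PontryaginDual K))
    (hΛ : ∀ l ∈ Λ, l ^ (∏ q ∈ S, q) = 1 → l = 1)
    (A : Set K) (hA : MeasurableSet[sg (Λ : Set (PontryaginDual K))] A) :
    m (A ∩ {y | ∀ q ∈ S, rs u q y = j q}) = (∏ q ∈ S, (q : ℝ≥0∞))⁻¹ * m A := by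
  classical
  haveI : ∀ q : Nat.Primes, NeZero (q : ℕ) := fun q => ⟨q.2.ne_zero⟩
  have hp1 : ∏ q ∈ (S.subtype Nat.Prime : Finset Nat.Primes), (q : ℕ) = ∏ q ∈ S, q :=
    Finset.prod_subtype_of_mem (fun q : ℕ => q) hS
  have hp2 : ∏ q ∈ (S.subtype Nat.Prime : Finset Nat.Primes), ((q : ℕ) : ℝ≥0∞)
      = ∏ q ∈ S, (q : ℝ≥0∞) :=
    Finset.prod_subtype_of_mem (fun q : ℕ => (q : ℝ≥0∞)) hS
  have key := ind_res_sg m h (S.subtype Nat.Prime : Finset Nat.Primes)
    (fun q => ((j (q : ℕ) : ℕ) : ZMod (q : ℕ))) Λ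
    (fun l hl hl1 => hΛ l hl (by rw [← hp1]; exact hl1)) A hA
  have hset : {y : K | ∀ q ∈ S, rs u q y = j q} =
      {y : K | ∀ q ∈ (S.subtype Nat.Prime : Finset Nat.Primes),
        res u (q : ℕ) y = ((j (q : ℕ) : ℕ) : ZMod (q : ℕ))} := by
    ext y
    simp only [Set.mem_setOf_eq]
    constructor
    · intro hy q hq
      have hqS : (q : ℕ) ∈ S := Finset.mem_subtype.1 hq
      have h1 := hy q hqS
      rw [e4_rs] at h1
      rw [← h1, ZMod.natCast_zmod_val]
    · intro hy q hq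
      have h1 := hy ⟨q, hS q hq⟩ (Finset.mem_subtype.2 hq)
      haveI : NeZero q := ⟨(hS q hq).ne_zero⟩
      rw [e4_rs]
      have h2 : res u q y = ((j q : ℕ) : ZMod q) := h1
      rw [h2, ZMod.val_natCast_of_lt (hj q hq)]
  rw [hset]
  exact key.trans (congrArg (fun z => z⁻¹ * m A) hp2)
-- END e4

-- BEGIN f1
private theorem f1_meas (h : KD K u) {q : ℕ} (hq : q.Prime) : MeasurableSet (Kp K q) := by
  have : NeZero q := ⟨hq.ne_zero⟩
  exact (isClopen_Kp h q).isOpen.measurableSet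

private theorem f1_one (h : KD K u) {q : ℕ} (hq : q.Prime) :
    ∫ y, (Kp K q).indicator (fun _ => (1 : ℝ)) y ∂m = (q : ℝ)⁻¹ := by
  have : NeZero q := ⟨hq.ne_zero⟩
  rw [integral_indicator_const (1 : ℝ) (f1_meas h hq), smul_eq_mul, mul_one, measureReal_def,
    measure_Kp m h q, ENNReal.toReal_inv, ENNReal.toReal_natCast]

private theorem f1_two (h : KD K u) {q r : ℕ} (hq : q.Prime) (hr : r.Prime) (hne : q ≠ r) :
    ∫ y, (Kp K q ∩ Kp K r).indicator (fun _ => (1 : ℝ)) y ∂m = ((q : ℝ) * r)⁻¹ := by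
  classical
  have h1 := ind_rs_sg m h {q, r} (by
      intro p hp
      rcases Finset.mem_insert.mp hp with h2 | h2
      · rw [h2]; exact hq
      · rw [Finset.mem_singleton.mp h2]; exact hr) (fun _ => 0) (by
      intro p hp
      rcases Finset.mem_insert.mp hp with h2 | h2
      · rw [h2]; exact hq.pos
      · rw [Finset.mem_singleton.mp h2]; exact hr.pos) ⊥ (by
      intro l hl _
      exact Subgroup.mem_bot.mp hl) Set.univ (@MeasurableSet.univ _ (sg _))
  rw [measure_univ, mul_one, Finset.prod_pair hne, Set.univ_inter] at h1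
  have h2 : {y : K | ∀ p ∈ ({q, r} : Finset ℕ), rs u p y = 0} = Kp K q ∩ Kp K r := by
    ext y
    show (∀ p ∈ ({q, r} : Finset ℕ), rs u p y = 0) ↔ y ∈ Kp K q ∩ Kp K r
    rw [Set.mem_inter_iff, ← rs_eq_zero_iff h hq.pos, ← rs_eq_zero_iff h hr.pos]
    constructor
    · intro h3
      exact ⟨h3 q (Finset.mem_insert_self _ _),
        h3 r (Finset.mem_insert_of_mem (Finset.mem_singleton_self _))⟩
    · rintro ⟨h3, h4⟩ p hp
      rcases Finset.mem_insert.mp hp with h5 | h5
      · rw [h5]; exact h3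
      · rw [Finset.mem_singleton.mp h5]; exact h4
  rw [h2] at h1
  rw [integral_indicator_const (1 : ℝ) ((f1_meas h hq).inter (f1_meas h hr)), smul_eq_mul, mul_one,
    measureReal_def, h1, ENNReal.toReal_inv, ENNReal.toReal_mul, ENNReal.toReal_natCast,
    ENNReal.toReal_natCast]

/-- the kernel `q 1[y ∈ Kp q] - 1` -/
private noncomputable def f1_k (K : Type*) [CommGroup K] (q : ℕ) (y : K) : ℝ :=
  (q : ℝ) * (Kp K q).indicator (fun _ => (1 : ℝ)) y - 1

private theorem f1_kk (h : KD K u) {q r : ℕ} (hq : q.Prime) (hr : r.Prime) :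
    Integrable (fun y => f1_k K q y * f1_k K r y) m ∧
      ∫ y, f1_k K q y * f1_k K r y ∂m = if q = r then (q : ℝ) - 1 else 0 := by
  have e1 : ∀ y : K, f1_k K q y * f1_k K r y =
      ((q : ℝ) * r * (Kp K q ∩ Kp K r).indicator (fun _ => (1 : ℝ)) y -
        (q : ℝ) * (Kp K q).indicator (fun _ => (1 : ℝ)) y) -
        ((r : ℝ) * (Kp K r).indicator (fun _ => (1 : ℝ)) y - 1) := by
    intro y
    unfold f1_k
    by_cases h1 : y ∈ Kp K q
    · by_cases h2 : y ∈ Kp K r
      · rw [Set.indicator_of_mem h1, Set.indicator_of_mem h2, Set.indicator_of_mem (show y ∈ Kp K q ∩ Kp K r from ⟨h1, h2⟩)]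
        ring
      · rw [Set.indicator_of_mem h1, Set.indicator_of_notMem h2,
          Set.indicator_of_notMem fun h3 => h2 h3.2]
        ring
    · rw [Set.indicator_of_notMem h1, Set.indicator_of_notMem (s := Kp K q ∩ Kp K r)
        fun h3 => h1 h3.1]
      ring
  have i1 : Integrable (fun y => (q : ℝ) * r * (Kp K q ∩ Kp K r).indicator
      (fun _ => (1 : ℝ)) y) m :=
    ((integrable_const (1 : ℝ)).indicator ((f1_meas h hq).inter (f1_meas h hr))).const_mul _
  have i2 : Integrable (fun y => (q : ℝ) * (Kp K q).indicator (fun _ => (1 : ℝ)) y) m :=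
    ((integrable_const (1 : ℝ)).indicator (f1_meas h hq)).const_mul _
  have i3 : Integrable (fun y => (r : ℝ) * (Kp K r).indicator (fun _ => (1 : ℝ)) y) m :=
    ((integrable_const (1 : ℝ)).indicator (f1_meas h hr)).const_mul _
  have i4 : Integrable (fun y => (r : ℝ) * (Kp K r).indicator (fun _ => (1 : ℝ)) y - 1) m :=
    i3.sub (integrable_const 1)
  have i6 : Integrable (fun y => (q : ℝ) * r * (Kp K q ∩ Kp K r).indicator (fun _ => (1 : ℝ)) y -
      (q : ℝ) * (Kp K q).indicator (fun _ => (1 : ℝ)) y) m := i1.sub i2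
  have e2 : (fun y => f1_k K q y * f1_k K r y) = fun y =>
      ((q : ℝ) * r * (Kp K q ∩ Kp K r).indicator (fun _ => (1 : ℝ)) y -
        (q : ℝ) * (Kp K q).indicator (fun _ => (1 : ℝ)) y) -
        ((r : ℝ) * (Kp K r).indicator (fun _ => (1 : ℝ)) y - 1) := funext e1
  have hq0 : (q : ℝ) ≠ 0 := Nat.cast_ne_zero.mpr hq.ne_zero
  have hr0 : (r : ℝ) ≠ 0 := Nat.cast_ne_zero.mpr hr.ne_zero
  rw [e2]
  refine ⟨i6.sub i4, ?_⟩
  rw [integral_sub i6 i4, integral_sub i1 i2, integral_sub i3 (integrable_const 1),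
    integral_const_mul, integral_const_mul, integral_const_mul, f1_one m h hq, f1_one m h hr,
    integral_const, probReal_univ, one_smul, mul_inv_cancel₀ hq0, mul_inv_cancel₀ hr0]
  by_cases h1 : q = r
  · rw [if_pos h1, ← h1, Set.inter_self, f1_one m h hq, mul_assoc, mul_inv_cancel₀ hq0]
    ring
  · rw [if_neg h1, f1_two m h hq hr h1, mul_inv_cancel₀ (mul_ne_zero hq0 hr0)]
    ring

private theorem f1_gk (h : KD K u) {g : K → ℝ} (hg : MemLp g 2 m) {q : ℕ} (hq : q.Prime) :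
    Integrable (fun y => g y * f1_k K q y) m ∧
      ∫ y, g y * f1_k K q y ∂m = ∫ y, g (y ^ q) ∂m - ∫ y, g y ∂m := by
  have : NeZero q := ⟨hq.ne_zero⟩
  have hgi : Integrable g m := hg.integrable one_le_two
  have i1 : Integrable (fun y => (q : ℝ) * (Kp K q).indicator g y) m :=
    (hgi.indicator (f1_meas h hq)).const_mul _
  have e1 : (fun y => g y * f1_k K q y) = fun y => (q : ℝ) * (Kp K q).indicator g y - g y := by
    funext y
    unfold f1_k
    by_cases h1 : y ∈ Kp K q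
    · rw [Set.indicator_of_mem h1, Set.indicator_of_mem h1]
      ring
    · rw [Set.indicator_of_notMem h1, Set.indicator_of_notMem h1]
      ring
  rw [e1]
  refine ⟨i1.sub hgi, ?_⟩
  rw [integral_sub i1 hgi, integral_const_mul, integral_indicator (f1_meas h hq),
    int_pow m h q hg.1, smul_eq_mul]

/-- Dual Turan-Kubilius inequality. PROOF. `k_q = q 1[y ∈ Kp q]`: `∫ k_q = 1`, `∫ k_q k_q' = 1` (`q ≠ q'`: the
residues are independent; `ind_res_sg` with `Λ` trivial), `∫ k_q² = q`. So `(k_q - 1)/√(q-1)` are orthonormal in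
`L²(m)`; Bessel: `∑ (∫ g (k_q - 1))² / (q - 1) ≤ ∫ g²`; `∫ g k_q = ∫ g (y ^ q)` (`int_pow`). -/
theorem dual_tk (h : KD K u) {g : K → ℝ} (hg : MemLp g 2 m) (Q : Finset ℕ)
    (hQ : ∀ q ∈ Q, q.Prime) :
    ∑ q ∈ Q, (1 / (q : ℝ)) * (∫ y, g (y ^ q) ∂m - ∫ y, g y ∂m) ^ 2 ≤ ∫ y, g y ^ 2 ∂m := by
  classical
  have hg2 : Integrable (fun y => g y ^ 2) m := hg.integrable_sq
  obtain ⟨a, ha⟩ : ∃ a : ℕ → ℝ, ∀ q, a q = ∫ y, g (y ^ q) ∂m - ∫ y, g y ∂m := ⟨_, fun _ => rfl⟩
  obtain ⟨c, hc⟩ : ∃ c : ℕ → ℝ, ∀ q, c q = a q / q := ⟨_, fun _ => rfl⟩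
  have h0 : 0 ≤ ∫ y, (g y - ∑ q ∈ Q, c q * f1_k K q y) ^ 2 ∂m :=
    integral_nonneg fun y => sq_nonneg _
  have i1 : ∀ q ∈ Q, Integrable (fun y => c q * (g y * f1_k K q y)) m := fun q hq =>
    (f1_gk m h hg (hQ q hq)).1.const_mul _
  have i2 : ∀ q ∈ Q, ∀ r ∈ Q, Integrable (fun y => c q * c r * (f1_k K q y * f1_k K r y)) m :=
    fun q hq r hr => (f1_kk m h (hQ q hq) (hQ r hr)).1.const_mul _
  have i3 : Integrable (fun y => ∑ q ∈ Q, c q * (g y * f1_k K q y)) m :=
    integrable_finsetSum Q i1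
  have i4 : Integrable (fun y => ∑ q ∈ Q, ∑ r ∈ Q, c q * c r * (f1_k K q y * f1_k K r y)) m :=
    integrable_finsetSum Q fun q hq => integrable_finsetSum Q (i2 q hq)
  have i5 : Integrable (fun y => g y ^ 2 - 2 * ∑ q ∈ Q, c q * (g y * f1_k K q y)) m :=
    hg2.sub (i3.const_mul 2)
  have e1 : (fun y => (g y - ∑ q ∈ Q, c q * f1_k K q y) ^ 2) = fun y =>
      (g y ^ 2 - 2 * ∑ q ∈ Q, c q * (g y * f1_k K q y)) +
        ∑ q ∈ Q, ∑ r ∈ Q, c q * c r * (f1_k K q y * f1_k K r y) := by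
    funext y
    have e2 : ∑ q ∈ Q, c q * (g y * f1_k K q y) = g y * ∑ q ∈ Q, c q * f1_k K q y := by
      rw [Finset.mul_sum]
      exact Finset.sum_congr rfl fun q _ => by ring
    have e3 : ∑ q ∈ Q, ∑ r ∈ Q, c q * c r * (f1_k K q y * f1_k K r y) =
        (∑ q ∈ Q, c q * f1_k K q y) * ∑ q ∈ Q, c q * f1_k K q y := by
      rw [Finset.sum_mul_sum]
      exact Finset.sum_congr rfl fun q _ => Finset.sum_congr rfl fun r _ => by ring
    rw [e2, e3]
    ring
  have e4 : ∫ y, (g y - ∑ q ∈ Q, c q * f1_k K q y) ^ 2 ∂m =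
      (∫ y, g y ^ 2 ∂m - 2 * ∑ q ∈ Q, c q * a q) + ∑ q ∈ Q, c q * c q * ((q : ℝ) - 1) := by
    rw [e1, integral_add i5 i4, integral_sub hg2 (i3.const_mul 2),
      integral_const_mul, integral_finsetSum Q i1,
      integral_finsetSum Q fun q hq => integrable_finsetSum Q (i2 q hq)]
    have e5 : ∑ q ∈ Q, ∫ y, c q * (g y * f1_k K q y) ∂m = ∑ q ∈ Q, c q * a q := by
      refine Finset.sum_congr rfl fun q hq => ?_
      rw [integral_const_mul, (f1_gk m h hg (hQ q hq)).2, ha]
    have e6 : ∑ q ∈ Q, ∫ y, ∑ r ∈ Q, c q * c r * (f1_k K q y * f1_k K r y) ∂m =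
        ∑ q ∈ Q, c q * c q * ((q : ℝ) - 1) := by
      refine Finset.sum_congr rfl fun q hq => ?_
      rw [integral_finsetSum Q (i2 q hq), Finset.sum_eq_single_of_mem q hq]
      · rw [integral_const_mul, (f1_kk m h (hQ q hq) (hQ q hq)).2, if_pos rfl]
      · intro r hr hne
        rw [integral_const_mul, (f1_kk m h (hQ q hq) (hQ r hr)).2, if_neg hne.symm, mul_zero]
    rw [e5, e6]
  rw [e4] at h0
  have h1 : ∑ q ∈ Q, (1 / (q : ℝ)) * (∫ y, g (y ^ q) ∂m - ∫ y, g y ∂m) ^ 2 ≤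
      2 * ∑ q ∈ Q, c q * a q - ∑ q ∈ Q, c q * c q * ((q : ℝ) - 1) := by
    rw [Finset.mul_sum, ← Finset.sum_sub_distrib]
    refine Finset.sum_le_sum fun q hq => ?_
    have hq0 : (0 : ℝ) < q := Nat.cast_pos.mpr (hQ q hq).pos
    rw [← ha, hc]
    have h2 : 2 * (a q / q * a q) - a q / q * (a q / q) * ((q : ℝ) - 1) =
        1 / (q : ℝ) * a q ^ 2 + (a q / q) ^ 2 := by
      field_simp
      ring
    rw [h2]
    exact le_add_of_nonneg_right (sq_nonneg _)
  linarith
-- END f1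

-- BEGIN f2
/-- The bad primes of finitely many functions form a thin set. -/
theorem thin_bad (h : KD K u) {ι : Type*} (I : Finset ι) (g : ι → K → ℝ)
    (hg : ∀ i ∈ I, MemLp (g i) 2 m) {δ : ℝ} (hδ : 0 < δ) :
    Thin {q : ℕ | q.Prime ∧ ∃ i ∈ I, δ < |∫ y, g i (y ^ q) ∂m - ∫ y, g i y ∂m|} := by
  classical
  refine ⟨∑ i ∈ I, (∫ y, g i y ^ 2 ∂m) / δ ^ 2, ?_⟩
  intro F hF
  have hδ2 : 0 < δ ^ 2 := by positivity
  have h1 : ∀ q ∈ F, (1 : ℝ) / q ≤ ∑ i ∈ I,
      (if δ < |∫ y, g i (y ^ q) ∂m - ∫ y, g i y ∂m| then (1 : ℝ) / q else 0) := by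
    intro q hq
    obtain ⟨_, i, hi, hi2⟩ := hF q hq
    have hnn : ∀ i ∈ I, 0 ≤ (if δ < |∫ y, g i (y ^ q) ∂m - ∫ y, g i y ∂m|
        then (1 : ℝ) / q else 0) := by
      intro i _
      split_ifs <;> positivity
    have h2 := Finset.single_le_sum hnn hi
    rw [if_pos hi2] at h2
    exact h2
  refine le_trans (Finset.sum_le_sum h1) ?_
  rw [Finset.sum_comm]
  apply Finset.sum_le_sum
  intro i hi
  rw [← Finset.sum_filter, le_div_iff₀ hδ2, Finset.sum_mul]
  refine le_trans ?_ (dual_tk m h (hg i hi)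
    (F.filter fun q => δ < |∫ y, g i (y ^ q) ∂m - ∫ y, g i y ∂m|) ?_)
  · apply Finset.sum_le_sum
    intro q hq
    have h3 := (Finset.mem_filter.mp hq).2
    apply mul_le_mul_of_nonneg_left _ (by positivity)
    rw [← sq_abs (∫ y, g i (y ^ q) ∂m - ∫ y, g i y ∂m)]
    nlinarith
  · intro q hq
    exact (hF q (Finset.mem_filter.mp hq).1).1

theorem Thin.union {A B : Set ℕ} (hA : Thin A) (hB : Thin B) : Thin (A ∪ B) := by
  classical
  obtain ⟨C, hC⟩ := hA
  obtain ⟨D, hD⟩ := hB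
  refine ⟨C + D, ?_⟩
  intro F hF
  rw [← Finset.sum_filter_add_sum_filter_not F (fun q => q ∈ A)]
  apply add_le_add
  · exact hC _ fun q hq => (Finset.mem_filter.mp hq).2
  · apply hD
    intro q hq
    rw [Finset.mem_filter] at hq
    exact (hF q hq.1).resolve_left hq.2

theorem Thin.mono {A B : Set ℕ} (hAB : A ⊆ B) (hB : Thin B) : Thin A := by
  obtain ⟨D, hD⟩ := hB
  exact ⟨D, fun F hF => hD F fun q hq => hAB (hF q hq)⟩

theorem Thin.finite {A : Set ℕ} (hA : A.Finite) : Thin A := by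
  refine ⟨∑ q ∈ hA.toFinset, (1 : ℝ) / q, ?_⟩
  intro F hF
  apply Finset.sum_le_sum_of_subset_of_nonneg
  · intro q hq
    rw [Set.Finite.mem_toFinset]
    exact hF q hq
  · intro q _ _
    positivity
-- END f2

end Pool.Agent.S7K
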