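import Pool.Agent.S7K.K4

/-!
# S7, block K, part 5: torsion characters and the measure `μ_W`
-/

set_option autoImplicit false

namespace Pool.Agent.S7K

open MeasureTheory Filter Topology
open scoped ENNReal

variable {K : Type*} [CommGroup K] [TopologicalSpace K] {u : K}
  [IsTopologicalGroup K] [CompactSpace K] [T2Space K] [SecondCountableTopology K]
  [MeasurableSpace K] [BorelSpace K] (m : Measure K) [m.IsHaarMeasure] [IsProbabilityMeasure m]

-- BEGIN g1
private def g1W (K : Type*) [CommGroup K] [TopologicalSpace K] : Subgroup K where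
  carrier := {w | ∀ χ : PontryaginDual K, IsOfFinOrder χ → χ w = 1}
  mul_mem' := fun {a b} ha hb χ hχ => by rw [map_mul, ha χ hχ, hb χ hχ, one_mul]
  one_mem' := fun χ _ => map_one χ
  inv_mem' := fun {a} ha χ hχ => by rw [map_inv, ha χ hχ, inv_one]

omit [IsTopologicalGroup K] [CompactSpace K] [T2Space K] [SecondCountableTopology K]
  [MeasurableSpace K] [BorelSpace K] in
private theorem g1_closed : IsClosed ((g1W K : Subgroup K) : Set K) := by
  have he : ((g1W K : Subgroup K) : Set K)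
      = ⋂ χ : PontryaginDual K, ⋂ _ : IsOfFinOrder χ, {w | χ w = 1} := by
    ext w
    simp [g1W, Set.mem_iInter]
  rw [he]
  refine isClosed_iInter fun χ => isClosed_iInter fun _ => ?_
  exact isClosed_eq χ.continuous continuous_const

omit [T2Space K] in
private theorem g1_exists (χ : PontryaginDual K) (hχ : ¬ IsOfFinOrder χ)
    [T2Space K] : ∃ w ∈ g1W K, χ w ≠ 1 := by
  by_contra hcon
  push Not at hcon
  let A : ℕ → Set K := fun n => (Set.range fun y : K => y ^ n.factorial) ∩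
    {x | 1 / 2 ≤ ‖ch χ x - 1‖}
  have hcl : ∀ n, IsClosed (A n) := fun n =>
    ((isCompact_range (continuous_pow n.factorial)).isClosed).inter
      (isClosed_le continuous_const ((continuous_ch χ).sub continuous_const).norm)
  have hempty : ∃ n, A n = ∅ := by
    by_contra hne
    push Not at hne
    have := IsCompact.nonempty_iInter_of_sequence_nonempty_isCompact_isClosed A ?_ ?_ ?_ hcl
    · obtain ⟨x, hx⟩ := this
      rw [Set.mem_iInter] at hx
      have hxW : x ∈ g1W K := by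
        intro ψ hψ
        obtain ⟨k, hk, hk1⟩ := isOfFinOrder_iff_pow_eq_one.1 hψ
        obtain ⟨⟨y, hy⟩, _⟩ := hx k
        have hd : k ∣ k.factorial := Nat.dvd_factorial hk le_rfl
        obtain ⟨c, hc⟩ := hd
        have h1 : ψ x = (ψ ^ k) (y ^ c) := by
          have h2 : (ψ ^ k) (y ^ c) = ψ ((y ^ c) ^ k) := Circle.ext (pow_ch ψ k (y ^ c))
          rw [h2, ← hy]
          change ψ (y ^ k.factorial) = _
          rw [hc, ← pow_mul, mul_comm]
        rw [h1, hk1]
        exact Circle.ext (one_ch (y ^ c))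
      have h2 := hcon x hxW
      obtain ⟨_, h3⟩ := hx 0
      have h4 : ch χ x = 1 := by
        unfold ch
        rw [h2]
        simp
      have h5 : (1 : ℝ) / 2 ≤ ‖ch χ x - 1‖ := h3
      rw [h4] at h5
      norm_num at h5
    · intro n x hx
      refine ⟨?_, hx.2⟩
      obtain ⟨y, hy⟩ := hx.1
      refine ⟨y ^ (n + 1), ?_⟩
      change (y ^ (n + 1)) ^ n.factorial = x
      rw [← hy]
      change _ = y ^ (n + 1).factorial
      rw [← pow_mul, Nat.factorial_succ]
    · intro n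
      exact Set.nonempty_iff_ne_empty.2 (Set.nonempty_iff_ne_empty.1 (hne n))
    · exact (hcl 0).isCompact
  obtain ⟨n, hn⟩ := hempty
  have : Nonempty K := ⟨1⟩
  let m0 : Measure K := Measure.haarMeasure (⊤ : TopologicalSpace.PositiveCompacts K)
  have : IsProbabilityMeasure m0 := ⟨by
    have := Measure.haarMeasure_self (K₀ := (⊤ : TopologicalSpace.PositiveCompacts K))
    simpa [m0] using this⟩
  have hne1 : χ ^ n.factorial ≠ 1 := fun h =>
    hχ (isOfFinOrder_iff_pow_eq_one.2 ⟨_, Nat.factorial_pos n, h⟩)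
  have h0 := int_ch m0 hne1
  have hb : ∀ y, ‖ch (χ ^ n.factorial) y - 1‖ ≤ 1 / 2 := by
    intro y
    rw [pow_ch]
    by_contra hy
    push Not at hy
    have : y ^ n.factorial ∈ A n := ⟨⟨y, rfl⟩, hy.le⟩
    rw [hn] at this
    exact this
  have hint : Integrable (fun y => ch (χ ^ n.factorial) y) m0 :=
    (continuous_ch _).integrable_of_hasCompactSupport (HasCompactSupport.of_compactSpace _)
  have h5 : ∫ y, (ch (χ ^ n.factorial) y - 1) ∂m0 = -1 := by
    rw [integral_sub hint (integrable_const _), h0]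
    simp
  have h6 : ‖∫ y, (ch (χ ^ n.factorial) y - 1) ∂m0‖ ≤ 1 / 2 := by
    have := norm_integral_le_of_norm_le_const (μ := m0) (Eventually.of_forall hb)
    simpa using this
  rw [h5] at h6
  norm_num at h6

/-- PROOF. `W = {w | χ w = 1 for all torsion χ}`, a closed subgroup, a compact group; `μ` = the image of its
normalised Haar measure. Torsion characters are `1` on `W`. If `χ` is not torsion then `χ` is not `1` on `W`
(so `∫ χ dμ = 0` by `int_ch` on `W`): otherwise the decreasing compact sets `Kp K (n!) ∩ {|χ - 1| ≥ 1/2}` have empty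
intersection (`⋂ Kp K (n!) = W` by `mem_Kp_iff`, `eq_theta_pow`), so `|χ - 1| < 1/2` on `Kp K (n!)` for some `n`, but
`0 = ∫ χ (y ^ (n!)) dm` (`int_ch` for `χ ^ (n!) ≠ 1`), contradiction. -/
theorem exists_muW (h : KD K u) : ∃ μ : Measure K, IsProbabilityMeasure μ ∧
    ∀ χ : PontryaginDual K, ∫ y, ch χ y ∂μ = (open Classical in if IsOfFinOrder χ then 1 else 0) := by
  classical
  have hcp : CompactSpace (g1W K) := isCompact_iff_compactSpace.1 g1_closed.isCompact
  have : Nonempty (g1W K) := ⟨1⟩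
  let ν : Measure (g1W K) := Measure.haarMeasure (⊤ : TopologicalSpace.PositiveCompacts (g1W K))
  have hν : IsProbabilityMeasure ν := ⟨by
    have := Measure.haarMeasure_self (K₀ := (⊤ : TopologicalSpace.PositiveCompacts (g1W K)))
    simpa [ν] using this⟩
  have hval : AEMeasurable (Subtype.val : g1W K → K) ν := measurable_subtype_coe.aemeasurable
  refine ⟨ν.map Subtype.val, Measure.isProbabilityMeasure_map hval, fun χ => ?_⟩
  rw [integral_map hval (continuous_ch χ).aestronglyMeasurable]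
  split_ifs with hχ
  · have : ∀ w : g1W K, ch χ (w : K) = 1 := by
      intro w
      unfold ch
      rw [w.2 χ hχ]
      simp
    simp [this]
  · obtain ⟨w, hw, hne⟩ := g1_exists χ hχ
    have h1 : ∫ x : g1W K, ch χ (((⟨w, hw⟩ : g1W K) * x : g1W K) : K) ∂ν
        = ∫ x : g1W K, ch χ (x : K) ∂ν :=
      integral_mul_left_eq_self (fun x : g1W K => ch χ (x : K)) _
    have h2 : ∀ x : g1W K, ch χ (((⟨w, hw⟩ : g1W K) * x : g1W K) : K) = ch χ w * ch χ (x : K) := by
      intro x
      rw [Subgroup.coe_mul, ch_mul]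
    simp only [h2] at h1
    rw [integral_const_mul] at h1
    have h3 : (ch χ w - 1) * ∫ x : g1W K, ch χ (x : K) ∂ν = 0 := by
      rw [sub_mul, one_mul, h1, sub_self]
    rcases mul_eq_zero.1 h3 with h4 | h4
    · exfalso
      apply hne
      have : ch χ w = 1 := sub_eq_zero.1 h4
      exact Circle.ext (this.trans (Circle.coe_one).symm)
    · exact h4
-- END g1

-- BEGIN g2
private theorem g2_spec (h : KD K u) : IsProbabilityMeasure (muW K) ∧
    ∀ χ : PontryaginDual K, ∫ y, ch χ y ∂(muW K) =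
      (open Classical in if IsOfFinOrder χ then 1 else 0) := by
  unfold muW
  rw [dif_pos (exists_muW h)]
  exact Classical.choose_spec (exists_muW h)

private theorem g2_int (μ : Measure K) [IsFiniteMeasure μ] (χ : PontryaginDual K) :
    Integrable (ch χ) μ :=
  (continuous_ch χ).integrable_of_hasCompactSupport (HasCompactSupport.of_compactSpace _)

theorem isProbabilityMeasure_muW (h : KD K u) : IsProbabilityMeasure (muW K) :=
  (g2_spec h).1

theorem int_muW_tor (h : KD K u) {χ : PontryaginDual K} (hχ : IsOfFinOrder χ) :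
    ∫ y, ch χ y ∂(muW K) = 1 := by
  rw [(g2_spec h).2 χ, if_pos hχ]

theorem int_muW (h : KD K u) {χ : PontryaginDual K} (hχ : ¬ IsOfFinOrder χ) :
    ∫ y, ch χ y ∂(muW K) = 0 := by
  rw [(g2_spec h).2 χ, if_neg hχ]

/-- PROOF. `∫ |χ - 1|² dμ_W = 0`. -/
theorem muW_tor_ae (h : KD K u) {χ : PontryaginDual K} (hχ : IsOfFinOrder χ) :
    ∀ᵐ w ∂(muW K), χ w = 1 := by
  have := isProbabilityMeasure_muW h
  have hi := g2_int (muW K) χ
  have h1 : ∫ y, (1 - (ch χ y).re) ∂(muW K) = 0 := by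
    have hire : Integrable (fun y => (ch χ y).re) (muW K) := hi.re
    rw [integral_sub (integrable_const _) hire]
    have h2 : ∫ y, (ch χ y).re ∂(muW K) = (∫ y, ch χ y ∂(muW K)).re := integral_re hi
    rw [h2, int_muW_tor h hχ]
    simp
  have hnn : ∀ y : K, 0 ≤ 1 - (ch χ y).re := by
    intro y
    have h3 := Complex.re_le_norm (ch χ y)
    rw [norm_ch] at h3
    linarith
  have hint : Integrable (fun y => 1 - (ch χ y).re) (muW K) := (integrable_const _).sub hi.re
  have h4 := (integral_eq_zero_iff_of_nonneg (fun y => hnn y) hint).1 h1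
  filter_upwards [h4] with y hy
  have h5 : (ch χ y).re = 1 := by
    have h6 : 1 - (ch χ y).re = 0 := hy
    linarith
  have h7 : ch χ y = 1 := by
    have h8 := Complex.sq_norm (ch χ y)
    rw [norm_ch, Complex.normSq_apply, h5] at h8
    have h9 : (ch χ y).im = 0 := by nlinarith
    exact Complex.ext (by rw [h5, Complex.one_re]) (by rw [h9, Complex.one_im])
  apply Circle.ext
  rw [Circle.coe_one]
  exact h7

/-- PROOF. `ext_ch`. -/
theorem muW_map_pow (h : KD K u) {n : ℕ} (hn : 1 ≤ n) : (muW K).map (fun w => w ^ n) = muW K := by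
  have := isProbabilityMeasure_muW h
  refine ext_ch h.sep fun χ => ?_
  rw [integral_map (continuous_pow n).aemeasurable (continuous_ch χ).aestronglyMeasurable]
  have e : ∀ y : K, ch χ (y ^ n) = ch (χ ^ n) y := fun y => (pow_ch χ n y).symm
  simp only [e]
  by_cases hχ : IsOfFinOrder χ
  · rw [int_muW_tor h hχ, int_muW_tor h hχ.pow]
  · have h2 : ¬ IsOfFinOrder (χ ^ n) := by
      intro h3
      rcases isOfFinOrder_pow.1 h3 with h4 | h4
      · exact hχ h4
      · omega
    rw [int_muW h hχ, int_muW h h2]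

theorem muW_map_inv (h : KD K u) : (muW K).map (fun w => w⁻¹) = muW K := by
  have := isProbabilityMeasure_muW h
  refine ext_ch h.sep fun χ => ?_
  rw [integral_map continuous_inv.aemeasurable (continuous_ch χ).aestronglyMeasurable]
  have e : ∀ y : K, ch χ y⁻¹ = ch χ⁻¹ y := by
    intro y
    unfold ch
    rw [map_inv]
    rfl
  simp only [e]
  by_cases hχ : IsOfFinOrder χ
  · rw [int_muW_tor h hχ, int_muW_tor h hχ.inv]
  · have h2 : ¬ IsOfFinOrder χ⁻¹ := fun h3 => hχ (isOfFinOrder_inv_iff.1 h3)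
    rw [int_muW h hχ, int_muW h h2]

theorem muW_conv (h : KD K u) :
    ((muW K).prod (muW K)).map (fun p : K × K => p.1 * p.2) = muW K := by
  have := isProbabilityMeasure_muW h
  refine ext_ch h.sep fun χ => ?_
  rw [integral_map continuous_mul.aemeasurable (continuous_ch χ).aestronglyMeasurable]
  simp only [ch_mul]
  rw [integral_prod_mul (fun x => ch χ x) (fun y => ch χ y)]
  by_cases hχ : IsOfFinOrder χ
  · rw [int_muW_tor h hχ, one_mul]
  · rw [int_muW h hχ, zero_mul]
-- END g2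

-- BEGIN g3
/-- `(z, w) ↦ (z w, w)` preserves `m × μ` -/
theorem prod_preserving (μ : Measure K) [SFinite μ] :
    MeasurePreserving (fun p : K × K => (p.1 * p.2, p.2)) (m.prod μ) (m.prod μ) := by
  have h1 : MeasurePreserving (fun p : K × K => (p.1, p.1 * p.2)) (μ.prod m) (μ.prod m) :=
    measurePreserving_prod_mul μ m
  have h2 := (Measure.measurePreserving_swap (μ := μ) (ν := m)).comp
    (h1.comp (Measure.measurePreserving_swap (μ := m) (ν := μ)))
  have h3 : (Prod.swap ∘ (fun p : K × K => (p.1, p.1 * p.2)) ∘ Prod.swap)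
      = fun p : K × K => (p.1 * p.2, p.2) := by
    funext p
    simp only [Function.comp_apply, Prod.swap, mul_comm]
  rwa [h3] at h2

/-- the law of `z w` under `m × μ` is `m` -/
theorem mul_preserving (μ : Measure K) [IsProbabilityMeasure μ] :
    MeasurePreserving (fun p : K × K => p.1 * p.2) (m.prod μ) m :=
  (measurePreserving_fst (μ := m) (ν := μ)).comp (prod_preserving m μ)
-- END g3

-- BEGIN g4
omit [IsTopologicalGroup K] [CompactSpace K] [T2Space K] [SecondCountableTopology K]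
  [MeasurableSpace K] [BorelSpace K] in
private theorem g4_cont {V : Type*} [NormedAddCommGroup V] [NormedSpace ℂ V]
    (s : Finset (PontryaginDual K)) (v : PontryaginDual K → V) : Continuous (tp s v) := by
  unfold tp
  exact continuous_finsetSum _ fun χ _ => (continuous_ch χ).smul continuous_const

private theorem g4_int (h : KD K u) {V : Type*} [NormedAddCommGroup V] [NormedSpace ℂ V]
    [CompleteSpace V] (s : Finset (PontryaginDual K)) (v : PontryaginDual K → V) (z : K) :
    Integrable (fun w => tp s v (z * w)) (muW K) ∧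
    ∫ w, tp s v (z * w) ∂(muW K) =
      tp (open Classical in s.filter fun χ => IsOfFinOrder χ) v z := by
  classical
  have : IsProbabilityMeasure (muW K) := isProbabilityMeasure_muW h
  have hint : ∀ χ ∈ s, Integrable (fun w => ch χ (z * w) • v χ) (muW K) := by
    intro χ _
    refine Integrable.smul_const ?_ _
    refine Integrable.of_bound (C := 1) ?_ (Filter.Eventually.of_forall fun w => ?_)
    · exact ((continuous_ch χ).comp (continuous_const.mul continuous_id)).aestronglyMeasurable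
    · exact (norm_ch χ _).le
  constructor
  · unfold tp
    exact integrable_finsetSum _ hint
  · unfold tp
    rw [integral_finsetSum _ hint, Finset.sum_filter]
    refine Finset.sum_congr rfl fun χ _ => ?_
    rw [integral_smul_const]
    have h1 : ∫ w, ch χ (z * w) ∂(muW K) = ch χ z * ∫ w, ch χ w ∂(muW K) := by
      rw [← integral_const_mul]
      exact integral_congr_ae (Filter.Eventually.of_forall fun w => ch_mul χ z w)
    rw [h1]
    by_cases hχ : IsOfFinOrder χ
    · rw [int_muW_tor h hχ, if_pos hχ, mul_one]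
    · rw [int_muW h hχ, if_neg hχ, mul_zero, zero_smul]

/-- PROOF. Let `P` be a trigonometric polynomial with `‖F - P‖ ≤ ε` (`tp_dense_L2`). `F z = ∫ F (z w) dμ_W(w)` a.e.,
and `∫ P (z w) dμ_W(w)` is the torsion part of `P`; so the torsion part is at distance `≤ ε` from `F`
(`‖∫ G (z w) dμ_W(w)‖² ≤ ∫ ‖G (z w)‖² dμ_W(w)`, `mul_preserving`). -/
theorem tor_approx (h : KD K u) {V : Type*} [NormedAddCommGroup V] [NormedSpace ℂ V]
    [CompleteSpace V] {F : K → V} (hF : MemLp F 2 m)
    (hinv : ∀ᵐ p : K × K ∂(m.prod (muW K)), F (p.1 * p.2) = F p.1) {ε : ℝ≥0∞} (hε : ε ≠ 0) :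
    ∃ (s : Finset (PontryaginDual K)) (v : PontryaginDual K → V), (∀ χ ∈ s, IsOfFinOrder χ) ∧
      eLpNorm (fun y => F y - tp s v y) 2 m ≤ ε := by
  classical
  have : IsProbabilityMeasure (muW K) := isProbabilityMeasure_muW h
  obtain ⟨s, v, hsv⟩ := tp_dense_L2 m h.sep hF hε
  refine ⟨s.filter fun χ => IsOfFinOrder χ, v, fun χ hχ => (Finset.mem_filter.mp hχ).2, ?_⟩
  set G : K → V := fun y => F y - tp s v y with hGdef
  have hG : AEStronglyMeasurable G m := hF.1.sub (g4_cont s v).aestronglyMeasurable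
  have hmp := mul_preserving m (muW K)
  have hG2 : AEStronglyMeasurable (fun p : K × K => G (p.1 * p.2)) (m.prod (muW K)) :=
    hG.comp_measurePreserving hmp
  have e1 : ∀ᵐ z ∂m, F z - tp (s.filter fun χ => IsOfFinOrder χ) v z =
      ∫ w, G (z * w) ∂(muW K) := by
    filter_upwards [Measure.ae_ae_of_ae_prod hinv] with z hz
    obtain ⟨h1, h2⟩ := g4_int h s v z
    have h2' : ∫ w, tp s v (z * w) ∂(muW K) = tp (s.filter fun χ => IsOfFinOrder χ) v z := by
      rw [h2]
    have h3 : ∫ w, G (z * w) ∂(muW K) = ∫ w, (F z - tp s v (z * w)) ∂(muW K) := by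
      refine integral_congr_ae ?_
      filter_upwards [hz] with w hw
      have hw' : F (z * w) = F z := hw
      show F (z * w) - tp s v (z * w) = _
      rw [hw']
    rw [h3, integral_sub (integrable_const _) h1, h2', integral_const]
    simp
  have e2 : ∀ᵐ z ∂m, AEStronglyMeasurable (fun w => G (z * w)) (muW K) := hG2.prodMk_left
  have e3 : ∀ᵐ z ∂m, ‖F z - tp (s.filter fun χ => IsOfFinOrder χ) v z‖ₑ ^ (2 : ℝ) ≤
      ∫⁻ w, ‖G (z * w)‖ₑ ^ (2 : ℝ) ∂(muW K) := by
    filter_upwards [e1, e2] with z h1 h2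
    rw [h1]
    have h3 : ‖∫ w, G (z * w) ∂(muW K)‖ₑ ≤ eLpNorm (fun w => G (z * w)) 2 (muW K) := by
      refine (enorm_integral_le_lintegral_enorm _).trans ?_
      rw [← eLpNorm_one_eq_lintegral_enorm]
      exact eLpNorm_le_eLpNorm_of_exponent_le (by norm_num) h2
    calc ‖∫ w, G (z * w) ∂(muW K)‖ₑ ^ (2 : ℝ) ≤
        (eLpNorm (fun w => G (z * w)) 2 (muW K)) ^ (2 : ℝ) :=
          ENNReal.rpow_le_rpow h3 (by norm_num)
      _ = ∫⁻ w, ‖G (z * w)‖ₑ ^ (2 : ℝ) ∂(muW K) := by
          rw [eLpNorm_eq_lintegral_rpow_enorm_toReal (by norm_num) (by norm_num), ← ENNReal.rpow_mul]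
          simp
  refine le_trans ?_ hsv
  rw [eLpNorm_eq_lintegral_rpow_enorm_toReal (by norm_num) (by norm_num),
    eLpNorm_eq_lintegral_rpow_enorm_toReal (by norm_num) (by norm_num)]
  refine ENNReal.rpow_le_rpow ?_ (by norm_num)
  simp only [ENNReal.toReal_ofNat]
  refine (lintegral_mono_ae e3).trans ?_
  have h4 : AEMeasurable (fun p : K × K => ‖G (p.1 * p.2)‖ₑ ^ (2 : ℝ)) (m.prod (muW K)) :=
    hG2.enorm.pow_const _
  rw [← lintegral_prod _ h4]
  have h5 := hmp.map_eq
  rw [← lintegral_map' (f := fun y => ‖G y‖ₑ ^ (2 : ℝ)) (g := fun p : K × K => p.1 * p.2)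
    (by rw [h5]; exact hG.enorm.pow_const _) hmp.measurable.aemeasurable, h5]
-- END g4

-- BEGIN g5
/-- a trigonometric polynomial in torsion characters is constant along `x ↦ x ^ q`, `q = 1` modulo `Q` -/
theorem tp_pow_eq {V : Type*} [AddCommGroup V] [Module ℂ V] (s : Finset (PontryaginDual K))
    (v : PontryaginDual K → V) (hs : ∀ χ ∈ s, IsOfFinOrder χ) :
    ∃ Q : ℕ, 1 ≤ Q ∧ ∀ q : ℕ, q ≡ 1 [MOD Q] → ∀ x : K, tp s v (x ^ q) = tp s v x := by
  refine ⟨∏ χ ∈ s, orderOf χ, Nat.succ_le_of_lt (Finset.prod_pos fun χ hχ => (hs χ hχ).orderOf_pos),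
    fun q hq x => ?_⟩
  refine Finset.sum_congr rfl fun χ hχ => ?_
  have h1 : q ≡ 1 [MOD orderOf χ] := hq.of_dvd (Finset.dvd_prod_of_mem _ hχ)
  have h2 : χ ^ q = χ := by
    have := pow_eq_pow_iff_modEq.2 h1
    rwa [pow_one] at this
  rw [← pow_ch, h2]
-- END g5

-- BEGIN h1
private theorem h1_pair {χ ψ : PontryaginDual K} {a b c d : ℕ} (ha : a.Prime) (hb : b.Prime)
    (hc : c.Prime) (hab : a ≠ b) (hac : a ≠ c) (h1 : IsOfFinOrder (χ ^ a * ψ ^ b))
    (h2 : IsOfFinOrder (χ ^ c * ψ ^ d)) : IsOfFinOrder χ := by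
  have h3 : IsOfFinOrder ((χ ^ a * ψ ^ b) ^ d * ((χ ^ c * ψ ^ d) ^ b)⁻¹) := h1.pow.mul h2.pow.inv
  have h4 : (χ ^ a * ψ ^ b) ^ d * ((χ ^ c * ψ ^ d) ^ b)⁻¹ = χ ^ (a * d) * (χ ^ (c * b))⁻¹ := by
    rw [mul_pow, mul_pow, ← pow_mul, ← pow_mul, ← pow_mul, ← pow_mul, mul_comm d b, mul_inv,
      mul_mul_mul_comm, mul_inv_cancel, mul_one]
  rw [h4] at h3
  have hne : a * d ≠ c * b := by
    intro h
    rcases (Nat.Prime.dvd_mul ha).mp (⟨d, h.symm⟩ : a ∣ c * b) with h | h
    · exact hac ((Nat.prime_dvd_prime_iff_eq ha hc).mp h)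
    · exact hab ((Nat.prime_dvd_prime_iff_eq ha hb).mp h)
  rcases lt_or_gt_of_ne hne with h | h
  · have h5 : χ ^ (a * d) * (χ ^ (c * b))⁻¹ = (χ ^ (c * b - a * d))⁻¹ := by
      have h6 : χ ^ (c * b) = χ ^ (c * b - a * d) * χ ^ (a * d) := by
        rw [← pow_add, Nat.sub_add_cancel h.le]
      rw [h6, mul_inv, mul_comm (χ ^ (c * b - a * d))⁻¹, ← mul_assoc, mul_inv_cancel, one_mul]
    rw [h5] at h3
    have h7 := h3.inv
    rw [inv_inv] at h7
    exact h7.of_pow (Nat.sub_ne_zero_of_lt h)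
  · have h5 : χ ^ (a * d) * (χ ^ (c * b))⁻¹ = χ ^ (a * d - c * b) := by
      have h6 : χ ^ (a * d) = χ ^ (a * d - c * b) * χ ^ (c * b) := by
        rw [← pow_add, Nat.sub_add_cancel h.le]
      rw [h6, mul_assoc, mul_inv_cancel, mul_one]
    rw [h5] at h3
    exact h3.of_pow (Nat.sub_ne_zero_of_lt h)

/-- Fourier coefficients for V1 (iv): `χ₁ ^ q χ₂ ^ q'` is torsion for all `n`, for no `n` or for at most one `n`. -/
theorem tor_pair (q q' : ℕ → ℕ) (hq : ∀ n, (q n).Prime) (hq' : ∀ n, (q' n).Prime)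
    (hne : ∀ n, q n ≠ q' n)
    (hdis : ∀ n k, n ≠ k → q n ≠ q k ∧ q' n ≠ q' k ∧ q n ≠ q' k) (χ₁ χ₂ : PontryaginDual K) :
    (IsOfFinOrder χ₁ ∧ IsOfFinOrder χ₂ ∧ ∀ n, IsOfFinOrder (χ₁ ^ q n * χ₂ ^ q' n)) ∨
      ((¬ IsOfFinOrder χ₁ ∨ ¬ IsOfFinOrder χ₂) ∧
        ∃ n₀, ∀ n, n₀ ≤ n → ¬ IsOfFinOrder (χ₁ ^ q n * χ₂ ^ q' n)) := by
  by_cases hχ : IsOfFinOrder χ₁
  · by_cases hψ : IsOfFinOrder χ₂
    · exact Or.inl ⟨hχ, hψ, fun n => hχ.pow.mul hψ.pow⟩
    · refine Or.inr ⟨Or.inr hψ, 0, fun n _ ht => hψ ?_⟩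
      have h3 : IsOfFinOrder ((χ₁ ^ q n)⁻¹ * (χ₁ ^ q n * χ₂ ^ q' n)) := hχ.pow.inv.mul ht
      rw [← mul_assoc, inv_mul_cancel, one_mul] at h3
      exact h3.of_pow (hq' n).ne_zero
  · by_cases hψ : IsOfFinOrder χ₂
    · refine Or.inr ⟨Or.inl hχ, 0, fun n _ ht => hχ ?_⟩
      have h3 : IsOfFinOrder ((χ₁ ^ q n * χ₂ ^ q' n) * (χ₂ ^ q' n)⁻¹) := ht.mul hψ.pow.inv
      rw [mul_assoc, mul_inv_cancel, mul_one] at h3
      exact h3.of_pow (hq n).ne_zero
    · refine Or.inr ⟨Or.inl hχ, ?_⟩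
      by_cases hex : ∃ n, IsOfFinOrder (χ₁ ^ q n * χ₂ ^ q' n)
      · obtain ⟨n, hn⟩ := hex
        refine ⟨n + 1, fun k hk ht => hχ ?_⟩
        have hnk : n ≠ k := by omega
        exact h1_pair (hq n) (hq' n) (hq k) (hne n) (hdis n k hnk).1 hn ht
      · push Not at hex
        exact ⟨0, fun n _ => hex n⟩
-- END h1

-- BEGIN h2
/-- the products of three characters -/
private def h2_M (K : Type*) [CommGroup K] [TopologicalSpace K] : Set C(K × K × K, Circle) :=
  {f | ∃ a b c : PontryaginDual K, ∀ p, f p = a p.1 * b p.2.1 * c p.2.2}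

omit [CompactSpace K] [T2Space K] [SecondCountableTopology K] [MeasurableSpace K]
  [BorelSpace K] [IsTopologicalGroup K] in
private theorem h2_mem (a b c : PontryaginDual K) :
    ∃ f ∈ h2_M K, ∀ p : K × K × K, f p = a p.1 * b p.2.1 * c p.2.2 := by
  refine ⟨⟨fun p => a p.1 * b p.2.1 * c p.2.2, ?_⟩, ⟨a, b, c, fun p => rfl⟩, fun p => rfl⟩
  exact ((a.continuous_toFun.comp continuous_fst).mul
    (b.continuous_toFun.comp (continuous_fst.comp continuous_snd))).mul
      (c.continuous_toFun.comp (continuous_snd.comp continuous_snd))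

omit [CompactSpace K] [T2Space K] [SecondCountableTopology K] [MeasurableSpace K]
  [BorelSpace K] [IsTopologicalGroup K] in
private theorem h2_sep1 (h : KD K u) {x y : K} (hxy : ∀ χ : PontryaginDual K, χ x = χ y) :
    x = y := by
  have : x * y⁻¹ = 1 := h.sep _ fun χ => by
    rw [map_mul, hxy χ, ← map_mul, mul_inv_cancel, map_one]
  exact mul_inv_eq_one.1 this

omit [CompactSpace K] [T2Space K] [SecondCountableTopology K] [MeasurableSpace K]
  [BorelSpace K] [IsTopologicalGroup K] in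
private theorem h2_sep (h : KD K u) (x y : K × K × K) (hxy : ∀ f ∈ h2_M K, f x = f y) :
    x = y := by
  refine Prod.ext (h2_sep1 h fun χ => ?_) (Prod.ext (h2_sep1 h fun χ => ?_)
    (h2_sep1 h fun χ => ?_))
  · obtain ⟨f, hf, e⟩ := h2_mem χ 1 1
    have := hxy f hf
    rw [e, e] at this
    simpa using this
  · obtain ⟨f, hf, e⟩ := h2_mem 1 χ 1
    have := hxy f hf
    rw [e, e] at this
    simpa using this
  · obtain ⟨f, hf, e⟩ := h2_mem 1 1 χ
    have := hxy f hf
    rw [e, e] at this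
    simpa using this

private theorem h2_third (q' : ℕ → ℕ) (hq' : ∀ n, (q' n).Prime)
    (hdis : ∀ n k, n ≠ k → q' n ≠ q' k) (c : PontryaginDual K) :
    ∃ n₀, ∀ n, n₀ ≤ n → ∫ x, ch (c ^ q' n) x ∂m = ∫ x, ch c x ∂m := by
  by_cases hc : c = 1
  · exact ⟨0, fun n _ => by rw [hc, one_pow]⟩
  · have hord : ∀ n, c ^ q' n = 1 → orderOf c = q' n := by
      intro n hn
      rcases (Nat.dvd_prime (hq' n)).1 (orderOf_dvd_of_pow_eq_one hn) with h1 | h1
      · exact absurd (orderOf_eq_one_iff.1 h1) hc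
      · exact h1
    by_cases hex : ∃ n, c ^ q' n = 1
    · obtain ⟨n₁, h₁⟩ := hex
      refine ⟨n₁ + 1, fun n hn => ?_⟩
      have h2 : c ^ q' n ≠ 1 := by
        intro h2
        exact hdis n n₁ (by omega) ((hord n h2).symm.trans (hord n₁ h₁))
      rw [int_ch m h2, int_ch m hc]
    · push Not at hex
      exact ⟨0, fun n _ => by rw [int_ch m (hex n), int_ch m hc]⟩

/-- V1 (iv): the law of `(v ^ q, v ^ q', x ^ q')` under `μ_W × m` tends to `μ_W × μ_W × m`. PROOF. `tendsto_sw` for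
`K × K × K` and the products of three characters; `tor_pair`; `∫ χ₃ (x ^ q') dm = 1[χ₃ ^ q' = 1]`, which is zero for
`χ₃ ≠ 1` and all but one `n` (different primes). -/
theorem tendsto_law (h : KD K u) (q q' : ℕ → ℕ) (hq : ∀ n, (q n).Prime)
    (hq' : ∀ n, (q' n).Prime) (hne : ∀ n, q n ≠ q' n)
    (hdis : ∀ n k, n ≠ k → q n ≠ q k ∧ q' n ≠ q' k ∧ q n ≠ q' k) (F : C(K × K × K, ℝ)) :
    Tendsto (fun n => ∫ p : K × K, F (p.1 ^ q n, p.1 ^ q' n, p.2 ^ q' n) ∂((muW K).prod m)) atTop
      (𝓝 (∫ p : K × K × K, F p ∂((muW K).prod ((muW K).prod m)))) := by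
  classical
  haveI : IsProbabilityMeasure (muW K) := isProbabilityMeasure_muW h
  have hφ : ∀ n, Continuous fun p : K × K =>
      ((p.1 ^ q n, p.1 ^ q' n, p.2 ^ q' n) : K × K × K) := fun n =>
    (continuous_fst.pow _).prodMk ((continuous_fst.pow _).prodMk (continuous_snd.pow _))
  have hmu : ∀ n, IsProbabilityMeasure (((muW K).prod m).map fun p : K × K =>
      ((p.1 ^ q n, p.1 ^ q' n, p.2 ^ q' n) : K × K × K)) := fun n =>
    Measure.isProbabilityMeasure_map (hφ n).aemeasurable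
  have hmap : ∀ (G : K × K × K → ℂ) (_ : Continuous G) (n : ℕ),
      ∫ x, G x ∂(((muW K).prod m).map fun p : K × K =>
        ((p.1 ^ q n, p.1 ^ q' n, p.2 ^ q' n) : K × K × K))
      = ∫ p : K × K, G (p.1 ^ q n, p.1 ^ q' n, p.2 ^ q' n) ∂((muW K).prod m) := by
    intro G hG n
    exact integral_map (hφ n).aemeasurable hG.aestronglyMeasurable
  have key : ∀ f ∈ h2_M K, Tendsto (fun n => ∫ x, (f x : ℂ) ∂(((muW K).prod m).map
      fun p : K × K => ((p.1 ^ q n, p.1 ^ q' n, p.2 ^ q' n) : K × K × K))) atTop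
      (𝓝 (∫ x, (f x : ℂ) ∂((muW K).prod ((muW K).prod m)))) := by
    rintro f ⟨a, b, c, hf⟩
    have e1 : ∀ n, ∫ x, (f x : ℂ) ∂(((muW K).prod m).map
        fun p : K × K => ((p.1 ^ q n, p.1 ^ q' n, p.2 ^ q' n) : K × K × K))
        = (∫ v, ch (a ^ q n * b ^ q' n) v ∂(muW K)) * ∫ x, ch (c ^ q' n) x ∂m := by
      intro n
      rw [hmap (fun x => (f x : ℂ)) (continuous_induced_dom.comp f.continuous) n,
        ← integral_prod_mul]
      refine integral_congr_ae (Eventually.of_forall fun p => ?_)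
      simp only [hf, Circle.coe_mul, mul_ch, pow_ch]
      rfl
    have e2 : ∫ x, (f x : ℂ) ∂((muW K).prod ((muW K).prod m))
        = (∫ v, ch a v ∂(muW K)) * ((∫ v, ch b v ∂(muW K)) * ∫ x, ch c x ∂m) := by
      rw [← integral_prod_mul, ← integral_prod_mul]
      refine integral_congr_ae (Eventually.of_forall fun p => ?_)
      simp only [hf, Circle.coe_mul]
      exact mul_assoc _ _ _
    obtain ⟨n₁, hn₁⟩ := h2_third m q' hq' (fun n k hnk => (hdis n k hnk).2.1) c
    rcases tor_pair q q' hq hq' hne hdis a b with ⟨ha, hb, hab⟩ | ⟨hab, n₂, hn₂⟩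
    · refine tendsto_atTop_of_eventually_const (i₀ := n₁) fun n hn => ?_
      rw [e1, e2, int_muW_tor h ha, int_muW_tor h hb, int_muW_tor h (hab n), hn₁ n hn, one_mul,
        one_mul]
    · refine tendsto_atTop_of_eventually_const (i₀ := n₂) fun n hn => ?_
      rw [e1, e2, int_muW h (hn₂ n hn), zero_mul]
      rcases hab with h1 | h1
      · rw [int_muW h h1, zero_mul]
      · rw [int_muW h h1, zero_mul, mul_zero]
  have main := tendsto_sw (h2_M K) ⟨1, 1, 1, fun p => by simp⟩
    (by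
      rintro f ⟨a, b, c, hf⟩ g ⟨a', b', c', hg⟩
      refine ⟨a * a', b * b', c * c', fun p => ?_⟩
      rw [ContinuousMap.mul_apply, hf, hg]
      have e : ∀ (s t : PontryaginDual K) (z : K), (s * t) z = s z * t z := fun _ _ _ => rfl
      rw [e, e, e]
      ac_rfl)
    (by
      rintro f ⟨a, b, c, hf⟩
      refine ⟨a⁻¹, b⁻¹, c⁻¹, fun p => ?_⟩
      have e : ∀ (s : PontryaginDual K) (z : K), (s⁻¹) z = (s z)⁻¹ := fun _ _ => rfl
      rw [ContinuousMap.inv_apply, hf, e, e, e, mul_inv, mul_inv])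
    (h2_sep h) _ hmu ((muW K).prod ((muW K).prod m)) key
    ⟨fun p => ((F p : ℝ) : ℂ), Complex.continuous_ofReal.comp F.continuous⟩
  have e3 : ∀ n, ∫ x, ((⟨fun p => ((F p : ℝ) : ℂ), Complex.continuous_ofReal.comp F.continuous⟩ :
      C(K × K × K, ℂ)) x) ∂(((muW K).prod m).map fun p : K × K =>
        ((p.1 ^ q n, p.1 ^ q' n, p.2 ^ q' n) : K × K × K))
      = ((∫ p : K × K, F (p.1 ^ q n, p.1 ^ q' n, p.2 ^ q' n) ∂((muW K).prod m) : ℝ) : ℂ) := by
    intro n
    rw [← integral_complex_ofReal]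
    exact hmap (fun p => ((F p : ℝ) : ℂ)) (Complex.continuous_ofReal.comp F.continuous) n
  have e4 : ∫ x, ((⟨fun p => ((F p : ℝ) : ℂ), Complex.continuous_ofReal.comp F.continuous⟩ :
      C(K × K × K, ℂ)) x) ∂((muW K).prod ((muW K).prod m))
      = ((∫ p : K × K × K, F p ∂((muW K).prod ((muW K).prod m)) : ℝ) : ℂ) := by
    rw [← integral_complex_ofReal]
    rfl
  rw [e4] at main
  have main2 := (Complex.continuous_re.tendsto _).comp main
  simp only [Complex.ofReal_re] at main2
  refine main2.congr fun n => ?_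
  simp only [Function.comp]
  rw [e3 n, Complex.ofReal_re]
-- END h2

end Pool.Agent.S7K
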