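import Mathlib

/-!
# S7, block K: characters of a compact abelian group with a distinguished element

Definitions only (no proofs needed). `K` is written multiplicatively, `PontryaginDual K = K →ₜ* Circle`.
-/

set_option autoImplicit false

namespace Pool.Agent.S7K

open MeasureTheory Filter Topology
open scoped ENNReal

/-- The hypothesis (KD) of section 0. -/
structure KD (K : Type*) [CommGroup K] [TopologicalSpace K] (u : K) : Prop where
  sep : ∀ x : K, (∀ χ : PontryaginDual K, χ x = 1) → x = 1
  dense : ∀ χ : PontryaginDual K, χ u = 1 → χ = 1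
  div : ∀ n : ℕ, 1 ≤ n → ∀ χ : PontryaginDual K, ∃ ψ : PontryaginDual K, ψ ^ n = χ
  roots : ∀ n : ℕ, 1 ≤ n → ∀ z : Circle, z ^ n = 1 → ∃ χ : PontryaginDual K, χ u = z

/-- A set of numbers (primes) is thin if the sums of `1 / q` over its finite subsets are bounded; this is the
hypothesis of `S7e.prime_supply`. -/
def Thin (B : Set ℕ) : Prop :=
  ∃ C : ℝ, ∀ F : Finset ℕ, (∀ q ∈ F, q ∈ B) → ∑ q ∈ F, (1 : ℝ) / q ≤ C

section

variable {K : Type*} [CommGroup K] [TopologicalSpace K]

/-- the character `χ` as a complex valued function -/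
noncomputable def ch (χ : PontryaginDual K) (y : K) : ℂ := ((χ y : Circle) : ℂ)

/-- the trigonometric polynomial with the coefficients `v χ`, `χ ∈ s` -/
noncomputable def tp {V : Type*} [AddCommGroup V] [Module ℂ V] (s : Finset (PontryaginDual K))
    (v : PontryaginDual K → V) (y : K) : V := ∑ χ ∈ s, ch χ y • v χ

open Classical in
/-- the character `θ_n` of order `n`: `θ_n u = exp (2 π i / n)` -/
noncomputable def theta (u : K) (n : ℕ) [NeZero n] : PontryaginDual K :=
  if h : ∃ χ : PontryaginDual K, χ ^ n = 1 ∧ χ u = ZMod.toCircle (1 : ZMod n) then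
    Classical.choose h else 1

open Classical in
/-- the residue of `y` modulo `n`: `θ_n y = exp (2 π i res / n)` -/
noncomputable def res (u : K) (n : ℕ) [NeZero n] (y : K) : ZMod n :=
  if h : ∃ j : ZMod n, ZMod.toCircle j = theta u n y then Classical.choose h else 0

open Classical in
/-- the residue as a natural number `< q` -/
noncomputable def rs (u : K) (q : ℕ) (y : K) : ℕ :=
  if h : q = 0 then 0 else
    haveI : NeZero q := ⟨h⟩
    (res u q y).val

/-- the `n`-th powers -/
def Kp (K : Type*) [CommGroup K] (n : ℕ) : Set K := Set.range fun y : K => y ^ n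

open Classical in
/-- the root map: `(rt n y) ^ n = y` for `y ∈ Kp K n` -/
noncomputable def rt (n : ℕ) (y : K) : K := if h : ∃ x : K, x ^ n = y then Classical.choose h else 1

open Classical in
/-- the measure `μ_W`: `∫ χ dμ_W = 1` for torsion characters `χ`, `= 0` for all others -/
noncomputable def muW (K : Type*) [CommGroup K] [TopologicalSpace K] [MeasurableSpace K] : Measure K :=
  if h : ∃ μ : Measure K, IsProbabilityMeasure μ ∧ ∀ χ : PontryaginDual K,
      ∫ y, ch χ y ∂μ = if IsOfFinOrder χ then 1 else 0 then Classical.choose h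
    else Measure.dirac 1

/-- the sigma-algebra generated by the characters in `Λ` -/
@[reducible] noncomputable def sg (Λ : Set (PontryaginDual K)) : MeasurableSpace K :=
  ⨆ χ ∈ Λ, MeasurableSpace.comap (fun y => χ y) (borel Circle)

end

end Pool.Agent.S7K
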